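import Mathlib

set_option autoImplicit false

/-!
# The powers of two complex numbers in terms of the five distances
-/

namespace Run7.h498

open ComplexConjugate

/-- a polynomial in five variables, of degree at most `N`, with the sum of the absolute values of the
coefficients at most `Q` -/
def Ex (N : ℕ) (Q : ℝ) (h : (Fin 5 → ℝ) → ℝ) : Prop :=
  ∃ (ι : Type) (_ : Fintype ι) (c : ι → ℝ) (m : ι → Fin 5 → ℕ),
    (∀ i, ∑ j, m i j ≤ N) ∧ ∑ i, |c i| ≤ Q ∧ ∀ r, h r = ∑ i, c i * ∏ j, r j ^ m i j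

lemma Ex.nonneg {N : ℕ} {Q : ℝ} {h : (Fin 5 → ℝ) → ℝ} (hh : Ex N Q h) : 0 ≤ Q := by
  obtain ⟨ι, _, c, m, -, hc, -⟩ := hh
  exact (Finset.sum_nonneg fun i _ => abs_nonneg _).trans hc

lemma Ex.mono {N N' : ℕ} {Q Q' : ℝ} {h : (Fin 5 → ℝ) → ℝ} (hh : Ex N Q h) (hN : N ≤ N')
    (hQ : Q ≤ Q') : Ex N' Q' h := by
  obtain ⟨ι, _, c, m, hm, hc, he⟩ := hh
  exact ⟨ι, inferInstance, c, m, fun i => (hm i).trans hN, hc.trans hQ, he⟩

lemma Ex.const (a : ℝ) : Ex 0 |a| (fun _ => a) :=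
  ⟨Unit, inferInstance, fun _ => a, fun _ _ => 0, by simp, by simp, by simp⟩

lemma Ex.var (j : Fin 5) : Ex 1 1 (fun r => r j) := by
  refine ⟨Unit, inferInstance, fun _ => 1, fun _ => Pi.single j 1, by simp, by simp, fun r => ?_⟩
  simp only [Finset.univ_unique, Finset.sum_singleton, one_mul]
  rw [Finset.prod_eq_single j]
  · simp
  · intro i _ hi
    rw [Pi.single_eq_of_ne hi, pow_zero]
  · intro h; exact absurd (Finset.mem_univ j) h

lemma Ex.add {N : ℕ} {Q Q' : ℝ} {h h' : (Fin 5 → ℝ) → ℝ} (hh : Ex N Q h) (hh' : Ex N Q' h') :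
    Ex N (Q + Q') (fun r => h r + h' r) := by
  obtain ⟨ι, _, c, m, hm, hc, he⟩ := hh
  obtain ⟨ι', _, c', m', hm', hc', he'⟩ := hh'
  refine ⟨ι ⊕ ι', inferInstance, Sum.elim c c', Sum.elim m m', ?_, ?_, ?_⟩
  · rintro (i | i)
    · exact hm i
    · exact hm' i
  · rw [Fintype.sum_sum_type]
    exact add_le_add hc hc'
  · intro r
    rw [Fintype.sum_sum_type]
    show h r + h' r = _
    rw [he, he']
    rfl

lemma Ex.mul {N N' : ℕ} {Q Q' : ℝ} {h h' : (Fin 5 → ℝ) → ℝ} (hh : Ex N Q h) (hh' : Ex N' Q' h') :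
    Ex (N + N') (Q * Q') (fun r => h r * h' r) := by
  have hQ := hh.nonneg
  obtain ⟨ι, _, c, m, hm, hc, he⟩ := hh
  obtain ⟨ι', _, c', m', hm', hc', he'⟩ := hh'
  refine ⟨ι × ι', inferInstance, fun x => c x.1 * c' x.2, fun x j => m x.1 j + m' x.2 j,
    ?_, ?_, ?_⟩
  · intro x
    rw [Finset.sum_add_distrib]
    exact add_le_add (hm _) (hm' _)
  · rw [Fintype.sum_prod_type]
    have : ∑ x, ∑ y, |c x * c' y| = (∑ x, |c x|) * ∑ y, |c' y| := by
      rw [Finset.sum_mul_sum]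
      exact Finset.sum_congr rfl fun x _ => Finset.sum_congr rfl fun y _ => abs_mul _ _
    rw [this]
    exact mul_le_mul hc hc' (Finset.sum_nonneg fun _ _ => abs_nonneg _) hQ
  · intro r
    show h r * h' r = _
    rw [he, he', Finset.sum_mul_sum, Fintype.sum_prod_type]
    apply Finset.sum_congr rfl
    intro x _
    apply Finset.sum_congr rfl
    intro y _
    simp only [pow_add, Finset.prod_mul_distrib]
    ring

lemma Ex.smul {N : ℕ} {Q : ℝ} {h : (Fin 5 → ℝ) → ℝ} (a : ℝ) (hh : Ex N Q h) :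
    Ex N (|a| * Q) (fun r => a * h r) := by
  have := (Ex.const a).mul hh
  rwa [zero_add] at this

/-- `2 Re x` -/
def Sx (r : Fin 5 → ℝ) : ℝ := 1 + r 0 + -1 * r 1
/-- `2 Re y` -/
def Sy (r : Fin 5 → ℝ) : ℝ := 1 + r 2 + -1 * r 3
/-- `(x - conj x) ^ 2` -/
def Dx (r : Fin 5 → ℝ) : ℝ := Sx r * Sx r + -4 * r 0
/-- `(y - conj y) ^ 2` -/
def Dy (r : Fin 5 → ℝ) : ℝ := Sy r * Sy r + -4 * r 2
/-- `(x - conj x) (y - conj y)` -/
def cc (r : Fin 5 → ℝ) : ℝ := Sx r * Sy r + (-2 * r 0 + (-2 * r 2 + 2 * r 4))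
/-- the Cayley–Menger polynomial -/
def CMp (r : Fin 5 → ℝ) : ℝ := cc r * cc r + -1 * (Dx r * Dy r)

lemma ex_Sx : Ex 1 3 Sx := by
  have := (((Ex.const 1).mono (Nat.zero_le 1) le_rfl).add (Ex.var 0)).add ((Ex.var 1).smul (-1))
  exact this.mono le_rfl (by norm_num)

lemma ex_Sy : Ex 1 3 Sy := by
  have := (((Ex.const 1).mono (Nat.zero_le 1) le_rfl).add (Ex.var 2)).add ((Ex.var 3).smul (-1))
  exact this.mono le_rfl (by norm_num)

lemma ex_Dx : Ex 2 13 Dx := by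
  have := (ex_Sx.mul ex_Sx).add (((Ex.var 0).smul (-4)).mono (by norm_num : 1 ≤ 2) le_rfl)
  exact this.mono le_rfl (by norm_num)

lemma ex_Dy : Ex 2 13 Dy := by
  have := (ex_Sy.mul ex_Sy).add (((Ex.var 2).smul (-4)).mono (by norm_num : 1 ≤ 2) le_rfl)
  exact this.mono le_rfl (by norm_num)

lemma ex_cc : Ex 2 15 cc := by
  have := (ex_Sx.mul ex_Sy).add ((((Ex.var 0).smul (-2)).add (((Ex.var 2).smul (-2)).add
    ((Ex.var 4).smul 2))).mono (by norm_num : 1 ≤ 2) le_rfl)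
  exact this.mono le_rfl (by norm_num)

lemma ex_CMp : Ex 4 394 CMp := by
  have := (ex_cc.mul ex_cc).add ((ex_Dx.mul ex_Dy).smul (-1))
  exact this.mono le_rfl (by norm_num)

/-- the squares of the five distances -/
noncomputable def rr (x y : ℂ) : Fin 5 → ℝ :=
  ![Complex.normSq x, Complex.normSq (1 - x), Complex.normSq y, Complex.normSq (1 - y),
    Complex.normSq (x - y)]

section
variable (x y : ℂ)

lemma rr0 : ((rr x y 0 : ℝ) : ℂ) = x * conj x := by
  rw [Complex.mul_conj]; rfl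
lemma rr1 : ((rr x y 1 : ℝ) : ℂ) = (1 - x) * (1 - conj x) := by
  have := Complex.mul_conj (1 - x)
  rw [map_sub, map_one] at this
  rw [this]; rfl
lemma rr2 : ((rr x y 2 : ℝ) : ℂ) = y * conj y := by
  rw [Complex.mul_conj]; rfl
lemma rr3 : ((rr x y 3 : ℝ) : ℂ) = (1 - y) * (1 - conj y) := by
  have := Complex.mul_conj (1 - y)
  rw [map_sub, map_one] at this
  rw [this]; rfl
lemma rr4 : ((rr x y 4 : ℝ) : ℂ) = (x - y) * (conj x - conj y) := by
  have := Complex.mul_conj (x - y)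
  rw [map_sub] at this
  rw [this]; rfl

lemma Sx_rr : ((Sx (rr x y) : ℝ) : ℂ) = x + conj x := by
  rw [Sx]; push_cast; rw [rr0, rr1]; ring
lemma Sy_rr : ((Sy (rr x y) : ℝ) : ℂ) = y + conj y := by
  rw [Sy]; push_cast; rw [rr2, rr3]; ring
lemma Dx_rr : ((Dx (rr x y) : ℝ) : ℂ) = (x - conj x) ^ 2 := by
  rw [Dx]; push_cast; rw [Sx_rr, rr0]; ring
lemma Dy_rr : ((Dy (rr x y) : ℝ) : ℂ) = (y - conj y) ^ 2 := by
  rw [Dy]; push_cast; rw [Sy_rr, rr2]; ring
lemma cc_rr : ((cc (rr x y) : ℝ) : ℂ) = (x - conj x) * (y - conj y) := by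
  rw [cc]; push_cast; rw [Sx_rr, Sy_rr, rr0, rr2, rr4]; ring

lemma CMp_rr : CMp (rr x y) = 0 := by
  have : ((CMp (rr x y) : ℝ) : ℂ) = 0 := by
    rw [CMp]; push_cast; rw [cc_rr, Dx_rr, Dy_rr]; ring
  exact_mod_cast this

end

/-- the monomials in `x` and `y` -/
theorem powers (i j : ℕ) : ∃ f0 f1 f2 : (Fin 5 → ℝ) → ℝ,
    Ex (2 * (i + j)) (16 ^ (i + j)) f0 ∧ Ex (2 * (i + j)) (16 ^ (i + j)) f1 ∧
    Ex (2 * (i + j)) (16 ^ (i + j)) f2 ∧ ∀ x y : ℂ, x ^ i * y ^ j =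
      (f0 (rr x y) : ℂ) + f1 (rr x y) * (x - conj x) + f2 (rr x y) * (y - conj y) := by
  induction i with
  | zero =>
    induction j with
    | zero =>
      refine ⟨fun _ => 1, fun _ => 0, fun _ => 0, ?_, ?_, ?_, fun x y => by simp⟩
      · exact (Ex.const 1).mono (by simp) (by simp)
      · exact (Ex.const 0).mono (by simp) (by simp)
      · exact (Ex.const 0).mono (by simp) (by simp)
    | succ j ih =>
      obtain ⟨f0, f1, f2, h0, h1, h2, h⟩ := ih
      refine ⟨fun r => 1 / 2 * (Sy r * f0 r + (cc r * f1 r + Dy r * f2 r)),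
        fun r => 1 / 2 * (Sy r * f1 r), fun r => 1 / 2 * (f0 r + Sy r * f2 r), ?_, ?_, ?_, ?_⟩
      · have g0 := ((ex_Sy.mul h0).mono (by omega : 1 + 2 * (0 + j) ≤ 2 * (0 + (j + 1))) le_rfl)
        have g1 := ((ex_cc.mul h1).mono (by omega : 2 + 2 * (0 + j) ≤ 2 * (0 + (j + 1))) le_rfl)
        have g2 := ((ex_Dy.mul h2).mono (by omega : 2 + 2 * (0 + j) ≤ 2 * (0 + (j + 1))) le_rfl)
        have := (g0.add (g1.add g2)).smul (1 / 2)
        refine this.mono le_rfl ?_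
        rw [abs_of_pos (by norm_num : (0 : ℝ) < 1 / 2), show 0 + (j + 1) = (0 + j) + 1 by ring,
          pow_succ]
        have : (0 : ℝ) < 16 ^ (0 + j) := by positivity
        nlinarith
      · have g1 := ((ex_Sy.mul h1).mono (by omega : 1 + 2 * (0 + j) ≤ 2 * (0 + (j + 1))) le_rfl)
        refine (g1.smul (1 / 2)).mono le_rfl ?_
        rw [abs_of_pos (by norm_num : (0 : ℝ) < 1 / 2), show 0 + (j + 1) = (0 + j) + 1 by ring,
          pow_succ]
        have : (0 : ℝ) < 16 ^ (0 + j) := by positivity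
        nlinarith
      · have g0 := (h0.mono (by omega : 2 * (0 + j) ≤ 2 * (0 + (j + 1))) le_rfl)
        have g2 := ((ex_Sy.mul h2).mono (by omega : 1 + 2 * (0 + j) ≤ 2 * (0 + (j + 1))) le_rfl)
        refine ((g0.add g2).smul (1 / 2)).mono le_rfl ?_
        rw [abs_of_pos (by norm_num : (0 : ℝ) < 1 / 2), show 0 + (j + 1) = (0 + j) + 1 by ring,
          pow_succ]
        have : (0 : ℝ) < 16 ^ (0 + j) := by positivity
        nlinarith
      · intro x y
        have e : x ^ 0 * y ^ (j + 1) = (x ^ 0 * y ^ j) * y := by ring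
        rw [e, h]
        push_cast
        rw [Sy_rr, cc_rr, Dy_rr]
        ring
  | succ i ih =>
    obtain ⟨f0, f1, f2, h0, h1, h2, h⟩ := ih
    refine ⟨fun r => 1 / 2 * (Sx r * f0 r + (Dx r * f1 r + cc r * f2 r)),
      fun r => 1 / 2 * (f0 r + Sx r * f1 r), fun r => 1 / 2 * (Sx r * f2 r), ?_, ?_, ?_, ?_⟩
    · have g0 := ((ex_Sx.mul h0).mono (by omega : 1 + 2 * (i + j) ≤ 2 * (i + 1 + j)) le_rfl)
      have g1 := ((ex_Dx.mul h1).mono (by omega : 2 + 2 * (i + j) ≤ 2 * (i + 1 + j)) le_rfl)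
      have g2 := ((ex_cc.mul h2).mono (by omega : 2 + 2 * (i + j) ≤ 2 * (i + 1 + j)) le_rfl)
      refine ((g0.add (g1.add g2)).smul (1 / 2)).mono le_rfl ?_
      rw [abs_of_pos (by norm_num : (0 : ℝ) < 1 / 2), show i + 1 + j = (i + j) + 1 by ring,
        pow_succ]
      have : (0 : ℝ) < 16 ^ (i + j) := by positivity
      nlinarith
    · have g0 := (h0.mono (by omega : 2 * (i + j) ≤ 2 * (i + 1 + j)) le_rfl)
      have g1 := ((ex_Sx.mul h1).mono (by omega : 1 + 2 * (i + j) ≤ 2 * (i + 1 + j)) le_rfl)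
      refine ((g0.add g1).smul (1 / 2)).mono le_rfl ?_
      rw [abs_of_pos (by norm_num : (0 : ℝ) < 1 / 2), show i + 1 + j = (i + j) + 1 by ring,
        pow_succ]
      have : (0 : ℝ) < 16 ^ (i + j) := by positivity
      nlinarith
    · have g2 := ((ex_Sx.mul h2).mono (by omega : 1 + 2 * (i + j) ≤ 2 * (i + 1 + j)) le_rfl)
      refine (g2.smul (1 / 2)).mono le_rfl ?_
      rw [abs_of_pos (by norm_num : (0 : ℝ) < 1 / 2), show i + 1 + j = (i + j) + 1 by ring,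
        pow_succ]
      have : (0 : ℝ) < 16 ^ (i + j) := by positivity
      nlinarith
    · intro x y
      have e : x ^ (i + 1) * y ^ j = (x ^ i * y ^ j) * x := by ring
      rw [e, h]
      push_cast
      rw [Sx_rr, cc_rr, Dx_rr]
      ring

end Run7.h498
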