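import Pool.Agent.Run7.h498.Cover
import Pool.Agent.Run7.h498.CM

set_option autoImplicit false

/-!
# Linear forms for the auxiliary polynomial
-/

namespace Run7.h498

open Filter Topology Real ComplexConjugate

/-- the squares of the distances on a plane, with a shift -/
noncomputable def rw5 (A : Fin 5 → ℝ × ℝ) (γ : Fin 5 → ℝ) (w : ℝ × ℝ) (j : Fin 5) : ℝ :=
  Real.exp (2 * dt (A j) w - 2 * γ j)

/-- the exponent of a monomial -/
def am (A : Fin 5 → ℝ × ℝ) (m : Fin 5 → ℕ) : ℝ × ℝ :=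
  (∑ j, 2 * (m j : ℝ) * (A j).1, ∑ j, 2 * (m j : ℝ) * (A j).2)

/-- the constant of a monomial -/
noncomputable def gm (γ : Fin 5 → ℝ) (m : Fin 5 → ℕ) : ℝ :=
  Real.exp (-∑ j, 2 * (m j : ℝ) * γ j)

lemma rw5_mono (A : Fin 5 → ℝ × ℝ) (γ : Fin 5 → ℝ) (w : ℝ × ℝ) (m : Fin 5 → ℕ) :
    ∏ j, rw5 A γ w j ^ m j = gm γ m * Real.exp (dt (am A m) w) := by
  simp only [rw5, gm, ← Real.exp_nat_mul]
  rw [← Real.exp_sum, ← Real.exp_add]
  congr 1
  simp only [dt, am, Finset.sum_mul, ← Finset.sum_add_distrib, ← Finset.sum_neg_distrib]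
  apply Finset.sum_congr rfl
  intro j _
  ring

lemma am_le (A : Fin 5 → ℝ × ℝ) (m : Fin 5 → ℕ) (B : ℝ) (hB : ∀ j, |(A j).1| + |(A j).2| ≤ B)
    (M : ℕ) (hM : ∑ j, m j ≤ M) : |(am A m).1| + |(am A m).2| ≤ 2 * M * B := by
  have hB0 : 0 ≤ B := le_trans (by positivity) (hB 0)
  have h1 : |(am A m).1| + |(am A m).2| ≤ ∑ j, 2 * (m j : ℝ) * B := by
    simp only [am]
    refine (add_le_add (Finset.abs_sum_le_sum_abs _ _) (Finset.abs_sum_le_sum_abs _ _)).trans ?_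
    rw [← Finset.sum_add_distrib]
    apply Finset.sum_le_sum
    intro j _
    rw [abs_mul (2 * (m j : ℝ)), abs_mul (2 * (m j : ℝ)),
      abs_of_nonneg (by positivity : 0 ≤ 2 * (m j : ℝ)), ← mul_add]
    exact mul_le_mul_of_nonneg_left (hB j) (by positivity)
  refine h1.trans ?_
  rw [← Finset.sum_mul, ← Finset.mul_sum]
  have : (∑ j, (m j : ℝ)) ≤ M := by exact_mod_cast hM
  exact mul_le_mul_of_nonneg_right (by linarith) hB0

lemma gm_le (γ : Fin 5 → ℝ) (m : Fin 5 → ℕ) (B : ℝ) (hB : ∀ j, |γ j| ≤ B)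
    (M : ℕ) (hM : ∑ j, m j ≤ M) : |gm γ m| ≤ Real.exp (2 * M * B) := by
  have hB0 : 0 ≤ B := (abs_nonneg _).trans (hB 0)
  rw [gm, Real.abs_exp]
  apply Real.exp_le_exp.mpr
  rw [← Finset.sum_neg_distrib]
  have h1 : ∑ j, -(2 * (m j : ℝ) * γ j) ≤ ∑ j, 2 * (m j : ℝ) * B := by
    apply Finset.sum_le_sum
    intro j _
    have := neg_le_abs (γ j)
    have := hB j
    have : 0 ≤ 2 * (m j : ℝ) := by positivity
    nlinarith
  refine h1.trans ?_
  rw [← Finset.sum_mul, ← Finset.mul_sum]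
  have : (∑ j, (m j : ℝ)) ≤ M := by exact_mod_cast hM
  exact mul_le_mul_of_nonneg_right (by linarith) hB0

/-- the covering for the Cayley–Menger curve -/
theorem cover_CM (𝒜 : Set (Fin 5 → ℝ × ℝ)) (h𝒜 : IsCompact 𝒜) (γ : Fin 5 → ℝ)
    (hne : ∀ A ∈ 𝒜, ∃ w, CMp (rw5 A γ w) ≠ 0) (R : ℝ) :
    ∃ (J : Type) (_ : Fintype J) (k0 : ℕ) (C1 : ℝ), 0 ≤ C1 ∧ ∀ A ∈ 𝒜,
      ∃ c : J → ℝ × ℝ → ℕ × ℕ → ℝ,
      (∀ j a, (Summable fun n => |c j a n|) ∧
        ∑' n, |c j a n| ≤ 2 * Real.exp (C1 * (|a.1| + |a.2|))) ∧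
      (∀ j a n, k0 ≤ n.2 → c j a n = 0) ∧
      ∀ w : ℝ × ℝ, |w.1| ≤ R → |w.2| ≤ R → CMp (rw5 A γ w) = 0 →
        ∃ (j : J) (u v : ℝ), |u| ≤ 1 / 2 ∧ |v| ≤ 1 ∧
          ∀ a, Real.exp (dt a w) = ∑' n, mon u v n * c j a n := by
  obtain ⟨ι, _, c, m, -, -, he⟩ := ex_CMp
  have hPhi : ∀ A w, CMp (rw5 A γ w) =
      Phi (fun i => c i * gm γ (m i)) (fun i => am A (m i)) w := by
    intro A w
    rw [he, Phi]
    apply Finset.sum_congr rfl
    intro i _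
    rw [rw5_mono]; ring
  have hcont : Continuous fun (A : Fin 5 → ℝ × ℝ) (i : ι) => am A (m i) := by
    unfold am
    fun_prop
  obtain ⟨J, hJ, k0, C1, hC1, h⟩ := cover 𝒜 h𝒜 (fun i => c i * gm γ (m i))
    (fun A i => am A (m i)) hcont (fun A hA => by
      obtain ⟨w, hw⟩ := hne A hA
      exact ⟨w, by rwa [← hPhi]⟩) R
  refine ⟨J, hJ, k0, C1, hC1, fun A hA => ?_⟩
  obtain ⟨c', h1, h2, h3⟩ := h A hA
  exact ⟨c', h1, h2, fun w hw1 hw2 hw => h3 w hw1 hw2 (by rwa [← hPhi])⟩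

/-- the tail of a power series of bounded degree in `v` -/
lemma tail (Λ : ℕ × ℕ → ℝ) (hΛ : Summable fun n => |Λ n|) (k0 T : ℕ)
    (h0 : ∀ n : ℕ × ℕ, k0 ≤ n.2 → Λ n = 0) (ε : ℝ)
    (h1 : ∀ n : ℕ × ℕ, n.1 < T → n.2 < k0 → |Λ n| ≤ ε) {u v : ℝ} (hu : |u| ≤ 1 / 2)
    (hv : |v| ≤ 1) :
    |∑' n, mon u v n * Λ n| ≤ T * k0 * ε + (1 / 2) ^ T * ∑' n, |Λ n| := by
  set B : Finset (ℕ × ℕ) := Finset.range T ×ˢ Finset.range k0 with hB
  have hu1 : |u| ≤ 1 := hu.trans (by norm_num)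
  have hpt : ∀ n, |mon u v n * Λ n| ≤ (if n ∈ B then ε else 0) + (1 / 2) ^ T * |Λ n| := by
    intro n
    have hm := mon_le hu1 hv n
    rw [abs_mul]
    by_cases hn : n ∈ B
    · rw [if_pos hn]
      rw [hB, Finset.mem_product, Finset.mem_range, Finset.mem_range] at hn
      have h2 := h1 n hn.1 hn.2
      have h3 : 0 ≤ (1 / 2 : ℝ) ^ T * |Λ n| := by positivity
      have h4 : |mon u v n| * |Λ n| ≤ 1 * |Λ n| := mul_le_mul_of_nonneg_right hm (abs_nonneg _)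
      linarith
    · rw [if_neg hn, zero_add]
      by_cases hk : k0 ≤ n.2
      · rw [h0 n hk]; simp
      · have hT : T ≤ n.1 := by
          by_contra hlt
          apply hn
          rw [hB, Finset.mem_product, Finset.mem_range, Finset.mem_range]
          exact ⟨not_le.mp hlt, not_le.mp hk⟩
        apply mul_le_mul_of_nonneg_right _ (abs_nonneg _)
        rw [mon, abs_mul, abs_pow, abs_pow]
        have h2 : |u| ^ n.1 ≤ (1 / 2) ^ T := by
          calc |u| ^ n.1 ≤ (1 / 2) ^ n.1 := pow_le_pow_left₀ (abs_nonneg _) hu _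
            _ ≤ (1 / 2) ^ T := pow_le_pow_of_le_one (by norm_num) (by norm_num) hT
        have h3 : |v| ^ n.2 ≤ 1 := pow_le_one₀ (abs_nonneg _) hv
        calc |u| ^ n.1 * |v| ^ n.2 ≤ (1 / 2) ^ T * 1 :=
              mul_le_mul h2 h3 (by positivity) (by positivity)
          _ = _ := mul_one _
  have hs1 : Summable fun n : ℕ × ℕ => (if n ∈ B then ε else 0) :=
    summable_of_ne_finset_zero (s := B) fun n hn => by rw [if_neg hn]
  have hs : Summable fun n : ℕ × ℕ => (if n ∈ B then ε else 0) + (1 / 2) ^ T * |Λ n| :=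
    hs1.add (hΛ.mul_left _)
  have hs2 : Summable fun n => |mon u v n * Λ n| :=
    Summable.of_nonneg_of_le (fun n => abs_nonneg _) hpt hs
  have h2 := norm_tsum_le_tsum_norm (f := fun n => mon u v n * Λ n) (by simpa using hs2)
  simp only [Real.norm_eq_abs] at h2
  refine h2.trans ((Summable.tsum_le_tsum hpt hs2 hs).trans (le_of_eq ?_))
  rw [hs1.tsum_add (hΛ.mul_left _), tsum_mul_left]
  congr 1
  rw [tsum_eq_sum (s := B) (fun n hn => by rw [if_neg hn]), Finset.sum_ite_mem,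
    Finset.inter_self, Finset.sum_const, hB, Finset.card_product, Finset.card_range,
    Finset.card_range, nsmul_eq_mul]
  push_cast
  ring

/-- the three functions -/
noncomputable def Ds (x y : ℂ) : Fin 3 → ℂ := ![1, x - conj x, y - conj y]

/-- the monomials, with the terms -/
theorem powers' (i j : ℕ) : ∃ f : Fin 3 → ((Fin 5 → ℝ) → ℝ),
    (∀ s, Ex (2 * (i + j)) (16 ^ (i + j)) (f s)) ∧
    ∀ x y : ℂ, x ^ i * y ^ j = ∑ s, (f s (rr x y) : ℂ) * Ds x y s := by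
  obtain ⟨f0, f1, f2, h0, h1, h2, h⟩ := powers i j
  refine ⟨![f0, f1, f2], fun s => ?_, fun x y => ?_⟩
  · fin_cases s
    · exact h0
    · exact h1
    · exact h2
  · rw [h, Fin.sum_univ_three]
    simp [Ds]

end Run7.h498
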