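import Pool.Agent.Run7.h498.Aux1
import Pool.Agent.Y740.Siegel

set_option autoImplicit false

/-!
# The auxiliary polynomial, for a fixed degree
-/

namespace Run7.h498

open Filter Topology Real ComplexConjugate

/-- The linear forms of a monomial. -/
theorem forms {G : Type} (γ : G → Fin 5 → ℝ) (GA : ℝ) (hGA : ∀ g j, |γ g j| ≤ GA)
    (A : Fin 5 → ℝ × ℝ) (BA : ℝ) (hBA : ∀ j, |(A j).1| + |(A j).2| ≤ BA)
    {J : G → Type} (k0 : ℕ) (C1 : ℝ) (hC1 : 0 ≤ C1)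
    (c : ∀ g, J g → ℝ × ℝ → ℕ × ℕ → ℝ)
    (hc1 : ∀ g j a, (Summable fun n => |c g j a n|) ∧
        ∑' n, |c g j a n| ≤ 2 * Real.exp (C1 * (|a.1| + |a.2|)))
    (hc2 : ∀ g j a n, k0 ≤ n.2 → c g j a n = 0) (M : ℕ) (Q : ℝ)
    (f : (Fin 5 → ℝ) → ℝ) (hf : Ex M Q f) :
    ∃ L : (Σ g, J g) → ℕ × ℕ → ℝ,
      (∀ x, (Summable fun n => |L x n|) ∧
        ∑' n, |L x n| ≤ Q * Real.exp (2 * M * GA) * (2 * Real.exp (C1 * (2 * M * BA)))) ∧
      (∀ x n, k0 ≤ n.2 → L x n = 0) ∧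
      ∀ (x : Σ g, J g) (w : ℝ × ℝ) (u v : ℝ),
        (∀ a, Real.exp (dt a w) = ∑' n, mon u v n * c x.1 x.2 a n) → |u| ≤ 1 → |v| ≤ 1 →
        f (rw5 A (γ x.1) w) = ∑' n, mon u v n * L x n := by
  have hQ := hf.nonneg
  obtain ⟨ι, _, b, m, hm, hb, he⟩ := hf
  refine ⟨fun x n => ∑ τ, b τ * gm (γ x.1) (m τ) * c x.1 x.2 (am A (m τ)) n, ?_, ?_, ?_⟩
  · intro x
    have hpt : ∀ n, |∑ τ, b τ * gm (γ x.1) (m τ) * c x.1 x.2 (am A (m τ)) n| ≤
        ∑ τ, |b τ| * Real.exp (2 * M * GA) * |c x.1 x.2 (am A (m τ)) n| := by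
      intro n
      refine (Finset.abs_sum_le_sum_abs _ _).trans (Finset.sum_le_sum fun τ _ => ?_)
      rw [abs_mul, abs_mul]
      apply mul_le_mul_of_nonneg_right _ (abs_nonneg _)
      exact mul_le_mul_of_nonneg_left (gm_le _ _ GA (hGA _) M (hm τ)) (abs_nonneg _)
    have hs : Summable fun n => ∑ τ, |b τ| * Real.exp (2 * M * GA) *
        |c x.1 x.2 (am A (m τ)) n| :=
      summable_sum fun τ _ => (hc1 x.1 x.2 _).1.mul_left _
    have hs' := Summable.of_nonneg_of_le (fun n => abs_nonneg _) hpt hs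
    refine ⟨hs', (Summable.tsum_le_tsum hpt hs' hs).trans ?_⟩
    rw [Summable.tsum_finsetSum fun τ _ => (hc1 x.1 x.2 _).1.mul_left _]
    simp only [tsum_mul_left]
    have h2 : ∀ τ, ∑' n, |c x.1 x.2 (am A (m τ)) n| ≤ 2 * Real.exp (C1 * (2 * M * BA)) := by
      intro τ
      refine (hc1 x.1 x.2 _).2.trans ?_
      apply mul_le_mul_of_nonneg_left _ (by norm_num)
      apply Real.exp_le_exp.mpr
      exact mul_le_mul_of_nonneg_left (am_le A (m τ) BA hBA M (hm τ)) hC1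
    calc ∑ τ, |b τ| * Real.exp (2 * M * GA) * ∑' n, |c x.1 x.2 (am A (m τ)) n|
        ≤ ∑ τ, |b τ| * Real.exp (2 * M * GA) * (2 * Real.exp (C1 * (2 * M * BA))) :=
          Finset.sum_le_sum fun τ _ => mul_le_mul_of_nonneg_left (h2 τ) (by positivity)
      _ = (∑ τ, |b τ|) * Real.exp (2 * M * GA) * (2 * Real.exp (C1 * (2 * M * BA))) := by
          rw [Finset.sum_mul, Finset.sum_mul]
      _ ≤ _ := by
          apply mul_le_mul_of_nonneg_right _ (by positivity)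
          exact mul_le_mul_of_nonneg_right hb (by positivity)
  · intro x n hn
    apply Finset.sum_eq_zero
    intro τ _
    rw [hc2 _ _ _ _ hn, mul_zero]
  · intro x w u v hw hu hv
    have hms : ∀ h : ℕ × ℕ → ℝ, Summable (fun n => |h n|) →
        Summable (fun n => mon u v n * h n) := by
      intro h hh
      apply Summable.of_norm_bounded hh
      intro n
      rw [Real.norm_eq_abs, abs_mul]
      exact mul_le_of_le_one_left (abs_nonneg _) (mon_le hu hv n)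
    rw [he]
    have e1 : ∀ τ, b τ * ∏ j, rw5 A (γ x.1) w j ^ m τ j =
        ∑' n, b τ * gm (γ x.1) (m τ) * (mon u v n * c x.1 x.2 (am A (m τ)) n) := by
      intro τ
      rw [rw5_mono, hw, tsum_mul_left]; ring
    simp only [e1]
    rw [← Summable.tsum_finsetSum fun τ _ => (hms _ (hc1 x.1 x.2 _).1).mul_left _]
    apply tsum_congr
    intro n
    rw [Finset.mul_sum]
    apply Finset.sum_congr rfl
    intro τ _
    ring

/-- The auxiliary polynomial, for a fixed degree. -/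
theorem aux_fixed {G : Type} [Fintype G] (γ : G → Fin 5 → ℝ) (GA : ℝ) (hGA : ∀ g j, |γ g j| ≤ GA)
    (A : Fin 5 → ℝ × ℝ) (BA : ℝ) (hBA : ∀ j, |(A j).1| + |(A j).2| ≤ BA)
    (J : G → Type) [∀ g, Fintype (J g)] (k0 : ℕ) (C1 : ℝ) (hC1 : 0 ≤ C1)
    (c : ∀ g, J g → ℝ × ℝ → ℕ × ℕ → ℝ)
    (hc1 : ∀ g j a, (Summable fun n => |c g j a n|) ∧
        ∑' n, |c g j a n| ≤ 2 * Real.exp (C1 * (|a.1| + |a.2|)))
    (hc2 : ∀ g j a n, k0 ≤ n.2 → c g j a n = 0) (N T T' X n1 : ℕ) (hT' : 0 < T')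
    (A0 : ℝ) (hA0 : 16 ^ (2 * N) * Real.exp (2 * (4 * N : ℕ) * GA) *
      (2 * Real.exp (C1 * (2 * (4 * N : ℕ) * BA))) ≤ A0)
    (hn1 : Fintype.card (Σ g, J g) ≤ n1)
    (hcard : 4 * (1 + n1 * (3 * (T * k0))) ≤ (N + 1) ^ 2)
    (hX : (((N + 1) ^ 2 : ℕ) * (T' * A0 + 1)) ^
      (4 * ((1 + n1 * (3 * (T * k0)) : ℕ) : ℝ) / ((N + 1) ^ 2 : ℕ)) ≤ (X : ℝ)) :
    ∃ a : Fin (N + 1) × Fin (N + 1) → ℤ, a ≠ 0 ∧ (∀ i, |(a i : ℝ)| ≤ X) ∧
      ∀ (g : G) (w : ℝ × ℝ) (x y : ℂ), rr x y = rw5 A (γ g) w →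
        (∃ (j : J g) (u v : ℝ), |u| ≤ 1 / 2 ∧ |v| ≤ 1 ∧
          ∀ a, Real.exp (dt a w) = ∑' n, mon u v n * c g j a n) →
        ‖∑ i, (a i : ℂ) * (x ^ (i.1 : ℕ) * y ^ (i.2 : ℕ))‖ ≤
          (∑ s, ‖Ds x y s‖) * (T * k0 * (2 * ((N + 1) ^ 2 : ℕ) * X / T') +
            (1 / 2) ^ T * (((N + 1) ^ 2 : ℕ) * X * A0)) := by
  classical
  have hBA0 : 0 ≤ BA := le_trans (by positivity) (hBA 0)
  have hA0pos : 0 < A0 := lt_of_lt_of_le (by positivity) hA0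
  -- the forms
  have hforms : ∀ (i : Fin (N + 1) × Fin (N + 1)), ∃ L : Fin 3 → (Σ g, J g) → ℕ × ℕ → ℝ,
      (∀ s x, (Summable fun n => |L s x n|) ∧ ∑' n, |L s x n| ≤ A0) ∧
      (∀ s x n, k0 ≤ n.2 → L s x n = 0) ∧
      ∀ (z : Σ g, J g) (w : ℝ × ℝ) (u v : ℝ) (x y : ℂ),
        (∀ a, Real.exp (dt a w) = ∑' n, mon u v n * c z.1 z.2 a n) → |u| ≤ 1 → |v| ≤ 1 →
        rr x y = rw5 A (γ z.1) w → x ^ (i.1 : ℕ) * y ^ (i.2 : ℕ) =
          ∑ s, ((∑' n, mon u v n * L s z n : ℝ) : ℂ) * Ds x y s := by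
    intro i
    obtain ⟨f, hf, hxy⟩ := powers' i.1 i.2
    have hi : (i.1 : ℕ) + i.2 ≤ 2 * N := by
      have := i.1.2; have := i.2.2; omega
    have hf' : ∀ s, Ex (4 * N) (16 ^ (2 * N)) (f s) := fun s =>
      (hf s).mono (by omega) (pow_le_pow_right₀ (by norm_num) hi)
    choose L hL1 hL2 hL3 using fun s => forms γ GA hGA A BA hBA k0 C1 hC1 c hc1 hc2
      (4 * N) (16 ^ (2 * N)) (f s) (hf' s)
    refine ⟨L, fun s x => ⟨(hL1 s x).1, (hL1 s x).2.trans hA0⟩, hL2, ?_⟩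
    intro z w u v x y hw hu hv hr
    rw [hxy]
    apply Finset.sum_congr rfl
    intro s _
    rw [hr, hL3 s z w u v hw hu hv]
  choose L hL1 hL2 hL3 using hforms
  -- Siegel's lemma
  set Rw := Option ((Σ g, J g) × (Fin 3 × (Fin T × Fin k0))) with hRw
  have hcR : Fintype.card Rw ≤ 1 + n1 * (3 * (T * k0)) := by
    show Fintype.card (Option ((Σ g, J g) × (Fin 3 × (Fin T × Fin k0)))) ≤ _
    rw [Fintype.card_option, Fintype.card_prod, Fintype.card_prod, Fintype.card_prod,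
      Fintype.card_fin, Fintype.card_fin, Fintype.card_fin]
    have := Nat.mul_le_mul_right (3 * (T * k0)) hn1
    omega
  have hcI : Fintype.card (Fin (N + 1) × Fin (N + 1)) = (N + 1) ^ 2 := by
    rw [Fintype.card_prod, Fintype.card_fin]; ring
  set F : Rw → (Fin (N + 1) × Fin (N + 1)) → ℂ := fun r i =>
    match r with
    | none => 0
    | some (z, s, p, q) => ((L i s z ((p : ℕ), (q : ℕ)) : ℝ) : ℂ) with hF
  have hLle : ∀ i s z n, |L i s z n| ≤ A0 := by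
    intro i s z n
    exact ((hL1 i s z).1.le_tsum n fun _ _ => abs_nonneg _).trans (hL1 i s z).2
  have hFb : ∀ r i, ‖F r i‖ ≤ A0 := by
    intro r i
    rcases r with _ | ⟨z, s, p, q⟩
    · simp only [hF, norm_zero]; exact hA0pos.le
    · simp only [hF, Complex.norm_real, Real.norm_eq_abs]
      exact hLle _ _ _ _
  have hX' : ((Fintype.card (Fin (N + 1) × Fin (N + 1)) : ℝ) * max 1 (T' * A0 + 1)) ^
      (((2 * Fintype.card Rw : ℕ) : ℝ) / ((Fintype.card (Fin (N + 1) × Fin (N + 1)) : ℝ) -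
        ((2 * Fintype.card Rw : ℕ) : ℝ))) ≤ X := by
    rw [hcI]
    refine le_trans ?_ hX
    have hm : max 1 ((T' : ℝ) * A0 + 1) = T' * A0 + 1 := max_eq_right (by
      have : 0 ≤ (T' : ℝ) * A0 := by positivity
      linarith)
    rw [hm]
    have hcI1 : (1 : ℝ) ≤ ((N + 1) ^ 2 : ℕ) := by
      have : 1 ≤ (N + 1) ^ 2 := Nat.one_le_pow _ _ (Nat.succ_pos N)
      exact_mod_cast this
    apply Real.rpow_le_rpow_of_exponent_le
    · have : 0 ≤ (T' : ℝ) * A0 := by positivity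
      nlinarith
    · have h1 : ((2 * Fintype.card Rw : ℕ) : ℝ) ≤ 2 * ((1 + n1 * (3 * (T * k0)) : ℕ) : ℝ) := by
        have : 2 * Fintype.card Rw ≤ 2 * (1 + n1 * (3 * (T * k0))) := by omega
        exact_mod_cast this
      have h2 : 4 * ((1 + n1 * (3 * (T * k0)) : ℕ) : ℝ) ≤ ((N + 1) ^ 2 : ℕ) := by
        exact_mod_cast hcard
      have h3 : (((N + 1) ^ 2 : ℕ) : ℝ) / 2 ≤ ((N + 1) ^ 2 : ℕ) - ((2 * Fintype.card Rw : ℕ) : ℝ) := by
        linarith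
      have h4 : 4 * ((1 + n1 * (3 * (T * k0)) : ℕ) : ℝ) / ((N + 1) ^ 2 : ℕ) =
          2 * ((1 + n1 * (3 * (T * k0)) : ℕ) : ℝ) / ((((N + 1) ^ 2 : ℕ) : ℝ) / 2) := by
        field_simp; ring
      rw [h4]
      apply div_le_div₀ (by positivity) h1 (by positivity) h3
  obtain ⟨a, ha0, haX, ha⟩ := Pool.Agent.Y740.siegel_approx F A0 T' X hFb hT' (by
    rw [hcI]
    have : 0 < (N + 1) ^ 2 := by positivity
    omega) hX'
  rw [hcI] at ha
  refine ⟨a, ha0, haX, ?_⟩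
  rintro g w x y hr ⟨j, u, v, hu, hv, hexp⟩
  have hu1 : |u| ≤ 1 := hu.trans (by norm_num)
  set z : Σ g, J g := ⟨g, j⟩ with hz
  have hms : ∀ h : ℕ × ℕ → ℝ, Summable (fun n => |h n|) →
      Summable (fun n => mon u v n * h n) := by
    intro h hh
    apply Summable.of_norm_bounded hh
    intro n
    rw [Real.norm_eq_abs, abs_mul]
    exact mul_le_of_le_one_left (abs_nonneg _) (mon_le hu1 hv n)
  set Λ : Fin 3 → ℕ × ℕ → ℝ := fun s n => ∑ i, (a i : ℝ) * L i s z n with hΛ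
  have hΛpt : ∀ s n, |Λ s n| ≤ ∑ i, (X : ℝ) * |L i s z n| := by
    intro s n
    rw [hΛ]; dsimp only
    refine (Finset.abs_sum_le_sum_abs _ _).trans (Finset.sum_le_sum fun i _ => ?_)
    rw [abs_mul]
    exact mul_le_mul_of_nonneg_right (haX i) (abs_nonneg _)
  have hs0 : ∀ s, Summable fun n => ∑ i, (X : ℝ) * |L i s z n| := fun s =>
    summable_sum fun i _ => (hL1 i s z).1.mul_left _
  have hΛs : ∀ s, Summable fun n => |Λ s n| := fun s =>
    Summable.of_nonneg_of_le (fun n => abs_nonneg _) (hΛpt s) (hs0 s)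
  have hΛsum : ∀ s, ∑' n, |Λ s n| ≤ ((N + 1) ^ 2 : ℕ) * X * A0 := by
    intro s
    refine (Summable.tsum_le_tsum (hΛpt s) (hΛs s) (hs0 s)).trans ?_
    rw [Summable.tsum_finsetSum fun i _ => (hL1 i s z).1.mul_left _]
    simp only [tsum_mul_left]
    calc ∑ i, (X : ℝ) * ∑' n, |L i s z n| ≤ ∑ _i : Fin (N + 1) × Fin (N + 1), (X : ℝ) * A0 :=
          Finset.sum_le_sum fun i _ => mul_le_mul_of_nonneg_left (hL1 i s z).2 (Nat.cast_nonneg _)
      _ = _ := by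
          rw [Finset.sum_const, Finset.card_univ, hcI, nsmul_eq_mul]; ring
  have hΛ0 : ∀ s (n : ℕ × ℕ), k0 ≤ n.2 → Λ s n = 0 := by
    intro s n hn
    apply Finset.sum_eq_zero
    intro i _
    rw [hL2 i s z n hn, mul_zero]
  have hΛε : ∀ s (n : ℕ × ℕ), n.1 < T → n.2 < k0 → |Λ s n| ≤ 2 * ((N + 1) ^ 2 : ℕ) * X / T' := by
    intro s n h1 h2
    have h3 := ha (some (z, s, ⟨n.1, h1⟩, ⟨n.2, h2⟩))
    have h4 : ∑ i, (a i : ℂ) * F (some (z, s, ⟨n.1, h1⟩, ⟨n.2, h2⟩)) i = ((Λ s n : ℝ) : ℂ) := by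
      rw [hΛ]; push_cast
      rfl
    rw [h4, Complex.norm_real, Real.norm_eq_abs] at h3
    exact h3
  have htail := fun s => tail (Λ s) (hΛs s) k0 T (hΛ0 s) _ (hΛε s) hu hv
  -- the polynomial
  have hFeq : ∑ i, (a i : ℂ) * (x ^ (i.1 : ℕ) * y ^ (i.2 : ℕ)) =
      ∑ s, ((∑' n, mon u v n * Λ s n : ℝ) : ℂ) * Ds x y s := by
    have h1 : ∀ i : Fin (N + 1) × Fin (N + 1), x ^ (i.1 : ℕ) * y ^ (i.2 : ℕ) =
        ∑ s, ((∑' n, mon u v n * L i s z n : ℝ) : ℂ) * Ds x y s := fun i =>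
      hL3 i z w u v x y hexp hu1 hv hr
    simp only [h1, Finset.mul_sum]
    rw [Finset.sum_comm]
    apply Finset.sum_congr rfl
    intro s _
    have h2 : (∑' n, mon u v n * Λ s n) = ∑ i, (a i : ℝ) * ∑' n, mon u v n * L i s z n := by
      simp only [← tsum_mul_left]
      rw [← Summable.tsum_finsetSum fun i _ => (hms _ (hL1 i s z).1).mul_left _]
      apply tsum_congr
      intro n
      rw [hΛ]; dsimp only
      rw [Finset.mul_sum]
      exact Finset.sum_congr rfl fun i _ => by ring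
    rw [h2]
    push_cast
    rw [Finset.sum_mul]
    exact Finset.sum_congr rfl fun i _ => by ring
  rw [hFeq, Finset.sum_mul]
  refine (norm_sum_le _ _).trans (Finset.sum_le_sum fun s _ => ?_)
  rw [norm_mul, Complex.norm_real, Real.norm_eq_abs, mul_comm]
  apply mul_le_mul_of_nonneg_left _ (norm_nonneg _)
  refine (htail s).trans ?_
  have h5 : (1 / 2 : ℝ) ^ T * ∑' n, |Λ s n| ≤ (1 / 2) ^ T * (((N + 1) ^ 2 : ℕ) * X * A0) :=
    mul_le_mul_of_nonneg_left (hΛsum s) (by positivity)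
  linarith

end Run7.h498
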