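import Pool.Agent.Run7.h498.Aux2

set_option autoImplicit false

/-!
# The auxiliary polynomial
-/

namespace Run7.h498

open Filter Topology Real ComplexConjugate

lemma ev_exp (C : ℝ) : ∀ᶠ N : ℕ in atTop, C * ((N : ℝ) + 1) ^ 3 ≤ Real.exp N := by
  have h1 : Tendsto (fun x : ℝ => x ^ 3 * Real.exp (-x)) atTop (nhds 0) :=
    tendsto_pow_mul_exp_neg_atTop_nhds_zero 3
  have h2 : Tendsto (fun N : ℕ => (N : ℝ) + 1) atTop atTop :=
    tendsto_atTop_add_const_right _ _ tendsto_natCast_atTop_atTop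
  have h3 := h1.comp h2
  have h4 : ∀ᶠ N : ℕ in atTop, ((N : ℝ) + 1) ^ 3 * Real.exp (-((N : ℝ) + 1)) <
      1 / ((|C| + 1) * Real.exp 1) :=
    h3.eventually (gt_mem_nhds (by positivity))
  filter_upwards [h4] with N hN
  have h5 : Real.exp (-((N : ℝ) + 1)) = 1 / (Real.exp N * Real.exp 1) := by
    rw [Real.exp_neg, Real.exp_add, one_div]
  rw [h5, mul_one_div, div_lt_div_iff₀ (by positivity) (by positivity), one_mul] at hN
  have h6 : ((N : ℝ) + 1) ^ 3 * (|C| + 1) < Real.exp N := by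
    have h7 : 0 < Real.exp 1 := Real.exp_pos 1
    nlinarith
  have h7 : C ≤ |C| := le_abs_self C
  have h8 : (0 : ℝ) ≤ ((N : ℝ) + 1) ^ 3 := by positivity
  nlinarith

lemma Ds_le {A : Fin 5 → ℝ × ℝ} {γ : Fin 5 → ℝ} {w : ℝ × ℝ} {x y : ℂ} {E : ℝ}
    (hr : rr x y = rw5 A γ w) (hE : ∀ j, 2 * dt (A j) w - 2 * γ j ≤ E) :
    ∑ s, ‖Ds x y s‖ ≤ 5 + 4 * Real.exp E := by
  have h0 : Complex.normSq x ≤ Real.exp E := by
    have h := congrFun hr 0
    have e : rr x y 0 = Complex.normSq x := rfl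
    rw [← e, h]
    exact Real.exp_le_exp.mpr (hE 0)
  have h2 : Complex.normSq y ≤ Real.exp E := by
    have h := congrFun hr 2
    have e : rr x y 2 = Complex.normSq y := rfl
    rw [← e, h]
    exact Real.exp_le_exp.mpr (hE 2)
  have key : ∀ z : ℂ, Complex.normSq z ≤ Real.exp E → ‖z - conj z‖ ≤ 2 + 2 * Real.exp E := by
    intro z hz
    have h3 : ‖z - conj z‖ ≤ ‖z‖ + ‖conj z‖ := norm_sub_le _ _
    rw [RCLike.norm_conj] at h3
    have h4 : ‖z‖ ^ 2 = Complex.normSq z := (Complex.normSq_eq_norm_sq z).symm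
    nlinarith [sq_nonneg (‖z‖ - 1)]
  rw [Fin.sum_univ_three]
  have e0 : Ds x y 0 = 1 := rfl
  have e1 : Ds x y 1 = x - conj x := rfl
  have e2 : Ds x y 2 = y - conj y := rfl
  rw [e0, e1, e2, norm_one]
  have := key x h0
  have := key y h2
  linarith

/-- the auxiliary polynomial -/
theorem auxM {G : Type} [Fintype G] (γ : G → Fin 5 → ℝ) (𝒜 : Set (Fin 5 → ℝ × ℝ))
    (h𝒜 : IsCompact 𝒜) (hne : ∀ g, ∀ A ∈ 𝒜, ∃ w, CMp (rw5 A (γ g) w) ≠ 0) (R κ : ℝ)
    (hκ : 0 ≤ κ) :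
    ∃ X : ℕ, ∀ᶠ N : ℕ in atTop, ∀ A ∈ 𝒜, ∃ a : Fin (N + 1) × Fin (N + 1) → ℤ, a ≠ 0 ∧
      (∀ i, |(a i : ℝ)| ≤ X) ∧ ∀ (g : G) (w : ℝ × ℝ) (x y : ℂ), |w.1| ≤ R → |w.2| ≤ R →
        rr x y = rw5 A (γ g) w →
        ‖∑ i, (a i : ℂ) * (x ^ (i.1 : ℕ) * y ^ (i.2 : ℕ))‖ ≤ Real.exp (-κ * N) := by
  classical
  choose J hJ k0 C1 hC1 hcov using fun g => cover_CM 𝒜 h𝒜 (γ g) (hne g) R
  -- the constants
  obtain ⟨BA, hBA⟩ : ∃ BA : ℝ, ∀ A ∈ 𝒜, ∀ j, |(A j).1| + |(A j).2| ≤ BA := by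
    have hc : Continuous fun A : Fin 5 → ℝ × ℝ => ∑ j, (|(A j).1| + |(A j).2|) := by fun_prop
    obtain ⟨B, hB⟩ := (h𝒜.image hc).bddAbove
    refine ⟨B, fun A hA j => ?_⟩
    refine le_trans ?_ (hB ⟨A, hA, rfl⟩)
    exact Finset.single_le_sum (f := fun j => |(A j).1| + |(A j).2|)
      (fun j _ => by positivity) (Finset.mem_univ j)
  set BA' : ℝ := |BA| with hBA'
  have hBA2 : ∀ A ∈ 𝒜, ∀ j, |(A j).1| + |(A j).2| ≤ BA' := fun A hA j =>
    (hBA A hA j).trans (le_abs_self _)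
  have hBA0 : 0 ≤ BA' := abs_nonneg _
  set GA : ℝ := ∑ g, ∑ j, |γ g j| with hGA
  have hGA1 : ∀ g j, |γ g j| ≤ GA := fun g j =>
    (Finset.single_le_sum (f := fun j => |γ g j|) (fun _ _ => abs_nonneg _)
      (Finset.mem_univ j)).trans (Finset.single_le_sum (f := fun g => ∑ j, |γ g j|)
      (fun _ _ => Finset.sum_nonneg fun _ _ => abs_nonneg _) (Finset.mem_univ g))
  have hGA0 : 0 ≤ GA := Finset.sum_nonneg fun _ _ => Finset.sum_nonneg fun _ _ => abs_nonneg _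
  set K0 : ℕ := ∑ g, k0 g with hK0
  have hK0' : ∀ g, k0 g ≤ K0 := fun g =>
    Finset.single_le_sum (f := k0) (fun _ _ => Nat.zero_le _) (Finset.mem_univ g)
  set C : ℝ := ∑ g, C1 g with hC
  have hC' : ∀ g, C1 g ≤ C := fun g =>
    Finset.single_le_sum (f := C1) (fun g _ => hC1 g) (Finset.mem_univ g)
  have hC0 : 0 ≤ C := Finset.sum_nonneg fun g _ => hC1 g
  set C3 : ℝ := 2 * Real.log 16 + 8 * GA + 8 * C * BA' with hC3
  have hlog16 : 0 ≤ Real.log 16 := Real.log_nonneg (by norm_num)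
  have hC30 : 0 ≤ C3 := by positivity
  set ω : ℝ := κ + 3 with hω
  have hω0 : 0 ≤ ω := by positivity
  set τ : ℕ := ⌈2 * (C3 + ω)⌉₊ with hτ
  have hτ' : 2 * (C3 + ω) ≤ τ := Nat.le_ceil _
  set n1 : ℕ := Fintype.card (Σ g, J g) with hn1
  set m1 : ℕ := 1 + n1 * (3 * (τ * K0)) with hm1
  set C4 : ℝ := ω + C3 + 1 with hC4
  have hC40 : 0 ≤ C4 := by positivity
  set X : ℕ := ⌈Real.exp (4 * C4 * m1)⌉₊ with hX
  set DE : ℝ := 5 + 4 * Real.exp (4 * |R| * BA' + 2 * GA) with hDE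
  have hDE0 : 0 ≤ DE := by positivity
  refine ⟨X, ?_⟩
  filter_upwards [ev_exp 5, ev_exp (DE * X * 2 * (τ * K0 + 1)), eventually_ge_atTop (4 * m1)]
    with N hN1 hN2 hN3 A hA
  have hN3' : (4 * m1 : ℝ) ≤ N := by exact_mod_cast hN3
  set A0 : ℝ := 2 * Real.exp (C3 * N) with hA0
  have hA0eq : 16 ^ (2 * N) * Real.exp (2 * (4 * N : ℕ) * GA) *
      (2 * Real.exp (C * (2 * (4 * N : ℕ) * BA'))) ≤ A0 := by
    have h1 : (16 : ℝ) ^ (2 * N) = Real.exp (2 * N * Real.log 16) := by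
      rw [← Real.exp_log (by norm_num : (0 : ℝ) < 16), ← Real.exp_nat_mul, Real.log_exp]
      push_cast
      ring_nf
    rw [h1, hA0, mul_left_comm, ← Real.exp_add, ← Real.exp_add]
    apply le_of_eq
    congr 2
    push_cast
    rw [hC3]
    ring
  set T : ℕ := τ * N with hT
  set T' : ℕ := ⌈Real.exp (ω * N)⌉₊ with hT'
  have hT'pos : 0 < T' := Nat.ceil_pos.mpr (Real.exp_pos _)
  have hT'ge : Real.exp (ω * N) ≤ T' := Nat.le_ceil _
  have hT'le : (T' : ℝ) ≤ 2 * Real.exp (ω * N) := by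
    have h1 : (T' : ℝ) < Real.exp (ω * N) + 1 := Nat.ceil_lt_add_one (Real.exp_pos _).le
    have h2 : 1 ≤ Real.exp (ω * N) := Real.one_le_exp (by positivity)
    linarith
  have hrow : 1 + n1 * (3 * (T * K0)) ≤ m1 * (N + 1) := by
    have e : m1 * (N + 1) = 1 + n1 * (3 * (T * K0)) + (N + n1 * (3 * (τ * K0))) := by
      rw [hm1, hT]; ring
    omega
  have hcard : 4 * (1 + n1 * (3 * (T * K0))) ≤ (N + 1) ^ 2 := by
    calc 4 * (1 + n1 * (3 * (T * K0))) ≤ 4 * (m1 * (N + 1)) := Nat.mul_le_mul_left 4 hrow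
      _ = (4 * m1) * (N + 1) := by ring
      _ ≤ (N + 1) * (N + 1) := Nat.mul_le_mul_right _ (by omega)
      _ = _ := by ring
  have hNr : (0 : ℝ) ≤ N := Nat.cast_nonneg N
  have hXle : (((N + 1) ^ 2 : ℕ) * (T' * A0 + 1)) ^
      (4 * ((1 + n1 * (3 * (T * K0)) : ℕ) : ℝ) / ((N + 1) ^ 2 : ℕ)) ≤ (X : ℝ) := by
    have hbase : (((N + 1) ^ 2 : ℕ) : ℝ) * (T' * A0 + 1) ≤ Real.exp (C4 * N) := by
      have h1 : (T' : ℝ) * A0 ≤ 4 * Real.exp ((ω + C3) * N) := by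
        calc (T' : ℝ) * A0 ≤ 2 * Real.exp (ω * N) * (2 * Real.exp (C3 * N)) :=
              mul_le_mul_of_nonneg_right hT'le (by positivity)
          _ = 4 * (Real.exp (ω * N) * Real.exp (C3 * N)) := by ring
          _ = 4 * Real.exp ((ω + C3) * N) := by
              rw [← Real.exp_add]
              congr 2
              ring
      have h2 : 1 ≤ Real.exp ((ω + C3) * N) := Real.one_le_exp (by positivity)
      have h3 : (((N + 1) ^ 2 : ℕ) : ℝ) * 5 ≤ Real.exp N := by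
        refine le_trans ?_ hN1
        push_cast
        have : ((N : ℝ) + 1) ^ 2 ≤ ((N : ℝ) + 1) ^ 3 :=
          pow_le_pow_right₀ (by linarith) (by norm_num)
        linarith
      calc (((N + 1) ^ 2 : ℕ) : ℝ) * (T' * A0 + 1)
          ≤ ((N + 1) ^ 2 : ℕ) * (5 * Real.exp ((ω + C3) * N)) := by
            apply mul_le_mul_of_nonneg_left _ (Nat.cast_nonneg _)
            linarith
        _ = (((N + 1) ^ 2 : ℕ) * 5) * Real.exp ((ω + C3) * N) := by ring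
        _ ≤ Real.exp N * Real.exp ((ω + C3) * N) :=
            mul_le_mul_of_nonneg_right h3 (Real.exp_pos _).le
        _ = Real.exp (C4 * N) := by
            rw [← Real.exp_add, hC4]; congr 1; ring
    have hbase1 : (0 : ℝ) ≤ ((N + 1) ^ 2 : ℕ) * (T' * A0 + 1) := by positivity
    have hexp : 4 * ((1 + n1 * (3 * (T * K0)) : ℕ) : ℝ) / ((N + 1) ^ 2 : ℕ) ≤
        4 * m1 / ((N : ℝ) + 1) := by
      have h1 : ((1 + n1 * (3 * (T * K0)) : ℕ) : ℝ) ≤ m1 * ((N : ℝ) + 1) := by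
        exact_mod_cast hrow
      have h2 : (((N + 1) ^ 2 : ℕ) : ℝ) = ((N : ℝ) + 1) ^ 2 := by push_cast; ring
      rw [h2, div_le_div_iff₀ (by positivity) (by positivity)]
      have h3 : (0 : ℝ) ≤ (N : ℝ) + 1 := by positivity
      nlinarith [mul_le_mul_of_nonneg_right h1 h3]
    have hexp0 : 0 ≤ 4 * ((1 + n1 * (3 * (T * K0)) : ℕ) : ℝ) / ((N + 1) ^ 2 : ℕ) := by positivity
    calc (((N + 1) ^ 2 : ℕ) * (T' * A0 + 1)) ^
          (4 * ((1 + n1 * (3 * (T * K0)) : ℕ) : ℝ) / ((N + 1) ^ 2 : ℕ))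
        ≤ (Real.exp (C4 * N)) ^
          (4 * ((1 + n1 * (3 * (T * K0)) : ℕ) : ℝ) / ((N + 1) ^ 2 : ℕ)) :=
          Real.rpow_le_rpow hbase1 hbase hexp0
      _ = Real.exp (C4 * N * (4 * ((1 + n1 * (3 * (T * K0)) : ℕ) : ℝ) / ((N + 1) ^ 2 : ℕ))) := by
          rw [← Real.exp_mul]
      _ ≤ Real.exp (4 * C4 * m1) := by
          apply Real.exp_le_exp.mpr
          calc C4 * N * (4 * ((1 + n1 * (3 * (T * K0)) : ℕ) : ℝ) / ((N + 1) ^ 2 : ℕ))
              ≤ C4 * N * (4 * m1 / ((N : ℝ) + 1)) :=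
                mul_le_mul_of_nonneg_left hexp (by positivity)
            _ = 4 * C4 * m1 * (N / ((N : ℝ) + 1)) := by ring
            _ ≤ 4 * C4 * m1 * 1 := by
                apply mul_le_mul_of_nonneg_left _ (by positivity)
                rw [div_le_one (by positivity)]
                linarith
            _ = _ := mul_one _
      _ ≤ X := Nat.le_ceil _
  -- the coefficients
  choose c hc1 hc2 hc3 using fun g => hcov g A hA
  obtain ⟨a, ha0, haX, ha⟩ := aux_fixed γ GA hGA1 A BA' (hBA2 A hA) J K0 C hC0 c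
    (fun g j b => ⟨(hc1 g j b).1, (hc1 g j b).2.trans (by
      apply mul_le_mul_of_nonneg_left _ (by norm_num)
      apply Real.exp_le_exp.mpr
      exact mul_le_mul_of_nonneg_right (hC' g) (by positivity))⟩)
    (fun g j b n hn => hc2 g j b n ((hK0' g).trans hn)) N T T' X n1 hT'pos A0 hA0eq le_rfl
    hcard hXle
  refine ⟨a, ha0, haX, fun g w x y hw1 hw2 hr => ?_⟩
  have hCM : CMp (rw5 A (γ g) w) = 0 := by rw [← hr]; exact CMp_rr x y
  have h1 := ha g w x y hr (hc3 g w hw1 hw2 hCM)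
  refine h1.trans ?_
  have hDs : ∑ s, ‖Ds x y s‖ ≤ DE := by
    apply Ds_le hr
    intro j
    have h2 := (le_abs_self _).trans (dt_abs_le (A j) w)
    have h3 := neg_le_abs (γ g j)
    have h4 := hGA1 g j
    have h5 : (|w.1| + |w.2|) * (|(A j).1| + |(A j).2|) ≤ (2 * |R|) * BA' := by
      apply mul_le_mul _ (hBA2 A hA j) (by positivity) (by positivity)
      have := le_abs_self R
      linarith
    linarith
  have hpow : (1 / 2 : ℝ) ^ T ≤ Real.exp (-((C3 + ω) * N)) := by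
    have h2 : (1 / 2 : ℝ) ^ T = Real.exp (-(T * Real.log 2)) := by
      rw [one_div, inv_pow, Real.exp_neg, Real.exp_nat_mul, Real.exp_log (by norm_num)]
    rw [h2]
    apply Real.exp_le_exp.mpr
    apply neg_le_neg
    have h3 : (1 / 2 : ℝ) ≤ Real.log 2 := by
      have := Real.log_two_gt_d9
      linarith
    have h4 : (2 * (C3 + ω)) * N ≤ (T : ℝ) := by
      rw [hT]; push_cast
      exact mul_le_mul_of_nonneg_right hτ' hNr
    have h5 : (0 : ℝ) ≤ T := Nat.cast_nonneg T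
    nlinarith
  have hb1 : (T : ℝ) * K0 * (2 * ((N + 1) ^ 2 : ℕ) * X / T') ≤
      τ * N * K0 * (2 * ((N : ℝ) + 1) ^ 2 * X) * Real.exp (-(ω * N)) := by
    have h2 : (2 * (((N + 1) ^ 2 : ℕ) : ℝ) * X / T') ≤
        2 * ((N : ℝ) + 1) ^ 2 * X * Real.exp (-(ω * N)) := by
      rw [Real.exp_neg, ← div_eq_mul_inv]
      push_cast
      exact div_le_div_of_nonneg_left (by positivity) (Real.exp_pos _) hT'ge
    have h3 : (T : ℝ) = τ * N := by rw [hT]; push_cast; ring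
    rw [h3]
    calc (τ * N * K0 : ℝ) * (2 * ((N + 1) ^ 2 : ℕ) * X / T')
        ≤ τ * N * K0 * (2 * ((N : ℝ) + 1) ^ 2 * X * Real.exp (-(ω * N))) :=
          mul_le_mul_of_nonneg_left h2 (by positivity)
      _ = _ := by ring
  have hb2 : (1 / 2 : ℝ) ^ T * (((N + 1) ^ 2 : ℕ) * X * A0) ≤
      2 * ((N : ℝ) + 1) ^ 2 * X * Real.exp (-(ω * N)) := by
    calc (1 / 2 : ℝ) ^ T * (((N + 1) ^ 2 : ℕ) * X * A0)
        ≤ Real.exp (-((C3 + ω) * N)) * (((N + 1) ^ 2 : ℕ) * X * A0) :=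
          mul_le_mul_of_nonneg_right hpow (by positivity)
      _ = 2 * ((N : ℝ) + 1) ^ 2 * X * (Real.exp (-((C3 + ω) * N)) * Real.exp (C3 * N)) := by
          rw [hA0]; push_cast; ring
      _ = _ := by
          rw [← Real.exp_add]; congr 2; ring
  have hsum : (T : ℝ) * K0 * (2 * ((N + 1) ^ 2 : ℕ) * X / T') +
      (1 / 2 : ℝ) ^ T * (((N + 1) ^ 2 : ℕ) * X * A0) ≤
      X * 2 * (τ * K0 + 1) * ((N : ℝ) + 1) ^ 3 * Real.exp (-(ω * N)) := by
    refine (add_le_add hb1 hb2).trans ?_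
    rw [← add_mul]
    apply mul_le_mul_of_nonneg_right _ (Real.exp_pos _).le
    have e : (τ : ℝ) * N * K0 * (2 * ((N : ℝ) + 1) ^ 2 * X) + 2 * ((N : ℝ) + 1) ^ 2 * X =
        X * 2 * (τ * K0 * N + 1) * ((N : ℝ) + 1) ^ 2 := by ring
    have e' : X * 2 * ((τ : ℝ) * K0 + 1) * ((N : ℝ) + 1) ^ 3 =
        X * 2 * ((τ * K0 + 1) * (N + 1)) * ((N : ℝ) + 1) ^ 2 := by ring
    rw [e, e']
    apply mul_le_mul_of_nonneg_right _ (by positivity)
    apply mul_le_mul_of_nonneg_left _ (by positivity)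
    have : (0 : ℝ) ≤ τ * K0 := by positivity
    nlinarith
  calc (∑ s, ‖Ds x y s‖) * (T * K0 * (2 * ((N + 1) ^ 2 : ℕ) * X / T') +
        (1 / 2) ^ T * (((N + 1) ^ 2 : ℕ) * X * A0))
      ≤ DE * (X * 2 * (τ * K0 + 1) * ((N : ℝ) + 1) ^ 3 * Real.exp (-(ω * N))) := by
        apply mul_le_mul hDs hsum (by positivity) hDE0
    _ = (DE * X * 2 * (τ * K0 + 1)) * ((N : ℝ) + 1) ^ 3 * Real.exp (-(ω * N)) := by ring
    _ ≤ Real.exp N * Real.exp (-(ω * N)) :=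
        mul_le_mul_of_nonneg_right hN2 (Real.exp_pos _).le
    _ ≤ Real.exp (-κ * N) := by
        rw [← Real.exp_add]
        apply Real.exp_le_exp.mpr
        rw [hω]
        nlinarith

end Run7.h498
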