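import Pool.Agent.Run7.h498.Glob

set_option autoImplicit false

/-!
# Bounded height in a number field
-/

namespace Run7.h498

open NumberField Height Real Module Pool.Agent.Y740

lemma exists_place {ι : Type} [Fintype ι] (f e : ι → ℝ) (he : ∀ v, 0 ≤ e v) (ε : ℝ) (hε : 0 < ε)
    (h : ∑ v, e v < ε * ∑ v, max 0 (f v)) : ∃ v, 0 < f v ∧ e v ≤ ε * f v := by
  by_contra hcon
  push Not at hcon
  apply absurd h
  rw [not_lt, Finset.mul_sum]
  apply Finset.sum_le_sum
  intro v _
  rcases le_or_gt (f v) 0 with h0 | h0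
  · rw [max_eq_left h0, mul_zero]; exact he v
  · rw [max_eq_right h0.le]; exact (hcon v h0).le

section
variable {K : Type} [Field K] [NumberField K]

lemma ht_add (x y : K) : logHeight₁ (x + y) ≤ finrank ℚ K * log 2 + logHeight₁ x + logHeight₁ y := by
  have := logHeight₁_add_le x y
  rwa [NumberField.totalWeight_eq_finrank] at this

lemma ht_sub' (x y : K) : logHeight₁ (x - y) ≤ finrank ℚ K * log 2 + logHeight₁ x + logHeight₁ y := by
  have := logHeight₁_sub_le x y
  rwa [NumberField.totalWeight_eq_finrank] at this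

lemma ht_mul' (x y : K) : logHeight₁ (x * y) ≤ logHeight₁ x + logHeight₁ y := logHeight₁_mul_le x y

lemma ht_div' (x y : K) : logHeight₁ (x / y) ≤ logHeight₁ x + logHeight₁ y := by
  rw [div_eq_mul_inv]
  refine (ht_mul' _ _).trans ?_
  rw [logHeight₁_inv]

lemma ht_nonneg' (x : K) : 0 ≤ logHeight₁ x := zero_le_logHeight₁ x

/-- a root of a quadratic polynomial -/
lemma ht_quad {y α β : K} (h : y ^ 2 = α * y + β) :
    logHeight₁ y ≤ finrank ℚ K * log 2 + logHeight₁ α + logHeight₁ β := by
  have h1 : logHeight₁ (y ^ 2) = 2 * logHeight₁ y := by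
    rw [logHeight₁_pow]; norm_num
  have h2 := ht_add (α * y) β
  have h3 := ht_mul' α y
  rw [← h, h1] at h2
  linarith

lemma ht_two : logHeight₁ (2 : K) ≤ finrank ℚ K * log 2 := by
  have := ht_add (1 : K) 1
  rw [one_add_one_eq_two, logHeight₁_one] at this
  linarith

variable {x y : K} {B : ℝ}

lemma end1 (hx0 : x ≠ 0) (hx1 : 1 - x ≠ 0) (hy0 : y ≠ 0)
    (h1 : logHeight₁ (y * x) ≤ B) (h2 : logHeight₁ ((1 - y) * x / (1 - x)) ≤ B)
    (h3 : logHeight₁ ((x - y) * x / (1 - x) ^ 2) ≤ B) :
    logHeight₁ x ≤ 3 * (B + finrank ℚ K * log 2) := by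
  set c1 := y * x with hc1
  set c2 := (1 - y) * x / (1 - x) with hc2
  set c3 := (x - y) * x / (1 - x) ^ 2 with hc3
  have hL : 0 ≤ (finrank ℚ K : ℝ) * log 2 := mul_nonneg (Nat.cast_nonneg _) (Real.log_nonneg (by norm_num))
  have e2 : c2 * (1 - x) = (1 - y) * x := by rw [hc2]; field_simp
  by_cases h : 1 + c2 = 0
  · have hc2' : c2 = -1 := by linear_combination h
    have hyx : y * x = 1 := by
      rw [hc2'] at e2
      linear_combination e2
    have e3 : c3 * (1 - x) ^ 2 = (x - y) * x := by rw [hc3]; field_simp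
    have e4 : (1 - x) * (c3 * (1 - x) + (1 + x)) = 0 := by
      linear_combination e3 - hyx
    have e5 : c3 * (1 - x) + (1 + x) = 0 := (mul_eq_zero.mp e4).resolve_left hx1
    have e6 : x * (c3 - 1) = 1 + c3 := by linear_combination -e5
    have e7 : c3 - 1 ≠ 0 := by
      intro h7
      rw [h7, mul_zero] at e6
      have : (2 : K) = 0 := by linear_combination -e6 - h7
      exact two_ne_zero this
    have e8 : x = (1 + c3) / (c3 - 1) := by
      rw [eq_div_iff e7]; exact e6
    have g1 := ht_div' (1 + c3) (c3 - 1)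
    rw [← e8] at g1
    have g2 := ht_add 1 c3
    have g3 := ht_sub' c3 1
    rw [logHeight₁_one] at g2 g3
    have g4 := (ht_nonneg' c3).trans h3
    linarith
  · have e3 : x = (c1 + c2) / (1 + c2) := by
      rw [eq_div_iff h]
      linear_combination -e2
    have g1 := ht_div' (c1 + c2) (1 + c2)
    rw [← e3] at g1
    have g2 := ht_add c1 c2
    have g3 := ht_add 1 c2
    rw [logHeight₁_one] at g3
    linarith

lemma end3 (hx0 : x ≠ 0) (hx1 : 1 - x ≠ 0) (hy0 : y ≠ 0)
    (h1 : logHeight₁ (y ^ 2 / x) ≤ B) (h2 : logHeight₁ ((1 - y) ^ 2 / (1 - x)) ≤ B) :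
    logHeight₁ x ≤ 30 * (B + finrank ℚ K * log 2) := by
  set c1 := y ^ 2 / x with hc1
  set c2 := (1 - y) ^ 2 / (1 - x) with hc2
  have hL : 0 ≤ (finrank ℚ K : ℝ) * log 2 := mul_nonneg (Nat.cast_nonneg _) (Real.log_nonneg (by norm_num))
  have hB : 0 ≤ B := (ht_nonneg' c1).trans h1
  have e1 : c1 * x = y ^ 2 := by rw [hc1]; field_simp
  have e2 : c2 * (1 - x) = (1 - y) ^ 2 := by rw [hc2]; field_simp
  have hc10 : c1 ≠ 0 := by
    intro h; rw [h, zero_mul] at e1
    exact pow_ne_zero 2 hy0 e1.symm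
  have ex : x = y ^ 2 / c1 := by rw [eq_div_iff hc10]; linear_combination e1
  have e3 : (c1 + c2) * y ^ 2 = 2 * c1 * y - c1 + c1 * c2 := by
    linear_combination -c1 * e2 - c2 * e1
  have hy : logHeight₁ y ≤ 14 * (B + finrank ℚ K * log 2) := by
    by_cases h : c1 + c2 = 0
    · rw [h, zero_mul] at e3
      have e4 : c1 * (2 * y - (1 - c2)) = 0 := by linear_combination -e3
      have e5 : 2 * y - (1 - c2) = 0 := (mul_eq_zero.mp e4).resolve_left hc10
      have e6 : y = (1 - c2) / 2 := by
        rw [eq_div_iff two_ne_zero]; linear_combination e5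
      have g1 := ht_div' (1 - c2) 2
      rw [← e6] at g1
      have g2 := ht_sub' 1 c2
      rw [logHeight₁_one] at g2
      have g3 := ht_two (K := K)
      linarith
    · have e4 : y ^ 2 = (2 * c1 / (c1 + c2)) * y + (c1 * c2 - c1) / (c1 + c2) := by
        field_simp
        linear_combination e3
      have g0 := ht_quad e4
      have g1 := ht_div' (2 * c1) (c1 + c2)
      have g2 := ht_div' (c1 * c2 - c1) (c1 + c2)
      have g3 := ht_mul' 2 c1
      have g4 := ht_two (K := K)
      have g5 := ht_add c1 c2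
      have g6 := ht_sub' (c1 * c2) c1
      have g7 := ht_mul' c1 c2
      linarith
  have g1 := ht_div' (y ^ 2) c1
  rw [← ex, logHeight₁_pow] at g1
  push_cast at g1
  linarith

lemma end4 (hx0 : x ≠ 0) (hx1 : 1 - x ≠ 0) (hy0 : y ≠ 0) (hy1 : 1 - y ≠ 0)
    (h1 : logHeight₁ (x / (1 - y)) ≤ B) (h2 : logHeight₁ ((1 - x) / y) ≤ B)
    (h3 : logHeight₁ (x - y) ≤ B) :
    logHeight₁ x ≤ 6 * (B + finrank ℚ K * log 2) := by
  set c1 := x / (1 - y) with hc1
  set c2 := (1 - x) / y with hc2
  have hL : 0 ≤ (finrank ℚ K : ℝ) * log 2 := mul_nonneg (Nat.cast_nonneg _) (Real.log_nonneg (by norm_num))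
  have hB : 0 ≤ B := (ht_nonneg' c1).trans h1
  have e1 : c1 * (1 - y) = x := by rw [hc1]; field_simp
  have e2 : c2 * y = 1 - x := by rw [hc2]; field_simp
  have e3 : y * (c2 - c1) = 1 - c1 := by linear_combination e1 + e2
  by_cases h : c2 - c1 = 0
  · rw [h, mul_zero] at e3
    have hc : c1 = 1 := by linear_combination e3
    have e4 : x = ((x - y) + 1) / 2 := by
      rw [eq_div_iff two_ne_zero]
      rw [hc] at e1
      linear_combination -e1
    have g1 := ht_div' ((x - y) + 1) 2
    rw [← e4] at g1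
    have g2 := ht_add (x - y) 1
    rw [logHeight₁_one] at g2
    have g3 := ht_two (K := K)
    linarith
  · have e4 : y = (1 - c1) / (c2 - c1) := by
      rw [eq_div_iff h]; exact e3
    have g1 := ht_div' (1 - c1) (c2 - c1)
    rw [← e4] at g1
    have g2 := ht_sub' 1 c1
    rw [logHeight₁_one] at g2
    have g3 := ht_sub' c2 c1
    have g4 := ht_mul' c1 (1 - y)
    rw [e1] at g4
    have g5 := ht_sub' 1 y
    rw [logHeight₁_one] at g5
    linarith

lemma end5 (hx0 : x ≠ 0) (hx1 : 1 - x ≠ 0) (hy0 : y ≠ 0) (hy1 : 1 - y ≠ 0)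
    (h1 : logHeight₁ (y / x ^ 2) ≤ B) (h2 : logHeight₁ ((1 - y) / (1 - x) ^ 2) ≤ B) :
    logHeight₁ x ≤ 20 * (B + finrank ℚ K * log 2) := by
  set c1 := y / x ^ 2 with hc1
  set c2 := (1 - y) / (1 - x) ^ 2 with hc2
  have hL : 0 ≤ (finrank ℚ K : ℝ) * log 2 := mul_nonneg (Nat.cast_nonneg _) (Real.log_nonneg (by norm_num))
  have hB : 0 ≤ B := (ht_nonneg' c1).trans h1
  have e1 : c1 * x ^ 2 = y := by rw [hc1]; field_simp
  have e2 : c2 * (1 - x) ^ 2 = 1 - y := by rw [hc2]; field_simp
  have hc20 : c2 ≠ 0 := by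
    intro h; rw [h, zero_mul] at e2
    exact hy1 e2.symm
  have e3 : (c1 + c2) * x ^ 2 = 2 * c2 * x + (1 - c2) := by
    linear_combination e1 + e2
  by_cases h : c1 + c2 = 0
  · rw [h, zero_mul] at e3
    have e4 : x = (c2 - 1) / (2 * c2) := by
      rw [eq_div_iff (mul_ne_zero two_ne_zero hc20)]
      linear_combination -e3
    have g1 := ht_div' (c2 - 1) (2 * c2)
    rw [← e4] at g1
    have g2 := ht_sub' c2 1
    rw [logHeight₁_one] at g2
    have g3 := ht_mul' 2 c2
    have g4 := ht_two (K := K)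
    linarith
  · have e4 : x ^ 2 = (2 * c2 / (c1 + c2)) * x + (1 - c2) / (c1 + c2) := by
      field_simp
      linear_combination e3
    have g0 := ht_quad e4
    have g1 := ht_div' (2 * c2) (c1 + c2)
    have g2 := ht_div' (1 - c2) (c1 + c2)
    have g3 := ht_mul' 2 c2
    have g4 := ht_two (K := K)
    have g5 := ht_add c1 c2
    have g6 := ht_sub' 1 c2
    rw [logHeight₁_one] at g6
    linarith

/-- the coordinates of the point -/
def crdM {F : Type} [Field F] (x y : F) : Fin 5 → F := ![x, 1 - x, y, 1 - y, x - y]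

/-- the height of the first coordinate -/
theorem nf_bound (x y : K) (hx0 : x ≠ 0) (hx1 : x ≠ 1) (hy0 : y ≠ 0) (hy1 : y ≠ 1)
    (hxy : x ≠ y) (g : Fin 5 → K) (hg : ∀ j, g j ≠ 0)
    (hrel : HasRelations (fun l => g l * crdM x y l) 3) :
    logHeight₁ x ≤ 10 ^ 7 * (finrank ℚ K * log 2 + 4 * ∑ j, logHeight₁ (g j)) := by
  classical
  obtain ⟨U, hU, hrel⟩ := hrel
  have hx1' : 1 - x ≠ 0 := sub_ne_zero.mpr hx1.symm
  have hy1' : 1 - y ≠ 0 := sub_ne_zero.mpr hy1.symm
  have hxy' : x - y ≠ 0 := sub_ne_zero.mpr hxy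
  have hcr : ∀ l, crdM x y l ≠ 0 := by
    intro l; fin_cases l
    · exact hx0
    · exact hx1'
    · exact hy0
    · exact hy1'
    · exact hxy'
  obtain ⟨S, hS⟩ := exists_SU [x, 1 - x, y, 1 - y, x - y, g 0, g 1, g 2, g 3, g 4] (by
    intro z hz
    simp only [List.mem_cons, List.not_mem_nil, or_false] at hz
    rcases hz with rfl | rfl | rfl | rfl | rfl | rfl | rfl | rfl | rfl | rfl <;>
    first | assumption | exact hg _)
  have sx : SU S x := hS _ (by simp)
  have sx' : SU S (1 - x) := hS _ (by simp)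
  have sy : SU S y := hS _ (by simp)
  have sy' : SU S (1 - y) := hS _ (by simp)
  have sxy : SU S (x - y) := hS _ (by simp)
  have sg : ∀ j, SU S (g j) := by
    intro j; fin_cases j <;> exact hS _ (by simp)
  -- the functions
  set γ : Fin 5 → Pl S → ℝ := fun j v => lg v (g j) with hγ
  set η : Pl S → ℝ := fun v => ∑ j, |γ j v| with hη
  set e : Pl S → ℝ := fun v => kp v + 2 * η v with he
  set a : Pl S → ℝ := fun v => lg v x + γ 0 v with ha
  set b : Pl S → ℝ := fun v => lg v (1 - x) + γ 1 v with hb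
  set p : Pl S → ℝ := fun v => lg v y + γ 2 v with hp
  set q : Pl S → ℝ := fun v => lg v (1 - y) + γ 3 v with hq
  set s : Pl S → ℝ := fun v => lg v (x - y) + γ 4 v with hs
  have hγη : ∀ j v, |γ j v| ≤ η v := fun j v =>
    Finset.single_le_sum (f := fun j => |γ j v|) (fun _ _ => abs_nonneg _) (Finset.mem_univ j)
  have hη0 : ∀ v, 0 ≤ η v := fun v => (abs_nonneg _).trans (hγη 0 v)
  have he0 : ∀ v, 0 ≤ e v := fun v => by
    have := kp_nonneg v; have := hη0 v
    rw [he]; dsimp only; linarith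
  have hdiff : ∀ (z : K) (j : Fin 5) (v : Pl S), |(lg v z + γ j v) - lg v z| ≤ η v := by
    intro z j v
    rw [add_sub_cancel_left]; exact hγη j v
  have t1 : ∀ v, Tri (a v) (b v) 0 (e v) := fun v => by
    have h := lg_tri v hx0 hx1' one_ne_zero (by ring : x + (1 - x) = 1)
    rw [lg_one] at h
    exact h.pert (hdiff _ _ _) (hdiff _ _ _) (by simpa using hη0 v) (le_refl _)
  have t2 : ∀ v, Tri (p v) (q v) 0 (e v) := fun v => by
    have h := lg_tri v hy0 hy1' one_ne_zero (by ring : y + (1 - y) = 1)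
    rw [lg_one] at h
    exact h.pert (hdiff _ _ _) (hdiff _ _ _) (by simpa using hη0 v) (le_refl _)
  have t3 : ∀ v, Tri (s v) (p v) (a v) (e v) := fun v => by
    have h := lg_tri v hxy' hy0 hx0 (by ring : (x - y) + y = x)
    exact h.pert (hdiff _ _ _) (hdiff _ _ _) (hdiff _ _ _) (le_refl _)
  have t4 : ∀ v, Tri (s v) (b v) (q v) (e v) := fun v => by
    have h := lg_tri v hxy' hx1' hy1' (by ring : (x - y) + (1 - x) = 1 - y)
    exact h.pert (hdiff _ _ _) (hdiff _ _ _) (hdiff _ _ _) (le_refl _)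
  -- the determinants
  have hm : ∀ k (v : Pl S), ∑ l, (U k l : ℝ) * lg v (g l * crdM x y l) = 0 := by
    intro k v
    have h := congrArg (lg v) (hrel k)
    rw [lg_one, lg_prod v _ _ fun l => zpow_ne_zero _ (mul_ne_zero (hg l) (hcr l))] at h
    rw [← h]
    exact Finset.sum_congr rfl fun l _ => (lg_zpow v _ _).symm
  have hlg : ∀ (v : Pl S) l, lg v (g l * crdM x y l) = lg v (crdM x y l) + γ l v := by
    intro v l
    rw [lg_mul v (hg l) (hcr l), add_comm]
  have dd := dep_det0 U hU (fun (v : Pl S) l => lg v (g l * crdM x y l)) hm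
  simp only [hlg] at dd
  have dp : ∀ v w x, Det0 (a v) (b v) (p v) (a w) (b w) (p w) (a x) (b x) (p x) :=
    fun v w x => dd 0 1 2 v w x
  have dq : ∀ v w x, Det0 (a v) (b v) (q v) (a w) (b w) (q w) (a x) (b x) (q x) :=
    fun v w x => dd 0 1 3 v w x
  have ds : ∀ v w x, Det0 (a v) (b v) (s v) (a w) (b w) (s w) (a x) (b x) (s x) :=
    fun v w x => dd 0 1 4 v w x
  -- the sums
  set E : ℝ := finrank ℚ K * log 2 + 4 * ∑ j, logHeight₁ (g j) with hE
  have hd : (1 : ℝ) ≤ finrank ℚ K := by
    have : 0 < finrank ℚ K := finrank_pos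
    exact_mod_cast this
  have hl2 : 0 < log 2 := Real.log_pos (by norm_num)
  have hdl : 0 < (finrank ℚ K : ℝ) * log 2 := by positivity
  have hG0 : 0 ≤ ∑ j, logHeight₁ (g j) := Finset.sum_nonneg fun j _ => ht_nonneg' _
  have hGj : ∀ j, logHeight₁ (g j) ≤ ∑ j, logHeight₁ (g j) := fun j =>
    Finset.single_le_sum (f := fun j => logHeight₁ (g j)) (fun _ _ => ht_nonneg' _)
      (Finset.mem_univ j)
  have hEpos : 0 < E := by rw [hE]; linarith
  have hsη : ∑ v, η v = 2 * ∑ j, logHeight₁ (g j) := by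
    rw [hη, Finset.sum_comm, Finset.mul_sum]
    exact Finset.sum_congr rfl fun j _ => sum_abs_lg (sg j)
  have hse : ∑ v, e v = E := by
    rw [he, Finset.sum_add_distrib, sum_kp, ← Finset.mul_sum, hsη, hE]; ring
  by_contra hcon
  rw [not_le] at hcon
  set h := logHeight₁ x with hh
  have hhpos : 0 < h := by nlinarith
  have hx' : h ≤ finrank ℚ K * log 2 + logHeight₁ (1 - x) := by
    have := ht_sub' 1 (1 - x)
    rw [logHeight₁_one, sub_sub_cancel] at this
    linarith
  have hx'' : logHeight₁ (1 - x) ≤ finrank ℚ K * log 2 + h := by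
    have := ht_sub' 1 x
    rw [logHeight₁_one] at this
    linarith
  set ε : ℝ := 2 * E / h with hε
  have hεpos : 0 < ε := by positivity
  have hε1 : ε ≤ 1 / 10000 := by
    rw [hε, div_le_iff₀ hhpos]; linarith
  have hεh : ε * h = 2 * E := by rw [hε]; field_simp
  have hmax : ∀ (f f' δ : Pl S → ℝ), (∀ v, |f v - f' v| ≤ δ v) →
      ∑ v, max 0 (f' v) - ∑ v, δ v ≤ ∑ v, max 0 (f v) := by
    intro f f' δ h1
    rw [← Finset.sum_sub_distrib]
    apply Finset.sum_le_sum
    intro v _
    have h2 := abs_le.mp (h1 v)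
    rcases le_total 0 (f' v) with h3 | h3
    · rw [max_eq_right h3]
      have := le_max_right 0 (f v)
      linarith
    · rw [max_eq_left h3]
      have := le_max_left 0 (f v)
      have := (abs_nonneg _).trans (h1 v)
      linarith
  have H0 : h - E ≤ ∑ v, max 0 (-a v) := by
    have h1 := hmax (fun v => -a v) (fun v => lg v x⁻¹) (fun v => |γ 0 v|) (by
      intro v
      rw [lg_inv, ha]; dsimp only
      rw [← abs_neg (γ 0 v)]
      apply le_of_eq; congr 1; ring)
    rw [sum_max_lg sx.inv, logHeight₁_inv, sum_abs_lg (sg 0)] at h1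
    have := hGj 0
    linarith
  have H1 : h - E ≤ ∑ v, max 0 (-b v) := by
    have h1 := hmax (fun v => -b v) (fun v => lg v (1 - x)⁻¹) (fun v => |γ 1 v|) (by
      intro v
      rw [lg_inv, hb]; dsimp only
      rw [← abs_neg (γ 1 v)]
      apply le_of_eq; congr 1; ring)
    rw [sum_max_lg sx'.inv, logHeight₁_inv, sum_abs_lg (sg 1)] at h1
    have := hGj 1
    linarith
  have H2 : h - E ≤ ∑ v, max 0 (a v) := by
    have h1 := hmax (fun v => a v) (fun v => lg v x) (fun v => |γ 0 v|) (by
      intro v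
      rw [ha]; dsimp only
      apply le_of_eq; congr 1; ring)
    rw [sum_max_lg sx, sum_abs_lg (sg 0)] at h1
    have := hGj 0
    linarith
  have hstr : ∀ T : ℝ, h - E ≤ T → ∑ v, e v < ε * T := by
    intro T hT
    rw [hse]
    have h1 : ε * (h - E) ≤ ε * T := mul_le_mul_of_nonneg_left hT hεpos.le
    have h2 : ε * E ≤ 1 / 10000 * E := mul_le_mul_of_nonneg_right hε1 hEpos.le
    have h3 : ε * (h - E) = 2 * E - ε * E := by rw [mul_sub, hεh]
    linarith
  obtain ⟨v0, h0, h0'⟩ := exists_place (fun v => -a v) e he0 ε hεpos (hstr _ H0)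
  obtain ⟨v1, h1, h1'⟩ := exists_place (fun v => -b v) e he0 ε hεpos (hstr _ H1)
  obtain ⟨v2, h2, h2'⟩ := exists_place a e he0 ε hεpos (hstr _ H2)
  have hcore := core a b p q s e ε hεpos hε1 t1 t2 t3 t4 dp dq ds v0 v1 v2 h0 h0' h1 h1' h2 h2'
  -- the sum of the coordinates
  have hab : ∑ v, (|a v| + |b v|) ≤ 6 * h := by
    have h3 : ∀ v, |a v| + |b v| ≤ |lg v x| + |lg v (1 - x)| + (|γ 0 v| + |γ 1 v|) := by
      intro v
      have := abs_add_le (lg v x) (γ 0 v)
      have := abs_add_le (lg v (1 - x)) (γ 1 v)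
      rw [ha, hb]; dsimp only
      linarith
    have h4 := Finset.sum_le_sum fun v (_ : v ∈ (Finset.univ : Finset (Pl S))) => h3 v
    simp only [Finset.sum_add_distrib] at h4
    rw [sum_abs_lg sx, sum_abs_lg sx', sum_abs_lg (sg 0), sum_abs_lg (sg 1)] at h4
    rw [Finset.sum_add_distrib]
    have := hGj 0
    have := hGj 1
    linarith
  -- the height of a number with small logarithms
  have hsmall : ∀ c : K, SU S c → (∀ v, |lg v c| ≤ 2 * (3000 * ε * (|a v| + |b v|)) + 5 * η v) →
      logHeight₁ c ≤ 40000 * E := by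
    intro c hc hv
    have h3 := Finset.sum_le_sum fun v (_ : v ∈ (Finset.univ : Finset (Pl S))) => hv v
    rw [sum_abs_lg hc, Finset.sum_add_distrib, ← Finset.mul_sum, ← Finset.mul_sum,
      ← Finset.mul_sum, hsη] at h3
    have h4 : 3000 * ε * ∑ v, (|a v| + |b v|) ≤ 3000 * ε * (6 * h) :=
      mul_le_mul_of_nonneg_left hab (by positivity)
    have h5 : 3000 * ε * (6 * h) = 36000 * E := by
      have : 3000 * ε * (6 * h) = 18000 * (ε * h) := by ring
      rw [this, hεh]; ring
    have h6 : 0 ≤ ∑ j, logHeight₁ (g j) := hG0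
    rw [hE] at *
    linarith
  have hEdl : (finrank ℚ K : ℝ) * log 2 ≤ E := by rw [hE]; linarith
  have aa : ∀ v, |lg v x - a v| ≤ η v := fun v => by
    rw [abs_sub_comm]; exact hdiff _ _ _
  have bb : ∀ v, |lg v (1 - x) - b v| ≤ η v := fun v => by
    rw [abs_sub_comm]; exact hdiff _ _ _
  have pp : ∀ v, |lg v y - p v| ≤ η v := fun v => by
    rw [abs_sub_comm]; exact hdiff _ _ _
  have qq : ∀ v, |lg v (1 - y) - q v| ≤ η v := fun v => by
    rw [abs_sub_comm]; exact hdiff _ _ _
  have ss : ∀ v, |lg v (x - y) - s v| ≤ η v := fun v => by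
    rw [abs_sub_comm]; exact hdiff _ _ _
  simp only [abs_le] at aa bb pp qq ss
  have hpos : ∀ v, 0 ≤ 3000 * ε * (|a v| + |b v|) := fun v => by positivity
  rcases hcore with hT | hT | hT | hT | hT
  · -- type 1
    have k1 : logHeight₁ (y * x) ≤ 40000 * E := by
      apply hsmall _ (sy.mul sx)
      intro v
      rw [lg_mul v hy0 hx0]
      obtain ⟨z1, z2, z3⟩ := hT v
      rw [abs_le] at *
      have := aa v; have := pp v; have := hη0 v; have := hpos v
      constructor <;> linarith
    have k2 : logHeight₁ ((1 - y) * x / (1 - x)) ≤ 40000 * E := by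
      apply hsmall _ ((sy'.mul sx).div sx')
      intro v
      rw [lg_div v (mul_ne_zero hy1' hx0) hx1', lg_mul v hy1' hx0]
      obtain ⟨z1, z2, z3⟩ := hT v
      rw [abs_le] at *
      have := aa v; have := bb v; have := qq v; have := hη0 v; have := hpos v
      constructor <;> linarith
    have k3 : logHeight₁ ((x - y) * x / (1 - x) ^ 2) ≤ 40000 * E := by
      apply hsmall _ ((sxy.mul sx).div (sx'.pow 2))
      intro v
      rw [lg_div v (mul_ne_zero hxy' hx0) (pow_ne_zero 2 hx1'), lg_mul v hxy' hx0, lg_pow]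
      obtain ⟨z1, z2, z3⟩ := hT v
      rw [abs_le] at *
      have := aa v; have := bb v; have := ss v; have := hη0 v; have := hpos v
      push_cast
      constructor <;> linarith
    have := end1 hx0 hx1' hy0 k1 k2 k3
    linarith
  · -- type 2
    have k1 : logHeight₁ ((1 - y) * (1 - x)) ≤ 40000 * E := by
      apply hsmall _ (sy'.mul sx')
      intro v
      rw [lg_mul v hy1' hx1']
      obtain ⟨z1, z2, z3⟩ := hT v
      rw [abs_le] at *
      have := bb v; have := qq v; have := hη0 v; have := hpos v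
      constructor <;> linarith
    have k2 : logHeight₁ ((1 - (1 - y)) * (1 - x) / (1 - (1 - x))) ≤ 40000 * E := by
      rw [sub_sub_cancel, sub_sub_cancel]
      apply hsmall _ ((sy.mul sx').div sx)
      intro v
      rw [lg_div v (mul_ne_zero hy0 hx1') hx0, lg_mul v hy0 hx1']
      obtain ⟨z1, z2, z3⟩ := hT v
      rw [abs_le] at *
      have := aa v; have := bb v; have := pp v; have := hη0 v; have := hpos v
      constructor <;> linarith
    have k3 : logHeight₁ (((1 - x) - (1 - y)) * (1 - x) / (1 - (1 - x)) ^ 2) ≤ 40000 * E := by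
      have e3 : (1 - x) - (1 - y) = -(x - y) := by ring
      rw [e3, sub_sub_cancel, neg_mul, neg_div, logHeight₁_neg]
      apply hsmall _ ((sxy.mul sx').div (sx.pow 2))
      intro v
      rw [lg_div v (mul_ne_zero hxy' hx1') (pow_ne_zero 2 hx0), lg_mul v hxy' hx1', lg_pow]
      obtain ⟨z1, z2, z3⟩ := hT v
      rw [abs_le] at *
      have := aa v; have := bb v; have := ss v; have := hη0 v; have := hpos v
      push_cast
      constructor <;> linarith
    have := end1 hx1' (by rwa [sub_sub_cancel]) hy1' k1 k2 k3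
    linarith
  · -- type 3
    have k1 : logHeight₁ (y ^ 2 / x) ≤ 40000 * E := by
      apply hsmall _ ((sy.pow 2).div sx)
      intro v
      rw [lg_div v (pow_ne_zero 2 hy0) hx0, lg_pow]
      obtain ⟨z1, z2, z3⟩ := hT v
      rw [abs_le] at *
      have := aa v; have := pp v; have := hη0 v; have := hpos v
      push_cast
      constructor <;> linarith
    have k2 : logHeight₁ ((1 - y) ^ 2 / (1 - x)) ≤ 40000 * E := by
      apply hsmall _ ((sy'.pow 2).div sx')
      intro v
      rw [lg_div v (pow_ne_zero 2 hy1') hx1', lg_pow]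
      obtain ⟨z1, z2, z3⟩ := hT v
      rw [abs_le] at *
      have := bb v; have := qq v; have := hη0 v; have := hpos v
      push_cast
      constructor <;> linarith
    have := end3 hx0 hx1' hy0 k1 k2
    linarith
  · -- type 4
    have k1 : logHeight₁ (x / (1 - y)) ≤ 40000 * E := by
      apply hsmall _ (sx.div sy')
      intro v
      rw [lg_div v hx0 hy1']
      obtain ⟨z1, z2, z3⟩ := hT v
      rw [abs_le] at *
      have := aa v; have := qq v; have := hη0 v; have := hpos v
      constructor <;> linarith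
    have k2 : logHeight₁ ((1 - x) / y) ≤ 40000 * E := by
      apply hsmall _ (sx'.div sy)
      intro v
      rw [lg_div v hx1' hy0]
      obtain ⟨z1, z2, z3⟩ := hT v
      rw [abs_le] at *
      have := bb v; have := pp v; have := hη0 v; have := hpos v
      constructor <;> linarith
    have k3 : logHeight₁ (x - y) ≤ 40000 * E := by
      apply hsmall _ sxy
      intro v
      obtain ⟨z1, z2, z3⟩ := hT v
      rw [abs_le] at *
      have := ss v; have := hη0 v; have := hpos v
      constructor <;> linarith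
    have := end4 hx0 hx1' hy0 hy1' k1 k2 k3
    linarith
  · -- type 5
    have k1 : logHeight₁ (y / x ^ 2) ≤ 40000 * E := by
      apply hsmall _ (sy.div (sx.pow 2))
      intro v
      rw [lg_div v hy0 (pow_ne_zero 2 hx0), lg_pow]
      obtain ⟨z1, z2, z3⟩ := hT v
      rw [abs_le] at *
      have := aa v; have := pp v; have := hη0 v; have := hpos v
      push_cast
      constructor <;> linarith
    have k2 : logHeight₁ ((1 - y) / (1 - x) ^ 2) ≤ 40000 * E := by
      apply hsmall _ (sy'.div (sx'.pow 2))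
      intro v
      rw [lg_div v hy1' (pow_ne_zero 2 hx1'), lg_pow]
      obtain ⟨z1, z2, z3⟩ := hT v
      rw [abs_le] at *
      have := bb v; have := qq v; have := hη0 v; have := hpos v
      push_cast
      constructor <;> linarith
    have := end5 hx0 hx1' hy0 hy1' k1 k2
    linarith

end

end Run7.h498
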