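import Pool.Agent.Run7.h498.BH
import Pool.Agent.Y740.G.HeightMain

set_option autoImplicit false

/-!
# Bounded height over the algebraic numbers
-/

namespace Run7.h498

open NumberField Height Real Module Pool.Agent.Y740 Pool.Agent.Y740.G

/-- the height of both coordinates, in a number field -/
theorem nf_bound2 {K : Type} [Field K] [NumberField K] (x y : K) (hx0 : x ≠ 0) (hx1 : x ≠ 1)
    (hy0 : y ≠ 0) (hy1 : y ≠ 1)
    (hxy : x ≠ y) (g : Fin 5 → K) (hg : ∀ j, g j ≠ 0)
    (hrel : HasRelations (fun l => g l * crdM x y l) 3) :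
    logHeight₁ x ≤ 10 ^ 7 * (finrank ℚ K * log 2 + 4 * ∑ j, logHeight₁ (g j)) ∧
    logHeight₁ y ≤ 10 ^ 7 * (finrank ℚ K * log 2 + 4 * ∑ j, logHeight₁ (g j)) := by
  refine ⟨nf_bound x y hx0 hx1 hy0 hy1 hxy g hg hrel, ?_⟩
  have h := nf_bound y x hy0 hy1 hx0 hx1 hxy.symm ![g 2, g 3, g 0, g 1, -g 4] (by
    intro j; fin_cases j
    · exact hg 2
    · exact hg 3
    · exact hg 0
    · exact hg 1
    · exact neg_ne_zero.mpr (hg 4)) (by
    obtain ⟨u, hu, hr⟩ := hrel
    let σ : Fin 5 ≃ Fin 5 := ⟨![2, 3, 0, 1, 4], ![2, 3, 0, 1, 4], by decide, by decide⟩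
    refine ⟨fun k l => u k (σ l), ?_, fun k => ?_⟩
    · have := hu.map' (LinearMap.funLeft ℤ ℤ σ) (by
        rw [LinearMap.ker_eq_bot]
        exact LinearMap.funLeft_injective_of_surjective ℤ ℤ σ σ.surjective)
      exact this
    · rw [← hr k, ← Equiv.prod_comp σ (fun l => (g l * crdM x y l) ^ u k l)]
      apply Finset.prod_congr rfl
      intro l _
      congr 1
      fin_cases l <;> simp [σ, crdM]
      ring)
  refine h.trans (le_of_eq ?_)
  congr 2
  simp only [Fin.sum_univ_five]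
  simp only [Matrix.cons_val, logHeight₁_neg]
  ring

/-- bounded height, over the algebraic numbers -/
theorem bh : ∃ C : ℝ, ∀ (x y : AlgebraicClosure ℚ) (g : Fin 5 → AlgebraicClosure ℚ),
    x ≠ 0 → x ≠ 1 → y ≠ 0 → y ≠ 1 → x ≠ y → (∀ j, g j ≠ 0) →
    HasRelations (fun l => g l * crdM x y l) 3 →
    NumberField.absLogHeight₁ x + NumberField.absLogHeight₁ y ≤
      C * (1 + ∑ j, NumberField.absLogHeight₁ (g j)) := by
  refine ⟨2 * 10 ^ 7 * 4, fun x y g hx0 hx1 hy0 hy1 hxy hg hrel => ?_⟩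
  obtain ⟨K, hK, hG, hmem⟩ := exists_galois ({x, y} ∪ Set.range g)
    ((by simp : ({x, y} : Set _).Finite).union (Set.finite_range g))
  have hn := finrank_pos' K
  let xK : K := ⟨x, hmem _ (by simp)⟩
  let yK : K := ⟨y, hmem _ (by simp)⟩
  let gK : Fin 5 → K := fun j => ⟨g j, hmem _ (by simp)⟩
  have inj := (algebraMap K Qb).injective
  have e1 : NumberField.absLogHeight₁ x = logHeight₁ xK / finrank ℚ K :=
    ht_eq (algebraMap K Qb) xK
  have e2 : NumberField.absLogHeight₁ y = logHeight₁ yK / finrank ℚ K :=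
    ht_eq (algebraMap K Qb) yK
  have e3 : ∀ j, NumberField.absLogHeight₁ (g j) = logHeight₁ (gK j) / finrank ℚ K := fun j =>
    ht_eq (algebraMap K Qb) (gK j)
  have h := nf_bound2 xK yK (fun h => hx0 (congrArg (algebraMap K Qb) h))
    (fun h => hx1 (congrArg (algebraMap K Qb) h)) (fun h => hy0 (congrArg (algebraMap K Qb) h))
    (fun h => hy1 (congrArg (algebraMap K Qb) h)) (fun h => hxy (congrArg (algebraMap K Qb) h))
    gK (fun j h => hg j (congrArg (algebraMap K Qb) h)) (by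
      obtain ⟨u, hu, hr⟩ := hrel
      refine ⟨u, hu, fun k => ?_⟩
      apply inj
      rw [map_one, ← hr k, map_prod]
      apply Finset.prod_congr rfl
      intro l _
      rw [map_zpow₀, map_mul]
      congr 2
      fin_cases l <;> simp [crdM] <;> rfl)
  rw [e1, e2]
  simp only [e3]
  rw [← Finset.sum_div, ← add_div, div_le_iff₀ hn]
  have e4 : 2 * 10 ^ 7 * 4 * (1 + (∑ j, logHeight₁ (gK j)) / (finrank ℚ K : ℝ)) * finrank ℚ K =
      2 * 10 ^ 7 * 4 * (finrank ℚ K + ∑ j, logHeight₁ (gK j)) := by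
    field_simp
  rw [e4]
  have hl2 : log 2 ≤ 1 := by
    have := Real.log_two_lt_d9
    linarith
  have hl : (finrank ℚ K : ℝ) * log 2 ≤ finrank ℚ K := by nlinarith
  have hs : 0 ≤ ∑ j, logHeight₁ (gK j) := Finset.sum_nonneg fun j _ => ht_nonneg' _
  have := h.1
  have := h.2
  nlinarith

end Run7.h498
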