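import Pool.Agent.Run7.h498.WP

set_option autoImplicit false

/-!
# Sums of exponentials near a point
-/

namespace Run7.h498

open Filter Topology

/-- the scalar product of the plane -/
def dt (a w : ℝ × ℝ) : ℝ := a.1 * w.1 + a.2 * w.2

lemma dt_add (a w w' : ℝ × ℝ) : dt a (w + w') = dt a w + dt a w' := by
  simp only [dt, Prod.fst_add, Prod.snd_add]; ring

lemma dt_smul (a : ℝ × ℝ) (t : ℝ) (w : ℝ × ℝ) : dt a (t • w) = t * dt a w := by
  simp only [dt, Prod.smul_fst, Prod.smul_snd, smul_eq_mul]; ring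

/-- the coefficients of `exp (s + a u + b v)` -/
noncomputable def ec (s a b : ℝ) (n : ℕ × ℕ) : ℝ :=
  Real.exp s * (a ^ n.1 / n.1.factorial * (b ^ n.2 / n.2.factorial))

lemma exp_hasSum (a : ℝ) : HasSum (fun n : ℕ => a ^ n / n.factorial) (Real.exp a) := by
  rw [Real.exp_eq_exp_ℝ]
  exact NormedSpace.expSeries_div_hasSum_exp a

lemma ec_abs (s a b : ℝ) (n : ℕ × ℕ) : |ec s a b n| = ec s |a| |b| n := by
  simp only [ec, abs_mul, abs_div, abs_pow, Nat.abs_cast, Real.abs_exp]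

lemma ec_hasSum_nonneg (s a b : ℝ) (ha : 0 ≤ a) (hb : 0 ≤ b) :
    HasSum (ec s a b) (Real.exp (s + a + b)) := by
  have h : HasSum (fun n : ℕ × ℕ => a ^ n.1 / n.1.factorial * (b ^ n.2 / n.2.factorial))
      (Real.exp a * Real.exp b) := by
    apply (exp_hasSum a).mul (exp_hasSum b)
    exact (exp_hasSum a).summable.mul_of_nonneg (exp_hasSum b).summable
      (fun n => by positivity) (fun n => by positivity)
  have := h.mul_left (Real.exp s)
  rw [Real.exp_add, Real.exp_add, mul_assoc]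
  exact this

lemma ec_abs_hasSum (s a b : ℝ) :
    HasSum (fun n => |ec s a b n|) (Real.exp (s + |a| + |b|)) := by
  simp only [ec_abs]
  exact ec_hasSum_nonneg s |a| |b| (abs_nonneg _) (abs_nonneg _)

lemma ec_hasSum (s a b : ℝ) : HasSum (ec s a b) (Real.exp (s + a + b)) := by
  have hs : Summable (fun n : ℕ × ℕ => a ^ n.1 / n.1.factorial * (b ^ n.2 / n.2.factorial)) := by
    apply Summable.of_norm
    have := (ec_abs_hasSum 0 a b).summable
    refine this.congr fun n => ?_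
    rw [ec, Real.exp_zero, one_mul, Real.norm_eq_abs]
  have h : HasSum (fun n : ℕ × ℕ => a ^ n.1 / n.1.factorial * (b ^ n.2 / n.2.factorial))
      (Real.exp a * Real.exp b) := (exp_hasSum a).mul (exp_hasSum b) hs
  have := h.mul_left (Real.exp s)
  rw [Real.exp_add, Real.exp_add, mul_assoc]
  exact this

lemma ec_mon (s a b u v : ℝ) (n : ℕ × ℕ) : mon u v n * ec s a b n = ec s (u * a) (v * b) n := by
  simp only [mon, ec, mul_pow]; ring

lemma ec_ev (s a b u v : ℝ) :
    HasSum (fun n => mon u v n * ec s a b n) (Real.exp (s + u * a + v * b)) := by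
  simp only [ec_mon]
  exact ec_hasSum _ _ _

lemma ec_le {s a b s' M : ℝ} (hs : s ≤ s') (ha : |a| ≤ M) (hb : |b| ≤ M) (n : ℕ × ℕ) :
    |ec s a b n| ≤ ec s' M M n := by
  rw [ec_abs, ec, ec]
  have hM : 0 ≤ M := (abs_nonneg _).trans ha
  gcongr

/-- the coefficients of a sum of exponentials -/
noncomputable def phi {I : Type} [Fintype I] (b : I → ℝ) (α : I → ℝ × ℝ) (w0 e1 e2 : ℝ × ℝ)
    (n : ℕ × ℕ) : ℝ := ∑ i, b i * ec (dt (α i) w0) (dt (α i) e1) (dt (α i) e2) n

/-- the sum of exponentials -/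
noncomputable def Phi {I : Type} [Fintype I] (b : I → ℝ) (α : I → ℝ × ℝ) (w : ℝ × ℝ) : ℝ :=
  ∑ i, b i * Real.exp (dt (α i) w)

section
variable {I : Type} [Fintype I] (b : I → ℝ) (α : I → ℝ × ℝ) (w0 e1 e2 : ℝ × ℝ)

lemma phi_ev (u v : ℝ) :
    HasSum (fun n => mon u v n * phi b α w0 e1 e2 n) (Phi b α (w0 + u • e1 + v • e2)) := by
  have h : ∀ i, HasSum (fun n => b i * (mon u v n *
      ec (dt (α i) w0) (dt (α i) e1) (dt (α i) e2) n))
      (b i * Real.exp (dt (α i) (w0 + u • e1 + v • e2))) := by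
    intro i
    have := (ec_ev (dt (α i) w0) (dt (α i) e1) (dt (α i) e2) u v).mul_left (b i)
    rwa [dt_add, dt_add, dt_smul, dt_smul]
  have h2 := hasSum_sum (s := Finset.univ) fun i _ => h i
  have e : (fun n => mon u v n * phi b α w0 e1 e2 n) = fun n => ∑ i, b i * (mon u v n *
      ec (dt (α i) w0) (dt (α i) e1) (dt (α i) e2) n) := by
    funext n
    rw [phi, Finset.mul_sum]
    exact Finset.sum_congr rfl fun i _ => by ring
  rw [e]
  exact h2

/-- the majorant of the coefficients -/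
noncomputable def psi (n : ℕ × ℕ) : ℝ :=
  ∑ i, |b i| * |ec (dt (α i) w0) (dt (α i) e1) (dt (α i) e2) n|

lemma phi_le_psi (n : ℕ × ℕ) : |phi b α w0 e1 e2 n| ≤ psi b α w0 e1 e2 n := by
  rw [phi, psi]
  refine (Finset.abs_sum_le_sum_abs _ _).trans (le_of_eq ?_)
  exact Finset.sum_congr rfl fun i _ => abs_mul _ _

lemma psi_summable : Summable (psi b α w0 e1 e2) := by
  apply summable_sum
  intro i _
  exact (ec_abs_hasSum _ _ _).summable.mul_left _

lemma psi_nonneg (n : ℕ × ℕ) : 0 ≤ psi b α w0 e1 e2 n :=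
  Finset.sum_nonneg fun i _ => mul_nonneg (abs_nonneg _) (abs_nonneg _)

lemma phi_abs_summable : Summable fun n => |phi b α w0 e1 e2 n| :=
  Summable.of_nonneg_of_le (fun n => abs_nonneg _) (phi_le_psi b α w0 e1 e2)
    (psi_summable b α w0 e1 e2)

lemma ec_scale (s a b ρ1 ρ2 : ℝ) (n : ℕ × ℕ) :
    ec s (ρ1 * a) (ρ2 * b) n = ρ1 ^ n.1 * ρ2 ^ n.2 * ec s a b n := by
  simp only [ec, mul_pow]; ring

lemma phi_scale (ρ1 ρ2 : ℝ) (n : ℕ × ℕ) : phi b α w0 (ρ1 • e1) (ρ2 • e2) n =
    ρ1 ^ n.1 * ρ2 ^ n.2 * phi b α w0 e1 e2 n := by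
  rw [phi, phi, Finset.mul_sum]
  apply Finset.sum_congr rfl
  intro i _
  rw [dt_smul, dt_smul, ec_scale]; ring

end

/-- the box lemma -/
theorem box {I : Type} [Fintype I] (b : I → ℝ) (α0 : I → ℝ × ℝ) (w0 w1 : ℝ × ℝ)
    (h1 : Phi b α0 w1 ≠ 0) :
    ∃ (e1 e2 : ℝ × ℝ) (k : ℕ), e1.1 * e2.2 - e1.2 * e2.1 ≠ 0 ∧
      ∀ᶠ α in 𝓝 α0, ∃ g : ℕ × ℕ → ℝ, (Summable fun n => |g n|) ∧ ∑' n, |g n| ≤ 1 / 2 ∧
        ∀ u v : ℝ, Phi b α (w0 + u • e1 + v • e2) = 0 → v ^ k = ∑' n, mon u v n * g n := by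
  classical
  -- the directions
  obtain ⟨f1, f2, t, hdet, ht⟩ : ∃ (f1 f2 : ℝ × ℝ) (t : ℝ), f1.1 * f2.2 - f1.2 * f2.1 ≠ 0 ∧
      Phi b α0 (w0 + t • f2) ≠ 0 := by
    by_cases hw : w1 = w0
    · refine ⟨(1, 0), (0, 1), 0, by norm_num, ?_⟩
      rw [zero_smul, add_zero, ← hw]; exact h1
    · refine ⟨((w1 - w0).2, -(w1 - w0).1), w1 - w0, 1, ?_, ?_⟩
      · intro h
        apply hw
        have h2 : (w1 - w0).2 ^ 2 + (w1 - w0).1 ^ 2 = 0 := by
          simp only at h
          linarith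
        have h3 : (w1 - w0).1 = 0 := by nlinarith [sq_nonneg (w1 - w0).1, sq_nonneg (w1 - w0).2]
        have h4 : (w1 - w0).2 = 0 := by nlinarith [sq_nonneg (w1 - w0).1, sq_nonneg (w1 - w0).2]
        have : w1 - w0 = 0 := Prod.ext h3 h4
        exact sub_eq_zero.mp this
      · rw [one_smul, add_sub_cancel]; exact h1
  -- the order of vanishing
  have hex : ∃ q, phi b α0 w0 f1 f2 (0, q) ≠ 0 := by
    by_contra hcon
    push Not at hcon
    apply ht
    have h2 := phi_ev b α0 w0 f1 f2 0 t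
    rw [zero_smul, add_zero] at h2
    have h3 : (fun n => mon 0 t n * phi b α0 w0 f1 f2 n) = fun _ => 0 := by
      funext n
      rcases n with ⟨p, q⟩
      rcases Nat.eq_zero_or_pos p with hp | hp
      · subst hp; rw [hcon, mul_zero]
      · rw [mon]; dsimp only
        rw [zero_pow hp.ne']; ring
    rw [h3] at h2
    exact h2.unique hasSum_zero
  set k := Nat.find hex with hk
  have hk0 : phi b α0 w0 f1 f2 (0, k) ≠ 0 := Nat.find_spec hex
  have hkmin : ∀ q < k, phi b α0 w0 f1 f2 (0, q) = 0 := fun q hq => by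
    have := Nat.find_min hex hq
    push Not at this
    exact this
  set D0 := |phi b α0 w0 f1 f2 (0, k)| with hD0
  have hD0pos : 0 < D0 := abs_pos.mpr hk0
  set W := ∑' n, psi b α0 w0 f1 f2 n with hW
  have hW0 : 0 ≤ W := tsum_nonneg (psi_nonneg b α0 w0 f1 f2)
  -- the radii
  set ρ2 : ℝ := min 1 (D0 / (8 * (W + 1))) with hρ2
  have hρ2pos : 0 < ρ2 := lt_min one_pos (by positivity)
  have hρ2le : ρ2 ≤ 1 := min_le_left _ _
  have hρ2W : ρ2 * W ≤ D0 / 8 := by
    have : ρ2 ≤ D0 / (8 * (W + 1)) := min_le_right _ _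
    calc ρ2 * W ≤ D0 / (8 * (W + 1)) * W := mul_le_mul_of_nonneg_right this hW0
      _ ≤ D0 / 8 := by
        rw [div_mul_eq_mul_div, div_le_div_iff₀ (by positivity) (by norm_num)]
        nlinarith
  set ρ1 : ℝ := min 1 (D0 * ρ2 ^ k / (8 * (W + 1))) with hρ1
  have hρ1pos : 0 < ρ1 := lt_min one_pos (by positivity)
  have hρ1le : ρ1 ≤ 1 := min_le_left _ _
  have hρ1W : ρ1 * W ≤ D0 * ρ2 ^ k / 8 := by
    have : ρ1 ≤ D0 * ρ2 ^ k / (8 * (W + 1)) := min_le_right _ _
    calc ρ1 * W ≤ D0 * ρ2 ^ k / (8 * (W + 1)) * W := mul_le_mul_of_nonneg_right this hW0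
      _ ≤ D0 * ρ2 ^ k / 8 := by
        rw [div_mul_eq_mul_div, div_le_div_iff₀ (by positivity) (by norm_num)]
        have : 0 ≤ D0 * ρ2 ^ k := by positivity
        nlinarith
  set e1 := ρ1 • f1 with he1
  set e2 := ρ2 • f2 with he2
  refine ⟨e1, e2, k, ?_, ?_⟩
  · rw [he1, he2]
    simp only [Prod.smul_fst, Prod.smul_snd, smul_eq_mul]
    have : ρ1 * f1.1 * (ρ2 * f2.2) - ρ1 * f1.2 * (ρ2 * f2.1) =
        ρ1 * ρ2 * (f1.1 * f2.2 - f1.2 * f2.1) := by ring
    rw [this]
    exact mul_ne_zero (mul_ne_zero hρ1pos.ne' hρ2pos.ne') hdet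
  -- the rest of the series
  set T : (I → ℝ × ℝ) → (ℕ × ℕ → ℝ) := fun α n => if n = (0, k) then 0 else |phi b α w0 e1 e2 n|
    with hT
  have hTle : ∀ α n, T α n ≤ |phi b α w0 e1 e2 n| := by
    intro α n
    rw [hT]; dsimp only
    split_ifs
    · exact abs_nonneg _
    · exact le_refl _
  have hTnn : ∀ α n, 0 ≤ T α n := by
    intro α n
    rw [hT]; dsimp only
    split_ifs
    · exact le_refl _
    · exact abs_nonneg _
  have hTs : ∀ α, Summable (T α) := fun α =>
    Summable.of_nonneg_of_le (hTnn α) (hTle α) (phi_abs_summable b α w0 e1 e2)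
  have hT0 : ∑' n, T α0 n ≤ (ρ2 ^ (k + 1) + ρ1) * W := by
    rw [hW, ← tsum_mul_left]
    apply Summable.tsum_le_tsum _ (hTs α0) ((psi_summable b α0 w0 f1 f2).mul_left _)
    intro n
    have hψ := psi_nonneg b α0 w0 f1 f2 n
    rw [hT]; dsimp only
    split_ifs with hn
    · positivity
    · rw [he1, he2, phi_scale, abs_mul, abs_of_nonneg (by positivity)]
      rcases n with ⟨p, q⟩
      rcases Nat.eq_zero_or_pos p with hp | hp
      · subst hp
        rcases lt_trichotomy q k with hq | hq | hq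
        · rw [hkmin q hq, abs_zero, mul_zero]; positivity
        · exact absurd (by rw [hq]) hn
        · dsimp only
          rw [pow_zero, one_mul]
          apply mul_le_mul _ (phi_le_psi b α0 w0 f1 f2 _) (abs_nonneg _) (by positivity)
          have : ρ2 ^ q ≤ ρ2 ^ (k + 1) := pow_le_pow_of_le_one hρ2pos.le hρ2le hq
          linarith
      · dsimp only
        apply mul_le_mul _ (phi_le_psi b α0 w0 f1 f2 _) (abs_nonneg _) (by positivity)
        have h2 : ρ1 ^ p ≤ ρ1 := by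
          have := pow_le_pow_of_le_one hρ1pos.le hρ1le hp
          rwa [Nat.succ_eq_add_one, zero_add, pow_one] at this
        have h3 : ρ2 ^ q ≤ 1 := pow_le_one₀ hρ2pos.le hρ2le
        have h4 : ρ1 ^ p * ρ2 ^ q ≤ ρ1 * 1 := mul_le_mul h2 h3 (by positivity) hρ1pos.le
        have : 0 ≤ ρ2 ^ (k + 1) := by positivity
        linarith
  have hD : |phi b α0 w0 e1 e2 (0, k)| = ρ2 ^ k * D0 := by
    rw [he1, he2, phi_scale, abs_mul, abs_of_nonneg (by positivity), pow_zero, one_mul]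
  have hlt : ∑' n, T α0 n < 1 / 2 * |phi b α0 w0 e1 e2 (0, k)| := by
    have h2 : ρ2 ^ (k + 1) * W = ρ2 ^ k * (ρ2 * W) := by rw [pow_succ]; ring
    have h3 : ρ2 ^ k * (ρ2 * W) ≤ ρ2 ^ k * (D0 / 8) :=
      mul_le_mul_of_nonneg_left hρ2W (by positivity)
    have h4 : 0 < ρ2 ^ k * D0 := by positivity
    rw [hD]
    nlinarith
  -- continuity
  have hec : ∀ n, Continuous fun α : I → ℝ × ℝ => phi b α w0 e1 e2 n := by
    intro n
    unfold phi ec dt
    fun_prop
  have hcont : Tendsto (fun α => ∑' n, T α n) (𝓝 α0) (𝓝 (∑' n, T α0 n)) := by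
    -- a bound near α0
    have hM : ∀ e : ℝ × ℝ, ∃ M : ℝ, ∀ᶠ α : I → ℝ × ℝ in 𝓝 α0, ∀ i, |dt (α i) e| ≤ M := by
      intro e
      refine ⟨∑ i, (|dt (α0 i) e| + 1), ?_⟩
      rw [eventually_all]
      intro i
      have hc : Continuous fun α : I → ℝ × ℝ => |dt (α i) e| := by
        unfold dt; fun_prop
      have h2 : ∀ᶠ α : I → ℝ × ℝ in 𝓝 α0, |dt (α i) e| < |dt (α0 i) e| + 1 :=
        (hc.tendsto α0).eventually (gt_mem_nhds (by linarith))
      filter_upwards [h2] with α hα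
      exact hα.le.trans (Finset.single_le_sum (f := fun i => |dt (α0 i) e| + 1)
        (fun i _ => by positivity) (Finset.mem_univ i))
    obtain ⟨M0, hM0⟩ := hM w0
    obtain ⟨M1, hM1⟩ := hM e1
    obtain ⟨M2, hM2⟩ := hM e2
    refine tendsto_tsum_of_dominated_convergence
      (bound := fun n => ∑ i, |b i| * ec M0 (max M1 M2) (max M1 M2) n) ?_ ?_ ?_
    · apply summable_sum
      intro i _
      exact (ec_hasSum _ _ _).summable.mul_left _
    · intro n
      have : Continuous fun α => T α n := by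
        rw [hT]; dsimp only
        split_ifs
        · exact continuous_const
        · exact (hec n).abs
      exact this.tendsto α0
    · filter_upwards [hM0, hM1, hM2] with α h0 h1 h2 n
      rw [Real.norm_eq_abs, abs_of_nonneg (hTnn α n)]
      refine (hTle α n).trans ((phi_le_psi b α w0 e1 e2 n).trans ?_)
      apply Finset.sum_le_sum
      intro i _
      apply mul_le_mul_of_nonneg_left _ (abs_nonneg _)
      exact ec_le ((le_abs_self _).trans (h0 i)) ((h1 i).trans (le_max_left _ _))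
        ((h2 i).trans (le_max_right _ _)) n
  have hcont2 : Tendsto (fun α => 1 / 2 * |phi b α w0 e1 e2 (0, k)|) (𝓝 α0)
      (𝓝 (1 / 2 * |phi b α0 w0 e1 e2 (0, k)|)) :=
    (((hec (0, k)).abs).const_mul _ |> fun h => h.tendsto α0)
  have hev := hcont.eventually_lt hcont2 hlt
  filter_upwards [hev] with α hα
  have hN0 : 0 ≤ ∑' n, T α n := tsum_nonneg (hTnn α)
  have hDα : 0 < |phi b α w0 e1 e2 (0, k)| := by linarith
  have hφk : phi b α w0 e1 e2 (0, k) ≠ 0 := abs_pos.mp hDα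
  set φk := phi b α w0 e1 e2 (0, k) with hφkdef
  have hgabs : ∀ n, |if n = (0, k) then 0 else -(phi b α w0 e1 e2 n) / φk| = T α n / |φk| := by
    intro n
    rw [hT]; dsimp only
    split_ifs
    · simp
    · rw [abs_div, abs_neg]
  refine ⟨fun n => if n = (0, k) then 0 else -(phi b α w0 e1 e2 n) / φk, ?_, ?_, ?_⟩
  · simp only [hgabs]
    exact (hTs α).div_const _
  · simp only [hgabs]
    rw [tsum_div_const, div_le_iff₀ hDα]
    exact hα.le
  · intro u v huv
    have h2 := phi_ev b α w0 e1 e2 u v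
    rw [huv] at h2
    have h3 := h2.summable
    -- split off the term
    have h4 : HasSum (fun n => if n = (0, k) then 0 else mon u v n * phi b α w0 e1 e2 n)
        (0 - mon u v (0, k) * φk) := by
      have := h2.sub (hasSum_ite_eq (0, k) (mon u v (0, k) * φk))
      have e : (fun n => if n = (0, k) then 0 else mon u v n * phi b α w0 e1 e2 n) =
          fun n => mon u v n * phi b α w0 e1 e2 n -
            (if n = (0, k) then mon u v (0, k) * φk else 0) := by
        funext n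
        by_cases hn : n = (0, k)
        · rw [if_pos hn, if_pos hn, hn]; ring
        · rw [if_neg hn, if_neg hn, sub_zero]
      rw [e]; exact this
    have h5 := h4.div_const (-φk)
    have h6 : (0 - mon u v (0, k) * φk) / (-φk) = v ^ k := by
      rw [mon]; dsimp only
      field_simp
      ring
    rw [h6] at h5
    rw [← h5.tsum_eq]
    apply tsum_congr
    intro n
    show _ = mon u v n * (if n = (0, k) then 0 else -phi b α w0 e1 e2 n / φk)
    by_cases hn : n = (0, k)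
    · rw [if_pos hn, if_pos hn, zero_div, mul_zero]
    · rw [if_neg hn, if_neg hn]
      field_simp

end Run7.h498
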