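import Pool.Agent.Run7.h498.Trop

set_option autoImplicit false

/-!
# The balancing condition: five solutions
-/

namespace Run7.h498

/-- closeness of six numbers to six values -/
def Cl (p q s p' q' s' e a b c a' b' c' : ℝ) : Prop :=
  (a - e ≤ p ∧ p ≤ a + e) ∧ (b - e ≤ q ∧ q ≤ b + e) ∧ (c - e ≤ s ∧ s ≤ c + e) ∧
  (a' - e ≤ p' ∧ p' ≤ a' + e) ∧ (b' - e ≤ q' ∧ q' ≤ b' + e) ∧ (c' - e ≤ s' ∧ s' ≤ c' + e)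

/-- the five solutions of the balancing condition -/
def Five (p q s p' q' s' e : ℝ) : Prop :=
  Cl p q s p' q' s' e 1 1 1 0 (-1) (-2) ∨
  Cl p q s p' q' s' e (-1) 0 (-2) 1 1 1 ∨
  Cl p q s p' q' s' e (-1/2) 0 (-1/2) 0 (-1/2) (-1/2) ∨
  Cl p q s p' q' s' e 0 (-1) 0 (-1) 0 0 ∨
  Cl p q s p' q' s' e (-2) 0 (-1) 0 (-2) (-1)

lemma comb {p q s p' q' s' p'' q'' s'' d N N' θ : ℝ} (hd : 0 ≤ d) (hd1 : d ≤ 1 / 100)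
    (hθ : 0 ≤ θ) (hθ1 : θ ≤ (N + N') / 100)
    (h0 : T0 p q s d N) (h1 : T1 p' q' s' d N') (h2 : T2 p'' q'' s'' d)
    (e1 : |p + p' + p''| ≤ θ) (e2 : |q + q' + q''| ≤ θ) (e3 : |s + s' + s''| ≤ θ) :
    N + N' ≤ 10 ∧ Five p q s p' q' s' (10 * (d + θ)) := by
  unfold T1 at h1
  unfold T0 at h0 h1
  unfold T2 at h2
  simp only [abs_le] at h0 h1 h2 e1 e2 e3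
  obtain ⟨e1, e1'⟩ := e1
  obtain ⟨e2, e2'⟩ := e2
  obtain ⟨e3, e3'⟩ := e3
  rcases h0 with ⟨⟨x1, x2⟩, ⟨x3, x4⟩, x5, x6⟩ | ⟨⟨x1, x2⟩, ⟨x3, x4⟩, x5, x6⟩ |
    ⟨⟨x1, x2⟩, ⟨x3, x4⟩, x5, x7, x6⟩ | ⟨⟨x1, x2⟩, ⟨x3, x4⟩, x5, x6⟩ |
    ⟨⟨x1, x2⟩, ⟨x3, x4⟩, x5, x6⟩ <;>
  rcases h1 with ⟨⟨y1, y2⟩, ⟨y3, y4⟩, y5, y6⟩ | ⟨⟨y1, y2⟩, ⟨y3, y4⟩, y5, y6⟩ |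
    ⟨⟨y1, y2⟩, ⟨y3, y4⟩, y5, y7, y6⟩ | ⟨⟨y1, y2⟩, ⟨y3, y4⟩, y5, y6⟩ |
    ⟨⟨y1, y2⟩, ⟨y3, y4⟩, y5, y6⟩ <;>
  rcases h2 with ⟨⟨z1, z2⟩, ⟨z3, z4⟩, z5⟩ | ⟨⟨z1, z2⟩, ⟨z3, z4⟩, z5⟩ |
    ⟨⟨z1, z2⟩, ⟨z3, z4⟩, z5, z7⟩ | ⟨⟨z1, z2⟩, ⟨z3, z4⟩, z5⟩ | ⟨⟨z1, z2⟩, ⟨z3, z4⟩, z5⟩ <;>
  first
  | (exfalso; linarith)
  | (refine ⟨by linarith, ?_⟩
     unfold Five Cl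
     first
     | (refine Or.inl ⟨⟨?_, ?_⟩, ⟨?_, ?_⟩, ⟨?_, ?_⟩, ⟨?_, ?_⟩, ⟨?_, ?_⟩, ⟨?_, ?_⟩⟩ <;> linarith)
     | (refine Or.inr (Or.inl ⟨⟨?_, ?_⟩, ⟨?_, ?_⟩, ⟨?_, ?_⟩, ⟨?_, ?_⟩, ⟨?_, ?_⟩, ⟨?_, ?_⟩⟩) <;> linarith)
     | (refine Or.inr (Or.inr (Or.inl ⟨⟨?_, ?_⟩, ⟨?_, ?_⟩, ⟨?_, ?_⟩, ⟨?_, ?_⟩, ⟨?_, ?_⟩, ⟨?_, ?_⟩⟩)) <;> linarith)
     | (refine Or.inr (Or.inr (Or.inr (Or.inl ⟨⟨?_, ?_⟩, ⟨?_, ?_⟩, ⟨?_, ?_⟩, ⟨?_, ?_⟩, ⟨?_, ?_⟩, ⟨?_, ?_⟩⟩))) <;> linarith)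
     | (refine Or.inr (Or.inr (Or.inr (Or.inr ⟨⟨?_, ?_⟩, ⟨?_, ?_⟩, ⟨?_, ?_⟩, ⟨?_, ?_⟩, ⟨?_, ?_⟩, ⟨?_, ?_⟩⟩))) <;> linarith))

end Run7.h498
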