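import Pool.Agent.Run7.h498.Box

set_option autoImplicit false

/-!
# Finitely many boxes
-/

namespace Run7.h498

open Filter Topology

lemma dt_abs_le (a w : ℝ × ℝ) : |dt a w| ≤ (|w.1| + |w.2|) * (|a.1| + |a.2|) := by
  rw [dt]
  refine (abs_add_le _ _).trans ?_
  rw [abs_mul, abs_mul]
  have := abs_nonneg a.1
  have := abs_nonneg a.2
  have := abs_nonneg w.1
  have := abs_nonneg w.2
  nlinarith [mul_nonneg (abs_nonneg a.1) (abs_nonneg w.2), mul_nonneg (abs_nonneg a.2) (abs_nonneg w.1)]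

lemma cramer {a b c d x y : ℝ} (h : a * d - b * c ≠ 0) :
    (x * d - y * c) / (a * d - b * c) * a + (a * y - b * x) / (a * d - b * c) * c = x ∧
    (x * d - y * c) / (a * d - b * c) * b + (a * y - b * x) / (a * d - b * c) * d = y := by
  obtain ⟨D, hD⟩ : ∃ D, D = a * d - b * c := ⟨_, rfl⟩
  rw [← hD] at h ⊢
  constructor
  · field_simp
    rw [hD]; ring
  · field_simp
    rw [hD]; ring

theorem cover {P : Type} [TopologicalSpace P] (𝒜 : Set P) (h𝒜 : IsCompact 𝒜)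
    {I : Type} [Fintype I] (b : I → ℝ) (α : P → I → ℝ × ℝ) (hα : Continuous α)
    (hne : ∀ A ∈ 𝒜, ∃ w, Phi b (α A) w ≠ 0) (R : ℝ) :
    ∃ (J : Type) (_ : Fintype J) (k0 : ℕ) (C1 : ℝ), 0 ≤ C1 ∧ ∀ A ∈ 𝒜,
      ∃ c : J → ℝ × ℝ → ℕ × ℕ → ℝ,
      (∀ j a, (Summable fun n => |c j a n|) ∧
        ∑' n, |c j a n| ≤ 2 * Real.exp (C1 * (|a.1| + |a.2|))) ∧
      (∀ j a n, k0 ≤ n.2 → c j a n = 0) ∧
      ∀ w : ℝ × ℝ, |w.1| ≤ R → |w.2| ≤ R → Phi b (α A) w = 0 →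
        ∃ (j : J) (u v : ℝ), |u| ≤ 1 / 2 ∧ |v| ≤ 1 ∧
          ∀ a, Real.exp (dt a w) = ∑' n, mon u v n * c j a n := by
  classical
  set K : Set (P × (ℝ × ℝ)) := 𝒜 ×ˢ (Set.Icc (-R) R ×ˢ Set.Icc (-R) R) with hK
  have hKc : IsCompact K := h𝒜.prod (isCompact_Icc.prod isCompact_Icc)
  have hbox : ∀ x : P × (ℝ × ℝ), ∃ (e1 e2 : ℝ × ℝ) (k : ℕ), x ∈ K →
      e1.1 * e2.2 - e1.2 * e2.1 ≠ 0 ∧
      ∀ᶠ α' in 𝓝 (α x.1), ∃ g : ℕ × ℕ → ℝ, (Summable fun n => |g n|) ∧ ∑' n, |g n| ≤ 1 / 2 ∧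
        ∀ u v : ℝ, Phi b α' (x.2 + u • e1 + v • e2) = 0 → v ^ k = ∑' n, mon u v n * g n := by
    intro x
    by_cases hx : x ∈ K
    · obtain ⟨w1, hw1⟩ := hne x.1 hx.1
      obtain ⟨e1, e2, k, h1, h2⟩ := box b (α x.1) x.2 w1 hw1
      exact ⟨e1, e2, k, fun _ => ⟨h1, h2⟩⟩
    · exact ⟨0, 0, 0, fun h => absurd h hx⟩
  choose e1 e2 k hx using hbox
  -- the coordinates
  set cu : P × (ℝ × ℝ) → ℝ × ℝ → ℝ := fun x w =>
    ((w - x.2).1 * (e2 x).2 - (w - x.2).2 * (e2 x).1) / ((e1 x).1 * (e2 x).2 - (e1 x).2 * (e2 x).1)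
    with hcu
  set cv : P × (ℝ × ℝ) → ℝ × ℝ → ℝ := fun x w =>
    ((e1 x).1 * (w - x.2).2 - (e1 x).2 * (w - x.2).1) / ((e1 x).1 * (e2 x).2 - (e1 x).2 * (e2 x).1)
    with hcv
  have hcoord : ∀ x ∈ K, ∀ w, w = x.2 + cu x w • e1 x + cv x w • e2 x := by
    intro x hxK w
    have hd := (hx x hxK).1
    have hcr := cramer (x := (w - x.2).1) (y := (w - x.2).2) hd
    apply Prod.ext
    · rw [hcu, hcv]
      simp only [Prod.fst_add, Prod.smul_fst, smul_eq_mul]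
      rw [add_assoc, hcr.1, Prod.fst_sub]; ring
    · rw [hcu, hcv]
      simp only [Prod.snd_add, Prod.smul_snd, smul_eq_mul]
      rw [add_assoc, hcr.2, Prod.snd_sub]; ring
  set U : P × (ℝ × ℝ) → Set (P × (ℝ × ℝ)) := fun x =>
    {z | (∃ g : ℕ × ℕ → ℝ, (Summable fun n => |g n|) ∧ ∑' n, |g n| ≤ 1 / 2 ∧
        ∀ u v : ℝ, Phi b (α z.1) (x.2 + u • e1 x + v • e2 x) = 0 →
          v ^ (k x) = ∑' n, mon u v n * g n) ∧ |cu x z.2| ≤ 1 / 2 ∧ |cv x z.2| ≤ 1} with hU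
  have hUn : ∀ x ∈ K, U x ∈ 𝓝 x := by
    intro x hxK
    obtain ⟨hd, hev⟩ := hx x hxK
    have h1 : ∀ᶠ z : P × (ℝ × ℝ) in 𝓝 x, ∃ g : ℕ × ℕ → ℝ, (Summable fun n => |g n|) ∧
        ∑' n, |g n| ≤ 1 / 2 ∧
        ∀ u v : ℝ, Phi b (α z.1) (x.2 + u • e1 x + v • e2 x) = 0 →
          v ^ (k x) = ∑' n, mon u v n * g n := by
      have : Tendsto (fun z : P × (ℝ × ℝ) => α z.1) (𝓝 x) (𝓝 (α x.1)) :=
        (hα.comp continuous_fst).tendsto x
      exact this.eventually hev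
    have h2 : ∀ᶠ z : P × (ℝ × ℝ) in 𝓝 x, |cu x z.2| ≤ 1 / 2 := by
      have hc : Continuous fun z : P × (ℝ × ℝ) => |cu x z.2| := by
        rw [hcu]; dsimp only
        fun_prop
      have h0 : |cu x x.2| < 1 / 2 := by
        rw [hcu]; simp
      exact ((hc.tendsto x).eventually (gt_mem_nhds h0)).mono fun _ h => h.le
    have h3 : ∀ᶠ z : P × (ℝ × ℝ) in 𝓝 x, |cv x z.2| ≤ 1 := by
      have hc : Continuous fun z : P × (ℝ × ℝ) => |cv x z.2| := by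
        rw [hcv]; dsimp only
        fun_prop
      have h0 : |cv x x.2| < 1 := by
        rw [hcv]; simp
      exact ((hc.tendsto x).eventually (gt_mem_nhds h0)).mono fun _ h => h.le
    filter_upwards [h1, h2, h3] with z a1 a2 a3
    exact ⟨a1, a2, a3⟩
  obtain ⟨t, htK, ht⟩ := hKc.elim_nhds_subcover U hUn
  -- the constants
  set k0 : ℕ := ∑ x ∈ t, k x with hk0
  have hk0' : ∀ x ∈ t, k x ≤ k0 := fun x hx => Finset.single_le_sum (f := k) (fun _ _ => Nat.zero_le _) hx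
  set nb : P × (ℝ × ℝ) → ℝ := fun x => (|x.2.1| + |x.2.2|) + (|(e1 x).1| + |(e1 x).2|) +
    (|(e2 x).1| + |(e2 x).2|) with hnb
  have hnb0 : ∀ x, 0 ≤ nb x := fun x => by rw [hnb]; positivity
  set C1 : ℝ := ∑ x ∈ t, nb x with hC1
  have hC1' : ∀ x ∈ t, nb x ≤ C1 := fun x hx => Finset.single_le_sum (f := nb) (fun x _ => hnb0 x) hx
  have hC10 : 0 ≤ C1 := Finset.sum_nonneg fun x _ => hnb0 x
  refine ⟨{x // x ∈ t}, inferInstance, k0, C1, hC10, fun A hA => ?_⟩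
  -- the coefficients
  have hcoef : ∀ (j : {x // x ∈ t}) (a : ℝ × ℝ), ∃ c : ℕ × ℕ → ℝ, (Summable fun n => |c n|) ∧
      ∑' n, |c n| ≤ 2 * Real.exp (C1 * (|a.1| + |a.2|)) ∧ (∀ n : ℕ × ℕ, k0 ≤ n.2 → c n = 0) ∧
      ∀ w, (A, w) ∈ U j.1 → Phi b (α A) w = 0 →
        Real.exp (dt a w) = ∑' n, mon (cu j.1 w) (cv j.1 w) n * c n := by
    rintro ⟨x, hxt⟩ a
    have hxK := htK x hxt
    by_cases hg : ∃ g : ℕ × ℕ → ℝ, (Summable fun n => |g n|) ∧ ∑' n, |g n| ≤ 1 / 2 ∧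
        ∀ u v : ℝ, Phi b (α A) (x.2 + u • e1 x + v • e2 x) = 0 →
          v ^ (k x) = ∑' n, mon u v n * g n
    · obtain ⟨g, hg1, hg2, hg3⟩ := hg
      have hf := ec_abs_hasSum (dt a x.2) (dt a (e1 x)) (dt a (e2 x))
      obtain ⟨c, hc1, hc2, hc3, hc4⟩ := reduce (k x) g hg1 hg2
        (ec (dt a x.2) (dt a (e1 x)) (dt a (e2 x))) hf.summable
      refine ⟨c, hc1, hc2.trans ?_, fun n hn => hc3 n ((hk0' x hxt).trans hn), ?_⟩
      · rw [hf.tsum_eq]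
        apply mul_le_mul_of_nonneg_left _ (by norm_num)
        apply Real.exp_le_exp.mpr
        have h1 := (le_abs_self _).trans (dt_abs_le a x.2)
        have h2 := dt_abs_le a (e1 x)
        have h3 := dt_abs_le a (e2 x)
        have h4 : nb x * (|a.1| + |a.2|) ≤ C1 * (|a.1| + |a.2|) :=
          mul_le_mul_of_nonneg_right (hC1' x hxt) (by positivity)
        refine le_trans (le_of_eq_of_le rfl ?_) h4
        have h5 : nb x * (|a.1| + |a.2|) = (|x.2.1| + |x.2.2|) * (|a.1| + |a.2|) +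
          (|(e1 x).1| + |(e1 x).2|) * (|a.1| + |a.2|) +
          (|(e2 x).1| + |(e2 x).2|) * (|a.1| + |a.2|) := by rw [hnb]; ring
        rw [h5]
        linarith
      · intro w hw hΦ
        obtain ⟨-, hu, hv⟩ := hw
        dsimp only at hu hv
        have hw' := hcoord x hxK w
        have hΦ' : Phi b (α A) (x.2 + cu x w • e1 x + cv x w • e2 x) = 0 := by
          rw [← hw']; exact hΦ
        have h1 := hc4 (cu x w) (cv x w) (hu.trans (by norm_num)) hv (hg3 _ _ hΦ')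
        rw [← h1, (ec_ev _ _ _ _ _).tsum_eq]
        congr 1
        conv_lhs => rw [hw', dt_add, dt_add, dt_smul, dt_smul]
    · refine ⟨fun _ => 0, ?_, ?_, fun _ _ => rfl, ?_⟩
      · simp only [abs_zero]; exact summable_zero
      · simp only [abs_zero, tsum_zero]; positivity
      · intro w hw _
        exact absurd hw.1 hg
  choose c hc1 hc2 hc3 hc4 using hcoef
  refine ⟨c, fun j a => ⟨hc1 j a, hc2 j a⟩, hc3, ?_⟩
  intro w hw1 hw2 hΦ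
  have hmem : (A, w) ∈ K := ⟨hA, abs_le.mp hw1, abs_le.mp hw2⟩
  have h1 := ht hmem
  rw [Set.mem_iUnion₂] at h1
  obtain ⟨x, hxt, hxU⟩ := h1
  refine ⟨⟨x, hxt⟩, cu x w, cv x w, hxU.2.1, hxU.2.2, fun a => hc4 ⟨x, hxt⟩ a w hxU hΦ⟩

end Run7.h498
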