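import Pool.Agent.Run7.h498.Fin
import Pool.Agent.Run7.h498.BHQ
import Pool.Agent.Y740.Z.Main

set_option autoImplicit false

/-!
# The points on a curve
-/

namespace Run7.h498

open Polynomial Real NumberField Height Module Pool.Agent.Y740 Pool.Agent.Y740.G
open Pool.Agent.Y740.Z (ev FewZeros)

/-- the points of a curve, by the results of the starting tree -/
theorem curve_case (A : Fin 5 → Qb[X][X]) (hA : ∀ l, (A l).coeff 0 ≠ 0) (B : ℝ) :
    ∃ (U : Finset (Fin 5 → ℤ)) (S' : Finset Qb), (∀ u ∈ U, u ≠ 0) ∧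
      ∀ s ∉ S', ∀ x : Fin 5 → Qb, (∀ l, ev (A l) s (x l) = 0) → HasRelations x 3 →
        NumberField.absLogHeight₁ s ≤ B → (∀ l, NumberField.absLogHeight₁ (x l) ≤ B) →
        ∃ u ∈ U, ∏ l, x l ^ u l = 1 := by
  obtain ⟨hC, hAr, -⟩ := Pool.Agent.Y740.Z.all
  obtain ⟨U, S, C, hU0, hfew, -⟩ := hC Qb (Fin 5) A hA
  obtain ⟨S', hS'⟩ := hAr A hA U S C hfew B
  exact ⟨U, S', hU0, fun s hs x hx hrel hh hh' => hS' s hs x hx hrel hh hh'⟩

section ev
variable {k : Type} [Field k]

lemma ev_add {L : Type} [Field L] [Algebra k L] (A B : k[X][X]) (s y : L) :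
    ev (A + B) s y = ev A s y + ev B s y := Polynomial.eval₂_add _ _

lemma ev_sub {L : Type} [Field L] [Algebra k L] (A B : k[X][X]) (s y : L) :
    ev (A - B) s y = ev A s y - ev B s y := Polynomial.eval₂_sub _

lemma ev_mul {L : Type} [Field L] [Algebra k L] (A B : k[X][X]) (s y : L) :
    ev (A * B) s y = ev A s y * ev B s y := Polynomial.eval₂_mul _ _

lemma ev_pow {L : Type} [Field L] [Algebra k L] (A : k[X][X]) (n : ℕ) (s y : L) :
    ev (A ^ n) s y = ev A s y ^ n := Polynomial.eval₂_pow _ _ _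

lemma ev_C {L : Type} [Field L] [Algebra k L] (c : k[X]) (s y : L) :
    ev (C c : k[X][X]) s y = aeval s c := Polynomial.eval₂_C _ _

lemma ev_X {L : Type} [Field L] [Algebra k L] (s y : L) :
    ev (X : k[X][X]) s y = y := Polynomial.eval₂_X _ _

lemma ev_comp {L : Type} [Field L] [Algebra k L] (A B : k[X][X]) (s y : L) :
    ev (A.comp B) s y = ev A s (ev B s y) := by
  rw [ev, ev, ev, Polynomial.eval₂_comp]

lemma ev_sum {L : Type} [Field L] [Algebra k L] {ι : Type} (S : Finset ι) (A : ι → k[X][X])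
    (s y : L) : ev (∑ i ∈ S, A i) s y = ∑ i ∈ S, ev (A i) s y := by
  rw [ev, Polynomial.eval₂_finsetSum]; rfl

lemma lin_coeff (c : k[X]) (hc : c ≠ 0) : (X - C c : k[X][X]).coeff 0 ≠ 0 := by
  rw [coeff_zero_eq_eval_zero, eval_sub, eval_X, eval_C, zero_sub]
  exact neg_ne_zero.mpr hc

lemma lin_ev {L : Type} [Field L] [Algebra k L] (c : k[X]) (s y : L) (h : aeval s c = y) :
    ev (X - C c : k[X][X]) s y = 0 := by
  rw [ev_sub, ev_X, ev_C, h, sub_self]

lemma one_sub_X_ne : (1 - X : k[X]) ≠ 0 := by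
  intro h
  have := congrArg (fun p : k[X] => p.coeff 1) h
  simp [coeff_one] at this

lemma C_sub_X_ne (c : k) : (C c - X : k[X]) ≠ 0 := by
  intro h
  have := congrArg (fun p : k[X] => p.coeff 1) h
  simp at this

/-- remove a root -/
lemma split_root (P : k[X][X]) (hP : P ≠ 0) (c : k[X]) : ∃ Q : k[X][X], Q.eval c ≠ 0 ∧
    ∀ (L : Type) [Field L] [Algebra k L] (s y : L), ev P s y = 0 → y ≠ aeval s c →
      ev Q s y = 0 := by
  obtain ⟨Q, hQ, hnd⟩ := exists_eq_pow_rootMultiplicity_mul_and_not_dvd P hP c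
  refine ⟨Q, fun h => hnd (dvd_iff_isRoot.mpr h), ?_⟩
  intro L _ _ s y h hy
  rw [hQ, ev_mul, ev_pow, ev_sub, ev_X, ev_C] at h
  exact (mul_eq_zero.mp h).resolve_left (pow_ne_zero _ (sub_ne_zero.mpr hy))

end ev

/-- the polynomial in two variables -/
noncomputable def polyQ {N : ℕ} (a : Fin (N + 1) × Fin (N + 1) → ℤ) : Qb[X][X] :=
  ∑ i, C (C (a i : Qb) * X ^ (i.1 : ℕ)) * X ^ (i.2 : ℕ)

lemma ev_polyQ {N : ℕ} (a : Fin (N + 1) × Fin (N + 1) → ℤ) (x y : Qb) :
    ev (polyQ a) x y = polyv a x y := by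
  rw [polyQ, ev_sum, polyv]
  apply Finset.sum_congr rfl
  intro i _
  rw [ev_mul, ev_C, ev_pow, ev_X]
  simp [mul_assoc]

lemma polyQ_ne_zero {N : ℕ} (a : Fin (N + 1) × Fin (N + 1) → ℤ) (ha : a ≠ 0) : polyQ a ≠ 0 := by
  intro h
  apply ha
  funext j
  have h1 := congrArg (fun P : Qb[X][X] => (P.coeff (j.2 : ℕ)).coeff (j.1 : ℕ)) h
  simp only [polyQ, finsetSum_coeff, coeff_C_mul, coeff_X_pow, coeff_zero] at h1
  rw [Finset.sum_eq_single j] at h1
  · simpa using h1
  · intro i _ hij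
    by_cases h2 : (j.2 : ℕ) = i.2
    · by_cases h3 : (j.1 : ℕ) = i.1
      · exact absurd (Prod.ext (Fin.ext h3.symm) (Fin.ext h2.symm)) hij
      · simp [h2, coeff_X_pow, h3]
    · simp [h2]
  · intro h'; exact absurd (Finset.mem_univ j) h'

/-- the coordinates of the point on the translate -/
def crdG {F : Type} [Field F] (g : Fin 5 → F) (x y : F) : Fin 5 → F := fun l => g l * crdM x y l

/-- scaling the variable -/
noncomputable def scl (g : Qb) (P : Qb[X][X]) : Qb[X][X] := P.comp (C (C g⁻¹) * X)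

lemma scl_coeff (g : Qb) (P : Qb[X][X]) (h : P.coeff 0 ≠ 0) : (scl g P).coeff 0 ≠ 0 := by
  rw [scl, coeff_zero_eq_eval_zero, eval_comp]
  simpa [← coeff_zero_eq_eval_zero] using h

lemma scl_ev (g : Qb) (hg : g ≠ 0) (P : Qb[X][X]) (s z : Qb) (h : ev P s z = 0) :
    ev (scl g P) s (g * z) = 0 := by
  rw [scl, ev_comp, ev_mul, ev_C, ev_X]
  have : aeval s (C g⁻¹ : Qb[X]) * (g * z) = z := by
    simp [hg]
  rw [this, h]

/-- the points on one curve -/
theorem per_curve (g : Fin 5 → Qb) (hg : ∀ j, g j ≠ 0) (P : Qb[X][X]) (hP : P ≠ 0) (B : ℝ) :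
    ∃ U : Finset (Fin 5 → ℤ), (∀ u ∈ U, u ≠ 0) ∧ ∀ x y : Qb, x ≠ 0 → x ≠ 1 → y ≠ 0 → y ≠ 1 →
      x ≠ y → ev P x y = 0 → HasRelations (crdG g x y) 3 →
      NumberField.absLogHeight₁ x ≤ B → NumberField.absLogHeight₁ y ≤ B →
      (∀ l, NumberField.absLogHeight₁ (crdG g x y l) ≤ B) →
      ∃ u ∈ U, ∏ l, crdG g x y l ^ u l = 1 := by
  classical
  obtain ⟨Q0, hQ0, hQ0'⟩ := split_root P hP 0
  obtain ⟨Q1, hQ1, hQ1'⟩ := split_root P hP 1
  obtain ⟨Qs, hQs, hQs'⟩ := split_root P hP X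
  -- the curve
  set A : Fin 5 → Qb[X][X] := fun l => scl (g l)
    (![X - C X, X - C (1 - X), Q0, Q1.comp (C 1 - X), Qs.comp (C X - X)] l) with hA
  have hA0 : ∀ l, (A l).coeff 0 ≠ 0 := by
    intro l
    rw [hA]
    apply scl_coeff
    fin_cases l
    · exact lin_coeff X X_ne_zero
    · exact lin_coeff (1 - X) one_sub_X_ne
    · show Q0.coeff 0 ≠ 0
      rw [coeff_zero_eq_eval_zero]; exact hQ0
    · show (Q1.comp (C 1 - X)).coeff 0 ≠ 0
      rw [coeff_zero_eq_eval_zero, eval_comp, eval_sub, eval_C, eval_X, sub_zero]; exact hQ1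
    · show (Qs.comp (C X - X)).coeff 0 ≠ 0
      rw [coeff_zero_eq_eval_zero, eval_comp, eval_sub, eval_C, eval_X, sub_zero]; exact hQs
  obtain ⟨U1, S1, hU1, h1⟩ := curve_case A hA0 B
  -- the vertical lines
  have hline : ∀ s0 : Qb, ∃ (U : Finset (Fin 5 → ℤ)) (S' : Finset Qb), (∀ u ∈ U, u ≠ 0) ∧
      (s0 ≠ 0 → s0 ≠ 1 → ∀ y ∉ S', HasRelations (crdG g s0 y) 3 →
        NumberField.absLogHeight₁ y ≤ B →
        (∀ l, NumberField.absLogHeight₁ (crdG g s0 y l) ≤ B) →
        ∃ u ∈ U, ∏ l, crdG g s0 y l ^ u l = 1) := by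
    intro s0
    by_cases hs0 : s0 = 0 ∨ s0 = 1
    · exact ⟨∅, ∅, by simp, fun h h' => by rcases hs0 with h0 | h0 <;> contradiction⟩
    · push Not at hs0
      set A' : Fin 5 → Qb[X][X] := fun l => scl (g l)
        (![X - C (C s0), X - C (C (1 - s0)), X - C X, X - C (1 - X), X - C (C s0 - X)] l) with hA'
      have hA0' : ∀ l, (A' l).coeff 0 ≠ 0 := by
        intro l
        rw [hA']
        apply scl_coeff
        fin_cases l
        · exact lin_coeff (C s0) (C_ne_zero.mpr hs0.1)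
        · exact lin_coeff (C (1 - s0)) (C_ne_zero.mpr (sub_ne_zero.mpr hs0.2.symm))
        · exact lin_coeff X X_ne_zero
        · exact lin_coeff (1 - X) one_sub_X_ne
        · exact lin_coeff (C s0 - X) (C_sub_X_ne s0)
      obtain ⟨U2, S2, hU2, h2⟩ := curve_case A' hA0' B
      refine ⟨U2, S2, hU2, fun _ _ y hy hrel hh hh' => ?_⟩
      refine h2 y hy (crdG g s0 y) (fun l => ?_) hrel hh hh'
      rw [hA']
      apply scl_ev _ (hg l)
      fin_cases l
      · exact lin_ev (C s0) y s0 (by simp)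
      · exact lin_ev (C (1 - s0)) y (1 - s0) (by simp)
      · exact lin_ev X y y (by simp)
      · exact lin_ev (1 - X) y (1 - y) (by simp)
      · exact lin_ev (C s0 - X) y (s0 - y) (by simp)
  choose U2 S2 hU2 h2 using hline
  -- the remaining points
  set W : Qb → Qb → (Fin 5 → ℤ) := fun s0 y =>
    if h : ∃ u : Fin 5 → ℤ, u ≠ 0 ∧ ∏ l, crdG g s0 y l ^ u l = 1 then h.choose else fun _ => 1
    with hW
  have hW0 : ∀ s0 y, W s0 y ≠ 0 := by
    intro s0 y
    rw [hW]
    dsimp only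
    split_ifs with h
    · exact h.choose_spec.1
    · intro h0
      have := congrFun h0 0
      simp at this
  refine ⟨U1 ∪ (S1.biUnion U2 ∪ S1.biUnion fun s0 => (S2 s0).image (W s0)), ?_, ?_⟩
  · intro u hu
    rw [Finset.mem_union, Finset.mem_union, Finset.mem_biUnion, Finset.mem_biUnion] at hu
    rcases hu with hu | ⟨s0, -, hu⟩ | ⟨s0, -, hu⟩
    · exact hU1 u hu
    · exact hU2 s0 u hu
    · obtain ⟨y, -, rfl⟩ := Finset.mem_image.mp hu
      exact hW0 s0 y
  · intro x y hx0 hx1 hy0 hy1 hxy hPxy hrel hhx hhy hh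
    by_cases hxS : x ∈ S1
    · by_cases hyS : y ∈ S2 x
      · refine ⟨W x y, ?_, ?_⟩
        · rw [Finset.mem_union, Finset.mem_union, Finset.mem_biUnion, Finset.mem_biUnion]
          exact Or.inr (Or.inr ⟨x, hxS, Finset.mem_image_of_mem _ hyS⟩)
        · have hex : ∃ u : Fin 5 → ℤ, u ≠ 0 ∧ ∏ l, crdG g x y l ^ u l = 1 := by
            obtain ⟨u, hu, hr⟩ := hrel
            exact ⟨u 0, hu.ne_zero 0, hr 0⟩
          rw [hW]
          dsimp only
          rw [dif_pos hex]
          exact hex.choose_spec.2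
      · obtain ⟨u, hu, h⟩ := h2 x hx0 hx1 y hyS hrel hhy hh
        refine ⟨u, ?_, h⟩
        rw [Finset.mem_union, Finset.mem_union, Finset.mem_biUnion, Finset.mem_biUnion]
        exact Or.inr (Or.inl ⟨x, hxS, hu⟩)
    · obtain ⟨u, hu, h⟩ := h1 x hxS (crdG g x y) (fun l => by
        rw [hA]
        apply scl_ev _ (hg l)
        fin_cases l
        · exact lin_ev X x x (by simp)
        · exact lin_ev (1 - X) x (1 - x) (by simp)
        · exact hQ0' Qb x y hPxy (by simpa using hy0)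
        · show ev (Q1.comp (C 1 - X)) x (1 - y) = 0
          rw [ev_comp, ev_sub, ev_C, ev_X]
          have : aeval x (1 : Qb[X]) - (1 - y) = y := by simp
          rw [this]
          exact hQ1' Qb x y hPxy (by simpa using hy1)
        · show ev (Qs.comp (C X - X)) x (x - y) = 0
          rw [ev_comp, ev_sub, ev_C, ev_X]
          have : aeval x (X : Qb[X]) - (x - y) = y := by simp
          rw [this]
          exact hQs' Qb x y hPxy (by simpa using hxy.symm)) hrel hhx hh
      exact ⟨u, Finset.mem_union_left _ hu, h⟩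

/-- the data of a translate: the logarithms of the absolute values of the conjugates of `g` -/
noncomputable def gam (g : Fin 5 → Qb) (ρ : ∀ j, (minpoly ℚ (g j)).rootSet ℂ) (j : Fin 5) : ℝ :=
  log ‖(ρ j : ℂ)‖

/-- The points over the algebraic numbers. -/
theorem alg_points (g : Fin 5 → Qb) (hg : ∀ j, g j ≠ 0)
    (hne : ∀ ρ, ∀ A ∈ orthoSet, ∃ w, CMp (rw5 A (gam g ρ) w) ≠ 0) :
    ∃ U : Finset (Fin 5 → ℤ), (∀ u ∈ U, u ≠ 0) ∧ ∀ x y : Qb, x ≠ 0 → x ≠ 1 → y ≠ 0 → y ≠ 1 →
      x ≠ y → HasRelations (crdG g x y) 3 → ∃ u ∈ U, ∏ l, crdG g x y l ^ u l = 1 := by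
  classical
  obtain ⟨C, hC⟩ := bh
  set H : ℝ := ∑ j, NumberField.absLogHeight₁ (g j) with hH
  have hH0 : ∀ j, NumberField.absLogHeight₁ (g j) ≤ H := fun j =>
    Finset.single_le_sum (f := fun j => NumberField.absLogHeight₁ (g j))
      (fun j _ => ht_nonneg (g j)) (Finset.mem_univ j)
  set B : ℝ := |C| * (1 + H) + H with hB
  have hHnn : 0 ≤ H := Finset.sum_nonneg fun j _ => ht_nonneg (g j)
  have hB0 : 0 ≤ B := by positivity
  obtain ⟨N, X, hNX⟩ := fin_curves (G := ∀ j, (minpoly ℚ (g j)).rootSet ℂ) (gam g) hne B hB0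
  -- the finite set of polynomials
  set F : Finset (Fin (N + 1) × Fin (N + 1) → ℤ) :=
    (Fintype.piFinset fun _ => Finset.Icc (-(X : ℤ)) X).filter fun a => a ≠ 0 with hF
  have hper : ∀ a : Fin (N + 1) × Fin (N + 1) → ℤ, ∃ U : Finset (Fin 5 → ℤ), (∀ u ∈ U, u ≠ 0) ∧
      (a ≠ 0 → ∀ x y : Qb, x ≠ 0 → x ≠ 1 → y ≠ 0 → y ≠ 1 →
      x ≠ y → ev (polyQ a) x y = 0 → HasRelations (crdG g x y) 3 →
      NumberField.absLogHeight₁ x ≤ 3 * B + 1 → NumberField.absLogHeight₁ y ≤ 3 * B + 1 →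
      (∀ l, NumberField.absLogHeight₁ (crdG g x y l) ≤ 3 * B + 1) →
      ∃ u ∈ U, ∏ l, crdG g x y l ^ u l = 1) := by
    intro a
    by_cases ha : a = 0
    · exact ⟨∅, by simp, fun h => absurd ha h⟩
    · obtain ⟨U, h1, h2⟩ := per_curve g hg (polyQ a) (polyQ_ne_zero a ha) (3 * B + 1)
      exact ⟨U, h1, fun _ => h2⟩
  choose U hU0 hU using hper
  refine ⟨F.biUnion U, ?_, ?_⟩
  · intro u hu
    obtain ⟨a, -, h⟩ := Finset.mem_biUnion.mp hu
    exact hU0 a u h
  intro x y hx0 hx1 hy0 hy1 hxy hrel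
  have hht := hC x y g hx0 hx1 hy0 hy1 hxy hg hrel
  have hxn := ht_nonneg x
  have hyn := ht_nonneg y
  have hCH : C * (1 + H) ≤ |C| * (1 + H) := mul_le_mul_of_nonneg_right (le_abs_self C) (by positivity)
  have hxB : NumberField.absLogHeight₁ x ≤ B := by linarith
  have hyB : NumberField.absLogHeight₁ y ≤ B := by linarith
  have hl2 : log 2 ≤ 1 := by
    have := Real.log_two_lt_d9
    linarith
  have hone : NumberField.absLogHeight₁ (1 : Qb) = 0 := by
    have := ht_zpow (1 : Qb) 0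
    simpa using this
  have hcrd : ∀ l, NumberField.absLogHeight₁ (crdG g x y l) ≤ 3 * B + 1 := by
    intro l
    have h1 := ht_mul (g l) (crdM x y l)
    have h2 := hH0 l
    have h3 : NumberField.absLogHeight₁ (crdM x y l) ≤
        1 + NumberField.absLogHeight₁ x + NumberField.absLogHeight₁ y := by
      fin_cases l
      · show NumberField.absLogHeight₁ x ≤ _
        linarith
      · show NumberField.absLogHeight₁ (1 - x) ≤ _
        have := ht_sub 1 x
        rw [hone] at this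
        linarith
      · show NumberField.absLogHeight₁ y ≤ _
        linarith
      · show NumberField.absLogHeight₁ (1 - y) ≤ _
        have := ht_sub 1 y
        rw [hone] at this
        linarith
      · show NumberField.absLogHeight₁ (x - y) ≤ _
        have := ht_sub x y
        linarith
    show NumberField.absLogHeight₁ (g l * crdM x y l) ≤ _
    linarith
  -- the number field
  obtain ⟨K, hK, hG, hmem⟩ := exists_galois ({x, y} ∪ Set.range g)
    ((by simp : ({x, y} : Set _).Finite).union (Set.finite_range g))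
  have hn := finrank_pos' K
  let xK : K := ⟨x, hmem _ (by simp)⟩
  let yK : K := ⟨y, hmem _ (by simp)⟩
  let gK : Fin 5 → K := fun j => ⟨g j, hmem _ (by simp)⟩
  have inj := (algebraMap K Qb).injective
  have e1 : NumberField.absLogHeight₁ x = logHeight₁ xK / finrank ℚ K :=
    ht_eq (algebraMap K Qb) xK
  have e2 : NumberField.absLogHeight₁ y = logHeight₁ yK / finrank ℚ K :=
    ht_eq (algebraMap K Qb) yK
  have e3 : ∀ j, NumberField.absLogHeight₁ (g j) = logHeight₁ (gK j) / finrank ℚ K := fun j =>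
    ht_eq (algebraMap K Qb) (gK j)
  have hgB : ∀ j, NumberField.absLogHeight₁ (g j) ≤ B := fun j => by
    have := hH0 j
    have : 0 ≤ |C| * (1 + H) := by positivity
    linarith
  obtain ⟨a, ha0, haX, ha⟩ := hNX K xK yK gK (fun h => hx0 (congrArg (algebraMap K Qb) h))
    (fun h => hx1 (congrArg (algebraMap K Qb) h)) (fun h => hy0 (congrArg (algebraMap K Qb) h))
    (fun h => hy1 (congrArg (algebraMap K Qb) h)) (fun h => hxy (congrArg (algebraMap K Qb) h))
    (fun j h => hg j (congrArg (algebraMap K Qb) h)) (by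
      obtain ⟨u, hu, hr⟩ := hrel
      refine ⟨u, hu, fun k => ?_⟩
      apply inj
      rw [map_one, ← hr k, map_prod]
      apply Finset.prod_congr rfl
      intro l _
      rw [map_zpow₀, map_mul, crdG]
      congr 2
      fin_cases l <;> simp [crdM] <;> rfl)
    (by rw [e1, div_le_iff₀ hn] at hxB; exact hxB)
    (by rw [e2, div_le_iff₀ hn] at hyB; exact hyB)
    (fun j => by
      have := hgB j
      rw [e3, div_le_iff₀ hn] at this; exact this)
    (by
      intro φ
      refine ⟨fun j => ⟨φ (gK j), ?_⟩, fun j => rfl⟩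
      rw [Polynomial.mem_rootSet]
      constructor
      · exact minpoly.ne_zero (Algebra.IsIntegral.isIntegral (g j))
      · have h1 : aeval (gK j) (minpoly ℚ (g j)) = 0 := by
          apply inj
          rw [map_zero, ← Polynomial.aeval_algebraMap_apply]
          exact minpoly.aeval ℚ (g j)
        have h2 : aeval (φ (gK j)) (minpoly ℚ (g j)) = φ (aeval (gK j) (minpoly ℚ (g j))) := by
          rw [Polynomial.aeval_def, Polynomial.aeval_def, Polynomial.hom_eval₂]
          congr 1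
          exact Subsingleton.elim _ _
        rw [h2, h1, map_zero])
  have haF : a ∈ F := by
    rw [hF, Finset.mem_filter, Fintype.mem_piFinset]
    refine ⟨fun i => ?_, ha0⟩
    have h1 := abs_le.mp (haX i)
    rw [Finset.mem_Icc]
    constructor
    · exact_mod_cast h1.1
    · exact_mod_cast h1.2
  have hev : ev (polyQ a) x y = 0 := by
    rw [ev_polyQ]
    have h1 := congrArg (algebraMap K Qb) ha
    rw [map_zero, map_polyv] at h1
    exact h1
  obtain ⟨u, hu, h⟩ := hU a ha0 x y hx0 hx1 hy0 hy1 hxy hev hrel (by linarith) (by linarith) hcrd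
  exact ⟨u, Finset.mem_biUnion.mpr ⟨a, haF, hu⟩, h⟩

end Run7.h498
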