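import Pool.Agent.Run7.h498.Plane
import Pool.Agent.Run7.h498.BH
import Pool.Agent.Y740.Liouville

set_option autoImplicit false

/-!
# The points lie on finitely many curves
-/

namespace Run7.h498

open NumberField Height Real Module Filter Pool.Agent.Y740

section
variable {K : Type} [Field K] [NumberField K]

/-- the value of a polynomial in two variables -/
def polyv {F : Type} [Field F] {N : ℕ} (a : Fin (N + 1) × Fin (N + 1) → ℤ) (x y : F) : F :=
  ∑ i, (a i : F) * (x ^ (i.1 : ℕ) * y ^ (i.2 : ℕ))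

lemma map_polyv {F G : Type} [Field F] [Field G] (φ : F →+* G) {N : ℕ}
    (a : Fin (N + 1) × Fin (N + 1) → ℤ) (x y : F) : φ (polyv a x y) = polyv a (φ x) (φ y) := by
  simp [polyv, map_sum, map_mul, map_pow]

lemma polyv_arch {N : ℕ} (a : Fin (N + 1) × Fin (N + 1) → ℤ) (X : ℝ)
    (ha : ∀ i, |(a i : ℝ)| ≤ X) (x y : ℂ) :
    ‖polyv a x y‖ ≤ ((N : ℝ) + 1) ^ 2 * X * Real.exp (N * (log⁺ ‖x‖ + log⁺ ‖y‖)) := by
  have hX : 0 ≤ X := (abs_nonneg _).trans (ha (0, 0))
  rw [polyv]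
  refine (norm_sum_le _ _).trans ?_
  calc ∑ i : Fin (N + 1) × Fin (N + 1), ‖(a i : ℂ) * (x ^ (i.1 : ℕ) * y ^ (i.2 : ℕ))‖
      ≤ ∑ _i : Fin (N + 1) × Fin (N + 1), X * Real.exp (N * (log⁺ ‖x‖ + log⁺ ‖y‖)) := by
        apply Finset.sum_le_sum
        intro i _
        rw [norm_mul, norm_mul, norm_pow, norm_pow, Complex.norm_intCast, mul_add, Real.exp_add]
        apply mul_le_mul (ha i) _ (by positivity) hX
        exact mul_le_mul (pow_le_exp_posLog (norm_nonneg _) (Nat.lt_succ_iff.mp i.1.2))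
          (pow_le_exp_posLog (norm_nonneg _) (Nat.lt_succ_iff.mp i.2.2)) (by positivity)
          (by positivity)
    _ = _ := by
        rw [Finset.sum_const, Finset.card_univ, Fintype.card_prod, Fintype.card_fin, nsmul_eq_mul]
        push_cast; ring

lemma polyv_fin {N : ℕ} (a : Fin (N + 1) × Fin (N + 1) → ℤ) (x y : K) (v : FinitePlace K) :
    v (polyv a x y) ≤ Real.exp (N * (log⁺ (v x) + log⁺ (v y))) := by
  rw [polyv]
  apply fin_sum_le v _ _ _ (Real.exp_pos _).le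
  intro i _
  rw [map_mul, map_mul, map_pow, map_pow, mul_add, Real.exp_add]
  calc v (a i : K) * (v x ^ (i.1 : ℕ) * v y ^ (i.2 : ℕ)) ≤
      1 * (Real.exp (N * log⁺ (v x)) * Real.exp (N * log⁺ (v y))) := by
        apply mul_le_mul (fin_int_le v _) _ (by
          have := apply_nonneg v x; have := apply_nonneg v y; positivity) zero_le_one
        exact mul_le_mul (pow_le_exp_posLog (apply_nonneg v x) (Nat.lt_succ_iff.mp i.1.2))
          (pow_le_exp_posLog (apply_nonneg v y) (Nat.lt_succ_iff.mp i.2.2)) (by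
          have := apply_nonneg v y; positivity) (by positivity)
    _ = _ := one_mul _

lemma polyv_fin_total {N : ℕ} (a : Fin (N + 1) × Fin (N + 1) → ℤ) (x y : K)
    (h : polyv a x y ≠ 0) :
    ∑ᶠ v : FinitePlace K, log (v (polyv a x y)) ≤ N * (Fp x + Fp y) := by
  have e2 : N * (Fp x + Fp y) = ∑ᶠ v : FinitePlace K,
      (N : ℝ) * (log⁺ (v x) + log⁺ (v y)) := by
    rw [Fp, Fp, ← finsum_add_distrib (supp_posLog x) (supp_posLog y), mul_finsum]
  rw [e2]
  apply finsum_le_finsum'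
  · refine supp_finite h _ fun v hv => ?_
    rw [hv, log_one]
  · have h1 : (Function.support fun v : FinitePlace K =>
        (log⁺ (v x) + log⁺ (v y))).Finite :=
      ((supp_posLog x).union (supp_posLog y)).subset (Function.support_add _ _)
    refine h1.subset ?_
    intro v hv
    rw [Function.mem_support] at hv ⊢
    intro h0
    apply hv
    rw [h0, mul_zero]
  · intro v
    have h1 := polyv_fin a x y v
    have h2 : 0 < v (polyv a x y) := FinitePlace.pos_iff.mpr h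
    exact (Real.log_le_iff_le_exp h2).mpr h1

/-- The polynomial vanishes, if it is small at half of the embeddings. -/
lemma polyv_zero {N : ℕ} (a : Fin (N + 1) × Fin (N + 1) → ℤ) (X : ℝ) (hX : 0 < X)
    (ha : ∀ i, |(a i : ℝ)| ≤ X) (x y : K) (B κ : ℝ) (hκ : 0 ≤ κ)
    (hx : logHeight₁ x ≤ B * finrank ℚ K) (hy : logHeight₁ y ≤ B * finrank ℚ K)
    (good : Finset (K →+* ℂ)) (hgood : (finrank ℚ K : ℝ) ≤ 2 * good.card)
    (hsmall : ∀ φ ∈ good, ‖polyv a (φ x) (φ y)‖ ≤ Real.exp (-κ * N))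
    (hN : log (((N : ℝ) + 1) ^ 2 * X) + 2 * B * N < κ * N / 2) (hlog : 0 ≤ log (((N : ℝ) + 1) ^ 2 * X)) :
    polyv a x y = 0 := by
  classical
  by_contra h
  have hpf := product_formula_log h
  have hfin := polyv_fin_total a x y h
  have hd : (0 : ℝ) < finrank ℚ K := by exact_mod_cast (finrank_pos : 0 < finrank ℚ K)
  have hb : ∀ φ : K →+* ℂ, log ‖φ (polyv a x y)‖ ≤
      log (((N : ℝ) + 1) ^ 2 * X) + N * (log⁺ ‖φ x‖ + log⁺ ‖φ y‖) := by
    intro φ
    have h1 := polyv_arch a X ha (φ x) (φ y)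
    rw [← map_polyv] at h1
    have h2 : 0 < ‖φ (polyv a x y)‖ := norm_pos_iff.mpr ((map_ne_zero φ).mpr h)
    have h3 := Real.log_le_log h2 h1
    rwa [Real.log_mul (by positivity) (Real.exp_pos _).ne', Real.log_exp] at h3
  have hg : ∀ φ ∈ good, log ‖φ (polyv a x y)‖ ≤ -κ * N := by
    intro φ hφ
    have h1 := hsmall φ hφ
    rw [← map_polyv] at h1
    have h2 : 0 < ‖φ (polyv a x y)‖ := norm_pos_iff.mpr ((map_ne_zero φ).mpr h)
    exact (Real.log_le_iff_le_exp h2).mpr h1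
  have hsum : ∑ φ : K →+* ℂ, log ‖φ (polyv a x y)‖ ≤
      ∑ φ : K →+* ℂ, (log (((N : ℝ) + 1) ^ 2 * X) + N * (log⁺ ‖φ x‖ + log⁺ ‖φ y‖)) -
        good.card * (κ * N) := by
    rw [← Finset.sum_add_sum_compl good (fun φ => log ‖φ (polyv a x y)‖),
      ← Finset.sum_add_sum_compl good
        (fun φ => log (((N : ℝ) + 1) ^ 2 * X) + N * (log⁺ ‖φ x‖ + log⁺ ‖φ y‖))]
    have h1 : ∑ φ ∈ good, log ‖φ (polyv a x y)‖ ≤ ∑ φ ∈ good,
        ((log (((N : ℝ) + 1) ^ 2 * X) + N * (log⁺ ‖φ x‖ + log⁺ ‖φ y‖)) - κ * N) := by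
      apply Finset.sum_le_sum
      intro φ hφ
      have h2 := hg φ hφ
      have h3 : 0 ≤ (N : ℝ) * (log⁺ ‖φ x‖ + log⁺ ‖φ y‖) :=
        mul_nonneg (Nat.cast_nonneg _) (add_nonneg posLog_nonneg posLog_nonneg)
      linarith
    rw [Finset.sum_sub_distrib, Finset.sum_const, nsmul_eq_mul] at h1
    have h2 : ∑ φ ∈ goodᶜ, log ‖φ (polyv a x y)‖ ≤ ∑ φ ∈ goodᶜ,
        (log (((N : ℝ) + 1) ^ 2 * X) + N * (log⁺ ‖φ x‖ + log⁺ ‖φ y‖)) :=
      Finset.sum_le_sum fun φ _ => hb φ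
    linarith
  rw [Finset.sum_add_distrib, Finset.sum_const, Finset.card_univ, NumberField.Embeddings.card,
    nsmul_eq_mul, ← Finset.mul_sum, Finset.sum_add_distrib] at hsum
  rw [logHeight₁_emb] at hx hy
  have h5 : (N : ℝ) * (∑ φ : K →+* ℂ, log⁺ ‖φ x‖ + ∑ φ : K →+* ℂ, log⁺ ‖φ y‖) +
      N * (Fp x + Fp y) ≤ N * (2 * B * finrank ℚ K) := by
    rw [← mul_add]
    apply mul_le_mul_of_nonneg_left _ (Nat.cast_nonneg _)
    linarith
  have h6 : (finrank ℚ K : ℝ) * (κ * N / 2) ≤ good.card * (κ * N) := by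
    have : 0 ≤ κ * N := by positivity
    nlinarith
  have h7 : (finrank ℚ K : ℝ) * (log (((N : ℝ) + 1) ^ 2 * X) + 2 * B * N) <
      finrank ℚ K * (κ * N / 2) := mul_lt_mul_of_pos_left hN hd
  nlinarith

end

/-- The points lie on finitely many curves. -/
theorem fin_curves {G : Type} [Fintype G] (γ : G → Fin 5 → ℝ)
    (hne : ∀ g, ∀ A ∈ orthoSet, ∃ w, CMp (rw5 A (γ g) w) ≠ 0) (B : ℝ) (hB : 0 ≤ B) :
    ∃ N X : ℕ, ∀ (K : Type) [Field K] [NumberField K] (x y : K) (g : Fin 5 → K),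
      x ≠ 0 → x ≠ 1 → y ≠ 0 → y ≠ 1 → x ≠ y → (∀ j, g j ≠ 0) →
      HasRelations (fun l => g l * crdM x y l) 3 →
      logHeight₁ x ≤ B * finrank ℚ K → logHeight₁ y ≤ B * finrank ℚ K →
      (∀ j, logHeight₁ (g j) ≤ B * finrank ℚ K) →
      (∀ φ : K →+* ℂ, ∃ i, ∀ j, γ i j = log ‖φ (g j)‖) →
      ∃ a : Fin (N + 1) × Fin (N + 1) → ℤ, a ≠ 0 ∧ (∀ i, |(a i : ℝ)| ≤ X) ∧ polyv a x y = 0 := by
  classical
  set κ : ℝ := 4 * B + 4 with hκ
  set R : ℝ := 4 * (11 * B + 3) with hR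
  have hR0 : 0 < R := by positivity
  obtain ⟨X, hX⟩ := auxM γ orthoSet orthoSet_compact hne R κ (by positivity)
  have hev : ∀ᶠ N : ℕ in atTop, log (((N : ℝ) + 1) ^ 2 * (X + 1)) ≤ N := by
    filter_upwards [ev_exp (X + 1)] with N hN
    rw [Real.log_le_iff_le_exp (by positivity)]
    refine le_trans ?_ hN
    have : ((N : ℝ) + 1) ^ 2 ≤ ((N : ℝ) + 1) ^ 3 :=
      pow_le_pow_right₀ (by linarith [(Nat.cast_nonneg N : (0 : ℝ) ≤ N)]) (by norm_num)
    have h2 : (0 : ℝ) ≤ X + 1 := by positivity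
    nlinarith
  obtain ⟨N, hN1, hN2, hN3⟩ := (hX.and (hev.and (eventually_ge_atTop 1))).exists
  have hN3' : (1 : ℝ) ≤ N := by exact_mod_cast hN3
  refine ⟨N, X, fun K _ _ x y g hx0 hx1 hy0 hy1 hxy hg hrel hhx hhy hhg hγ => ?_⟩
  obtain ⟨U, hU, hrel⟩ := hrel
  obtain ⟨A, hA, hbasis⟩ := exists_basis U hU
  obtain ⟨a, ha0, haX, ha⟩ := hN1 A hA
  refine ⟨a, ha0, haX, ?_⟩
  have hx1' : 1 - x ≠ 0 := sub_ne_zero.mpr hx1.symm
  have hy1' : 1 - y ≠ 0 := sub_ne_zero.mpr hy1.symm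
  have hxy' : x - y ≠ 0 := sub_ne_zero.mpr hxy
  have hcr : ∀ l, crdM x y l ≠ 0 := by
    intro l; fin_cases l
    · exact hx0
    · exact hx1'
    · exact hy0
    · exact hy1'
    · exact hxy'
  have hd : (0 : ℝ) < finrank ℚ K := by exact_mod_cast (finrank_pos : 0 < finrank ℚ K)
  -- the logarithms
  set Λ : (K →+* ℂ) → Fin 5 → ℝ := fun φ l => log ‖φ (g l * crdM x y l)‖ with hΛ
  have hΛrel : ∀ φ k, ∑ l, (U k l : ℝ) * Λ φ l = 0 := fun φ k =>
    rel_emb _ (fun l => mul_ne_zero (hg l) (hcr l)) (U k) (hrel k) φ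
  -- the total
  have htot : ∑ φ : K →+* ℂ, ∑ l, |Λ φ l| ≤ 2 * (11 * B + 3) * finrank ℚ K := by
    have hl2 : log 2 ≤ 1 := by
      have := Real.log_two_lt_d9
      linarith
    have hld : (finrank ℚ K : ℝ) * log 2 ≤ finrank ℚ K := by nlinarith
    rw [Finset.sum_comm]
    have h1 : ∀ l, ∑ φ : K →+* ℂ, |Λ φ l| ≤ 2 * (logHeight₁ (g l) + logHeight₁ (crdM x y l)) := by
      intro l
      refine (abs_log_emb_le (mul_ne_zero (hg l) (hcr l))).trans ?_
      have := ht_mul' (g l) (crdM x y l)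
      linarith
    refine (Finset.sum_le_sum fun l _ => h1 l).trans ?_
    rw [Fin.sum_univ_five]
    have g0 := hhg 0; have g1 := hhg 1; have g2 := hhg 2; have g3 := hhg 3; have g4 := hhg 4
    have c0 : logHeight₁ (crdM x y 0) ≤ B * finrank ℚ K := hhx
    have c1 : logHeight₁ (crdM x y 1) ≤ finrank ℚ K + B * finrank ℚ K := by
      have := ht_sub' 1 x
      rw [logHeight₁_one] at this
      have e : crdM x y 1 = 1 - x := rfl
      rw [e]; linarith
    have c2 : logHeight₁ (crdM x y 2) ≤ B * finrank ℚ K := hhy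
    have c3 : logHeight₁ (crdM x y 3) ≤ finrank ℚ K + B * finrank ℚ K := by
      have := ht_sub' 1 y
      rw [logHeight₁_one] at this
      have e : crdM x y 3 = 1 - y := rfl
      rw [e]; linarith
    have c4 : logHeight₁ (crdM x y 4) ≤ finrank ℚ K + 2 * (B * finrank ℚ K) := by
      have := ht_sub' x y
      have e : crdM x y 4 = x - y := rfl
      rw [e]; linarith
    linarith
  -- the good embeddings
  set good : Finset (K →+* ℂ) := Finset.univ.filter fun φ => ∑ l, |Λ φ l| ≤ R with hgood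
  have hcard : (finrank ℚ K : ℝ) ≤ 2 * good.card := by
    have h1 : ∑ φ ∈ goodᶜ, R ≤ ∑ φ : K →+* ℂ, ∑ l, |Λ φ l| := by
      refine (Finset.sum_le_sum (g := fun φ => ∑ l, |Λ φ l|) fun φ hφ => ?_).trans
        (Finset.sum_le_sum_of_subset_of_nonneg (Finset.subset_univ _) fun φ _ _ =>
          Finset.sum_nonneg fun l _ => abs_nonneg _)
      rw [hgood, Finset.mem_compl, Finset.mem_filter] at hφ
      push Not at hφ
      exact (hφ (Finset.mem_univ φ)).le
    rw [Finset.sum_const, nsmul_eq_mul] at h1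
    have h2 : (goodᶜ.card : ℝ) * R ≤ R / 2 * finrank ℚ K := by
      refine h1.trans (htot.trans (le_of_eq ?_))
      rw [hR]; ring
    have h3 : (goodᶜ.card : ℝ) ≤ finrank ℚ K / 2 := by
      have h4 : (goodᶜ.card : ℝ) * R ≤ (finrank ℚ K / 2) * R := by linarith
      exact le_of_mul_le_mul_right h4 hR0
    have h4 : (good.card : ℝ) + goodᶜ.card = finrank ℚ K := by
      have := Finset.card_add_card_compl good
      rw [NumberField.Embeddings.card] at this
      exact_mod_cast this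
    linarith
  apply polyv_zero a (X + 1) (by positivity) (fun i => (haX i).trans (by linarith)) x y B κ
    (by positivity) hhx hhy good hcard
  · intro φ hφ
    rw [hgood, Finset.mem_filter] at hφ
    obtain ⟨w, hw, hw1, hw2⟩ := hbasis (Λ φ) (hΛrel φ)
    obtain ⟨i, hi⟩ := hγ φ
    apply ha i w (φ x) (φ y) (hw1.trans hφ.2) (hw2.trans hφ.2)
    funext l
    have h1 : log ‖φ (crdM x y l)‖ = dt (A l) w - γ i l := by
      have h2 := hw l
      rw [hΛ] at h2
      dsimp only at h2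
      rw [map_mul, norm_mul, Real.log_mul (norm_ne_zero_iff.mpr ((map_ne_zero φ).mpr (hg l)))
        (norm_ne_zero_iff.mpr ((map_ne_zero φ).mpr (hcr l)))] at h2
      rw [hi]; linarith
    have h3 : rr (φ x) (φ y) l = ‖φ (crdM x y l)‖ ^ 2 := by
      rw [← Complex.normSq_eq_norm_sq]
      fin_cases l <;> simp [rr, crdM]
    rw [h3, rw5]
    have h4 : 2 * dt (A l) w - 2 * γ i l = 2 * log ‖φ (crdM x y l)‖ := by rw [h1]; ring
    rw [h4]
    have h5 : 0 < ‖φ (crdM x y l)‖ := norm_pos_iff.mpr ((map_ne_zero φ).mpr (hcr l))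
    rw [two_mul, Real.exp_add, Real.exp_log h5]; ring
  · have h1 : κ * N / 2 = 2 * B * N + 2 * N := by rw [hκ]; ring
    rw [h1]
    linarith
  · apply Real.log_nonneg
    have h1 : (1 : ℝ) ≤ ((N : ℝ) + 1) ^ 2 := by nlinarith
    have h2 : (0 : ℝ) ≤ X := Nat.cast_nonneg X
    nlinarith

end Run7.h498
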