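import Pool.Agent.Run7.h498.Loc
import Pool.Agent.Y740.Point

set_option autoImplicit false

/-!
# Heights: finite sums over the places
-/

namespace Run7.h498

open NumberField Height Real Module Pool.Agent.Y740

section places

variable {K : Type} [Field K] [NumberField K]

/-- the embeddings and finitely many finite places -/
abbrev Pl (S : Finset (FinitePlace K)) : Type := (K →+* ℂ) ⊕ {w : FinitePlace K // w ∈ S}

variable {S : Finset (FinitePlace K)}

/-- the logarithm of the absolute value -/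
noncomputable def lg (v : Pl S) (z : K) : ℝ :=
  match v with
  | Sum.inl φ => log ‖φ z‖
  | Sum.inr w => log (w.1 z)

/-- the defect of the ultrametric inequality -/
noncomputable def kp (v : Pl S) : ℝ :=
  match v with
  | Sum.inl _ => log 2
  | Sum.inr _ => 0

lemma kp_nonneg (v : Pl S) : 0 ≤ kp v := by
  rcases v with φ | w
  · exact Real.log_nonneg (by norm_num)
  · exact le_refl _

lemma sum_kp : ∑ v : Pl S, kp v = finrank ℚ K * log 2 := by
  rw [Fintype.sum_sum_type]
  simp only [kp, Finset.sum_const_zero, add_zero, Finset.sum_const, Finset.card_univ,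
    NumberField.Embeddings.card, nsmul_eq_mul]

lemma lg_mul (v : Pl S) {x y : K} (hx : x ≠ 0) (hy : y ≠ 0) : lg v (x * y) = lg v x + lg v y := by
  rcases v with φ | w
  · simp only [lg, map_mul, norm_mul]
    exact Real.log_mul (norm_ne_zero_iff.mpr ((map_ne_zero φ).mpr hx))
      (norm_ne_zero_iff.mpr ((map_ne_zero φ).mpr hy))
  · simp only [lg, map_mul]
    exact Real.log_mul (FinitePlace.pos_iff.mpr hx).ne' (FinitePlace.pos_iff.mpr hy).ne'

lemma lg_inv (v : Pl S) (x : K) : lg v x⁻¹ = -lg v x := by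
  rcases v with φ | w
  · simp only [lg, map_inv₀, norm_inv, Real.log_inv]
  · simp only [lg, map_inv₀, Real.log_inv]

lemma lg_div (v : Pl S) {x y : K} (hx : x ≠ 0) (hy : y ≠ 0) : lg v (x / y) = lg v x - lg v y := by
  rw [div_eq_mul_inv, lg_mul v hx (inv_ne_zero hy), lg_inv]; ring

lemma lg_one (v : Pl S) : lg v (1 : K) = 0 := by
  rcases v with φ | w <;> simp [lg]

lemma lg_neg (v : Pl S) (x : K) : lg v (-x) = lg v x := by
  rcases v with φ | w
  · simp only [lg, map_neg, norm_neg]
  · simp only [lg]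
    congr 1
    exact w.1.1.map_neg x

lemma lg_pow (v : Pl S) (x : K) (n : ℕ) : lg v (x ^ n) = n * lg v x := by
  rcases v with φ | w
  · simp only [lg, map_pow, norm_pow, Real.log_pow]
  · simp only [lg, map_pow, Real.log_pow]

lemma lg_zpow (v : Pl S) (x : K) (n : ℤ) : lg v (x ^ n) = n * lg v x := by
  rcases v with φ | w
  · simp only [lg, map_zpow₀, norm_zpow, Real.log_zpow]
  · simp only [lg, map_zpow₀, Real.log_zpow]

lemma lg_prod (v : Pl S) {ι : Type} (s : Finset ι) (x : ι → K) (hx : ∀ i, x i ≠ 0) :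
    lg v (∏ i ∈ s, x i) = ∑ i ∈ s, lg v (x i) := by
  classical
  induction s using Finset.induction_on with
  | empty => simp [lg_one]
  | insert a s ha ih =>
    rw [Finset.prod_insert ha, Finset.sum_insert ha, lg_mul v (hx a)
      (Finset.prod_ne_zero_iff.mpr fun i _ => hx i), ih]

lemma lg_add_le (v : Pl S) {x y : K} (hx : x ≠ 0) (hy : y ≠ 0) (hxy : x + y ≠ 0) :
    lg v (x + y) ≤ max (lg v x) (lg v y) + kp v := by
  rcases v with φ | w
  · simp only [lg, kp]
    have h0 : 0 < ‖φ (x + y)‖ := norm_pos_iff.mpr ((map_ne_zero φ).mpr hxy)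
    have h1 : 0 < ‖φ x‖ := norm_pos_iff.mpr ((map_ne_zero φ).mpr hx)
    have h2 : 0 < ‖φ y‖ := norm_pos_iff.mpr ((map_ne_zero φ).mpr hy)
    have h3 : ‖φ (x + y)‖ ≤ max ‖φ x‖ ‖φ y‖ * 2 := by
      rw [map_add]
      have := norm_add_le (φ x) (φ y)
      have := le_max_left ‖φ x‖ ‖φ y‖
      have := le_max_right ‖φ x‖ ‖φ y‖
      linarith
    have h4 := Real.log_le_log h0 h3
    rw [Real.log_mul (lt_max_of_lt_left h1).ne' (by norm_num)] at h4
    have h5 : log (max ‖φ x‖ ‖φ y‖) ≤ max (log ‖φ x‖) (log ‖φ y‖) := by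
      rcases le_total ‖φ x‖ ‖φ y‖ with h | h
      · rw [max_eq_right h]; exact le_max_right _ _
      · rw [max_eq_left h]; exact le_max_left _ _
    linarith
  · simp only [lg, kp, add_zero]
    have h0 : 0 < w.1 (x + y) := FinitePlace.pos_iff.mpr hxy
    have h3 := FinitePlace.add_le w.1 x y
    have h4 := Real.log_le_log h0 h3
    refine h4.trans ?_
    rcases le_total (w.1 x) (w.1 y) with h | h
    · rw [max_eq_right h]; exact le_max_right _ _
    · rw [max_eq_left h]; exact le_max_left _ _

/-- the triple condition for `x + y = z` -/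
lemma lg_tri (v : Pl S) {x y z : K} (hx : x ≠ 0) (hy : y ≠ 0) (hz : z ≠ 0) (h : x + y = z) :
    Tri (lg v x) (lg v y) (lg v z) (kp v) := by
  apply Tri.of_max
  · have h1 : -y + z = x := by rw [← h]; ring
    have := lg_add_le v (neg_ne_zero.mpr hy) hz (by rw [h1]; exact hx)
    rwa [h1, lg_neg] at this
  · have h1 : -x + z = y := by rw [← h]; ring
    have := lg_add_le v (neg_ne_zero.mpr hx) hz (by rw [h1]; exact hy)
    rwa [h1, lg_neg] at this
  · have := lg_add_le v hx hy (by rw [h]; exact hz)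
    rwa [h] at this
  · exact kp_nonneg v

/-- a nonzero number with trivial absolute values outside `S` -/
def SU (S : Finset (FinitePlace K)) (z : K) : Prop := z ≠ 0 ∧ ∀ w : FinitePlace K, w ∉ S → w z = 1

lemma SU.mul {x y : K} (hx : SU S x) (hy : SU S y) : SU S (x * y) :=
  ⟨mul_ne_zero hx.1 hy.1, fun w hw => by rw [map_mul, hx.2 w hw, hy.2 w hw, one_mul]⟩

lemma SU.inv {x : K} (hx : SU S x) : SU S x⁻¹ :=
  ⟨inv_ne_zero hx.1, fun w hw => by rw [map_inv₀, hx.2 w hw, inv_one]⟩

lemma SU.div {x y : K} (hx : SU S x) (hy : SU S y) : SU S (x / y) := by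
  rw [div_eq_mul_inv]; exact hx.mul hy.inv

lemma SU.pow {x : K} (hx : SU S x) (n : ℕ) : SU S (x ^ n) :=
  ⟨pow_ne_zero n hx.1, fun w hw => by rw [map_pow, hx.2 w hw, one_pow]⟩

lemma exists_SU (l : List K) (hl : ∀ z ∈ l, z ≠ 0) : ∃ S : Finset (FinitePlace K), ∀ z ∈ l, SU S z := by
  classical
  induction l with
  | nil => exact ⟨∅, fun z hz => by simp at hz⟩
  | cons a l ih =>
    obtain ⟨S, hS⟩ := ih fun z hz => hl z (List.mem_cons_of_mem _ hz)
    have ha : a ≠ 0 := hl a List.mem_cons_self
    refine ⟨S ∪ (fin_supp ha).toFinset, fun z hz => ?_⟩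
    rcases List.mem_cons.mp hz with rfl | hz
    · refine ⟨ha, fun w hw => ?_⟩
      by_contra hne
      exact hw (Finset.mem_union_right _ ((Set.Finite.mem_toFinset _).mpr hne))
    · exact ⟨(hS z hz).1, fun w hw => (hS z hz).2 w fun h => hw (Finset.mem_union_left _ h)⟩

lemma finsum_SU {z : K} (hz : SU S z) (g : ℝ → ℝ) (hg : g 1 = 0) :
    ∑ᶠ w : FinitePlace K, g (w z) = ∑ w : {w : FinitePlace K // w ∈ S}, g (w.1 z) := by
  rw [finsum_eq_sum_of_support_subset (s := S), ← Finset.sum_coe_sort]
  intro w hw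
  by_contra h
  exact hw (by show g (w z) = 0; rw [hz.2 w h, hg])

lemma sum_lg {z : K} (hz : SU S z) : ∑ v : Pl S, lg v z = 0 := by
  rw [Fintype.sum_sum_type]
  have := product_formula_log hz.1
  rw [finsum_SU hz Real.log Real.log_one] at this
  exact this

lemma sum_max_lg {z : K} (hz : SU S z) : ∑ v : Pl S, max 0 (lg v z) = logHeight₁ z := by
  rw [Fintype.sum_sum_type, logHeight₁_emb, Fp, finsum_SU hz posLog (by simp [posLog])]
  rfl

lemma sum_abs_lg {z : K} (hz : SU S z) : ∑ v : Pl S, |lg v z| = 2 * logHeight₁ z := by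
  rw [Fintype.sum_sum_type, ← abs_log_sum hz.1,
    finsum_SU hz (fun t => |Real.log t|) (by simp)]
  rfl

end places

/-! ## Relations and determinants -/

lemma dep (U : Fin 3 → Fin 5 → ℤ) (hU : LinearIndependent ℤ U) (m : Fin 3 → Fin 5 → ℝ)
    (h : ∀ k a, ∑ l, (U k l : ℝ) * m a l = 0) (i : Fin 3 → Fin 5) :
    (Matrix.of fun a b => m a (i b) : Matrix (Fin 3) (Fin 3) ℝ).det = 0 := by
  have hUR := real_indep U hU
  by_contra hdet
  -- the three vectors are independent
  have hm : LinearIndependent ℝ m := by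
    rw [Fintype.linearIndependent_iff]
    intro g hg
    have h1 : Matrix.vecMul g (Matrix.of fun a b => m a (i b)) = 0 := by
      funext b
      have := congrFun hg (i b)
      simpa [Matrix.vecMul, dotProduct, Finset.sum_apply] using this
    have h2 := Matrix.eq_zero_of_vecMul_eq_zero hdet h1
    exact fun a => congrFun h2 a
  -- all six vectors are independent
  have h6 : LinearIndependent ℝ (Sum.elim (fun k j => (U k j : ℝ)) m) := by
    rw [Fintype.linearIndependent_iff]
    intro g hg
    rw [Fintype.sum_sum_type] at hg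
    simp only [Sum.elim_inl, Sum.elim_inr] at hg
    set P : Fin 5 → ℝ := ∑ k, g (Sum.inl k) • (fun j => (U k j : ℝ)) with hP
    set Q : Fin 5 → ℝ := ∑ a, g (Sum.inr a) • m a with hQ
    have hPQ : P ⬝ᵥ Q = 0 := by
      rw [hP, hQ, sum_dotProduct]
      apply Finset.sum_eq_zero
      intro k _
      rw [dotProduct_sum]
      apply Finset.sum_eq_zero
      intro a _
      rw [smul_dotProduct, dotProduct_smul]
      have : (fun j => (U k j : ℝ)) ⬝ᵥ m a = 0 := h k a
      rw [this, smul_zero, smul_zero]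
    have hQP : Q = -P := by
      have : P + Q = 0 := hg
      exact (neg_eq_of_add_eq_zero_right this).symm
    have hP0 : P = 0 := by
      have : P ⬝ᵥ P = 0 := by
        rw [hQP, dotProduct_neg] at hPQ
        linarith
      exact dotProduct_self_eq_zero.mp this
    have hQ0 : Q = 0 := by rw [hQP, hP0, neg_zero]
    have g1 := Fintype.linearIndependent_iff.mp hUR (fun k => g (Sum.inl k)) hP0
    have g2 := Fintype.linearIndependent_iff.mp hm (fun k => g (Sum.inr k)) hQ0
    rintro (k | k)
    · exact g1 k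
    · exact g2 k
  have := h6.fintype_card_le_finrank
  simp at this

lemma dep_det0 (U : Fin 3 → Fin 5 → ℤ) (hU : LinearIndependent ℤ U) {ι : Type} (m : ι → Fin 5 → ℝ)
    (h : ∀ k v, ∑ l, (U k l : ℝ) * m v l = 0) (i j k : Fin 5) (v w x : ι) :
    Det0 (m v i) (m v j) (m v k) (m w i) (m w j) (m w k) (m x i) (m x j) (m x k) := by
  have := dep U hU ![m v, m w, m x] (by
    intro k a
    fin_cases a
    · exact h k v
    · exact h k w
    · exact h k x) ![i, j, k]
  rw [Matrix.det_fin_three] at this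
  unfold Det0
  simp at this
  linarith

end Run7.h498
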