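import Pool.Agent.Run7.h498.Comb

set_option autoImplicit false

/-!
# Three large places determine the plane of the logarithms
-/

namespace Run7.h498

/-- the third coordinate, from the vanishing determinant -/
def Det0 (a b u a' b' u' A B U : ℝ) : Prop :=
  a * (b' * U - u' * B) - b * (a' * U - u' * A) + u * (a' * B - b' * A) = 0

lemma Det0.scale {a b u a' b' u' A B U n n' m : ℝ} (hn : n ≠ 0) (hn' : n' ≠ 0) (hm : m ≠ 0)
    (h : Det0 a b u a' b' u' A B U) :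
    Det0 (a / n) (b / n) (u / n) (a' / n') (b' / n') (u' / n') (A / m) (B / m) (U / m) := by
  unfold Det0 at *
  have : a / n * (b' / n' * (U / m) - u' / n' * (B / m)) -
      b / n * (a' / n' * (U / m) - u' / n' * (A / m)) +
      u / n * (a' / n' * (B / m) - b' / n' * (A / m)) =
      (a * (b' * U - u' * B) - b * (a' * U - u' * A) + u * (a' * B - b' * A)) / (n * n' * m) := by
    field_simp
  rw [this, h, zero_div]

lemma abs_mul_le_of {x y X Y : ℝ} (hx : |x| ≤ X) (hy : |y| ≤ Y) : |x * y| ≤ X * Y := by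
  rw [abs_mul]
  exact mul_le_mul hx hy (abs_nonneg _) ((abs_nonneg _).trans hx)

/-- the balancing condition for three places -/
lemma balance {b u a' u' B U ε N N' : ℝ} (hε : 0 ≤ ε) (hε1 : ε ≤ 1 / 1000)
    (hb : |b| ≤ ε) (ha' : |a'| ≤ ε) (hB : |B - 1| ≤ ε) (hu : |u| ≤ N) (hu' : |u'| ≤ N')
    (h : Det0 (-1) b u a' (-1) u' 1 B U) : |u + u' + U| ≤ 3 * ε * (N + N') := by
  unfold Det0 at h
  have hN : 0 ≤ N := (abs_nonneg _).trans hu
  have hN' : 0 ≤ N' := (abs_nonneg _).trans hu'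
  have h1 : |a' * b| ≤ ε * ε := abs_mul_le_of ha' hb
  have h2 : ε * ε ≤ ε / 1000 := by nlinarith
  have h3 : U * (1 - a' * b) = -(u * (1 + a' * B) + u' * (B + b)) := by linarith
  have h4 : (u + u' + U) * (1 - a' * b) =
      -(u * (a' * b + a' * B)) - u' * (a' * b + (B - 1) + b) := by
    have : (u + u' + U) * (1 - a' * b) = (u + u') * (1 - a' * b) + U * (1 - a' * b) := by ring
    rw [this, h3]; ring
  have h5 : |a' * b + a' * B| ≤ 11 / 10 * ε := by
    have : a' * b + a' * B = a' * b + a' + a' * (B - 1) := by ring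
    rw [this]
    have h6 : |a' * (B - 1)| ≤ ε * ε := abs_mul_le_of ha' hB
    have := abs_add_le (a' * b + a') (a' * (B - 1))
    have := abs_add_le (a' * b) a'
    linarith
  have h6 : |a' * b + (B - 1) + b| ≤ 21 / 10 * ε := by
    have := abs_add_le (a' * b + (B - 1)) b
    have := abs_add_le (a' * b) (B - 1)
    linarith
  have h7 : |(u + u' + U) * (1 - a' * b)| ≤ N * (11 / 10 * ε) + N' * (21 / 10 * ε) := by
    rw [h4]
    have h8 := abs_mul_le_of hu h5
    have h9 := abs_mul_le_of hu' h6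
    have := abs_sub (-(u * (a' * b + a' * B))) (u' * (a' * b + (B - 1) + b))
    rw [abs_neg] at this
    linarith
  have h8 : (9 : ℝ) / 10 ≤ |1 - a' * b| := by
    rw [abs_le] at h1
    rw [abs_of_nonneg (by linarith)]
    linarith
  rw [abs_mul] at h7
  have h9 : |u + u' + U| * (9 / 10) ≤ |u + u' + U| * |1 - a' * b| :=
    mul_le_mul_of_nonneg_left h8 (abs_nonneg _)
  have h10 : 0 ≤ N * ε := mul_nonneg hN hε
  have h11 : 0 ≤ N' * ε := mul_nonneg hN' hε
  nlinarith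

/-- the third coordinate at any place -/
lemma third {b u a' u' A B U ε C z z' : ℝ} (hε : 0 ≤ ε) (hε1 : ε ≤ 1 / 1000)
    (hb : |b| ≤ ε) (ha' : |a'| ≤ ε) (hu : |u - z| ≤ C * ε) (hu' : |u' - z'| ≤ C * ε)
    (hz : |z| ≤ 2) (hz' : |z'| ≤ 2) (hCε : C * ε ≤ 1)
    (h : Det0 (-1) b u a' (-1) u' A B U) : |z * A + z' * B + U| ≤ (C + 10) * ε * (|A| + |B|) * 2 := by
  unfold Det0 at h
  have h1 : |a' * b| ≤ ε * ε := abs_mul_le_of ha' hb
  have h2 : ε * ε ≤ ε / 1000 := by nlinarith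
  have h3 : U * (1 - a' * b) = -(u * (A + a' * B) + u' * (B + b * A)) := by linarith
  have h4 : (z * A + z' * B + U) * (1 - a' * b) =
      -((u - z) * A) - (u' - z') * B - (u * a') * B - (u' * b) * A
        - (a' * b) * (z * A) - (a' * b) * (z' * B) := by
    have : (z * A + z' * B + U) * (1 - a' * b) = (z * A + z' * B) * (1 - a' * b)
      + U * (1 - a' * b) := by ring
    rw [this, h3]; ring
  have hu3 : |u| ≤ 3 := by
    have := abs_add_le (u - z) z
    rw [sub_add_cancel] at this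
    linarith
  have hu3' : |u'| ≤ 3 := by
    have := abs_add_le (u' - z') z'
    rw [sub_add_cancel] at this
    linarith
  have t1 := abs_mul_le_of hu (le_refl |A|)
  have t2 := abs_mul_le_of hu' (le_refl |B|)
  have t3 := abs_mul_le_of (abs_mul_le_of hu3 ha') (le_refl |B|)
  have t4 := abs_mul_le_of (abs_mul_le_of hu3' hb) (le_refl |A|)
  have t5 := abs_mul_le_of h1 (abs_mul_le_of hz (le_refl |A|))
  have t6 := abs_mul_le_of h1 (abs_mul_le_of hz' (le_refl |B|))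
  have hA := abs_nonneg A
  have hB := abs_nonneg B
  have h7 : |(z * A + z' * B + U) * (1 - a' * b)| ≤ (C + 5) * ε * (|A| + |B|) := by
    rw [h4]
    have s1 := abs_sub (-((u - z) * A) - (u' - z') * B - (u * a') * B - (u' * b) * A
        - (a' * b) * (z * A)) ((a' * b) * (z' * B))
    have s2 := abs_sub (-((u - z) * A) - (u' - z') * B - (u * a') * B - (u' * b) * A)
      ((a' * b) * (z * A))
    have s3 := abs_sub (-((u - z) * A) - (u' - z') * B - (u * a') * B) ((u' * b) * A)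
    have s4 := abs_sub (-((u - z) * A) - (u' - z') * B) ((u * a') * B)
    have s5 := abs_sub (-((u - z) * A)) ((u' - z') * B)
    rw [abs_neg] at s5
    have e1 : 0 ≤ ε * |A| := mul_nonneg hε hA
    have e2 : 0 ≤ ε * |B| := mul_nonneg hε hB
    have t5' : |a' * b * (z * A)| ≤ (ε / 1000) * (2 * |A|) :=
      t5.trans (mul_le_mul_of_nonneg_right h2 (by positivity))
    have t6' : |a' * b * (z' * B)| ≤ (ε / 1000) * (2 * |B|) :=
      t6.trans (mul_le_mul_of_nonneg_right h2 (by positivity))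
    nlinarith
  have h8 : (1 : ℝ) / 2 ≤ |1 - a' * b| := by
    rw [abs_le] at h1
    rw [abs_of_nonneg (by linarith)]
    linarith
  rw [abs_mul] at h7
  have h9 : |z * A + z' * B + U| * (1 / 2) ≤ |z * A + z' * B + U| * |1 - a' * b| :=
    mul_le_mul_of_nonneg_left h8 (abs_nonneg _)
  have h10 : 0 ≤ ε * (|A| + |B|) := mul_nonneg hε (by positivity)
  nlinarith

/-- the linear combinations `(p, q, s) = a z + b z'` hold at every place, up to a small error -/
def Typ {ι : Type} (a b p q s : ι → ℝ) (δ : ℝ) (z1 z2 z3 z1' z2' z3' : ℝ) : Prop :=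
  ∀ v, |z1 * a v + z1' * b v + p v| ≤ δ * (|a v| + |b v|) ∧
    |z2 * a v + z2' * b v + q v| ≤ δ * (|a v| + |b v|) ∧
    |z3 * a v + z3' * b v + s v| ≤ δ * (|a v| + |b v|)

/-- one of five types -/
def FiveTyp {ι : Type} (a b p q s : ι → ℝ) (δ : ℝ) : Prop :=
  Typ a b p q s δ 1 1 1 0 (-1) (-2) ∨
  Typ a b p q s δ (-1) 0 (-2) 1 1 1 ∨
  Typ a b p q s δ (-1/2) 0 (-1/2) 0 (-1/2) (-1/2) ∨
  Typ a b p q s δ 0 (-1) 0 (-1) 0 0 ∨
  Typ a b p q s δ (-2) 0 (-1) 0 (-2) (-1)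

lemma T0_bound {p q s d N : ℝ} (hd : 0 ≤ d) (h : T0 p q s d N) :
    |p| ≤ N ∧ |q| ≤ N ∧ |s| ≤ N := by
  unfold T0 at h
  simp only [abs_le] at *
  rcases h with ⟨⟨x1, x2⟩, ⟨x3, x4⟩, x5, x6⟩ | ⟨⟨x1, x2⟩, ⟨x3, x4⟩, x5, x6⟩ |
    ⟨⟨x1, x2⟩, ⟨x3, x4⟩, x5, x7, x6⟩ | ⟨⟨x1, x2⟩, ⟨x3, x4⟩, x5, x6⟩ |
    ⟨⟨x1, x2⟩, ⟨x3, x4⟩, x5, x6⟩ <;>
  refine ⟨⟨?_, ?_⟩, ⟨?_, ?_⟩, ?_, ?_⟩ <;> linarith

/-- Three large places determine the plane of the logarithms, up to five cases. -/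
theorem core {ι : Type} (a b p q s e : ι → ℝ) (ε : ℝ) (hε : 0 < ε) (hε1 : ε ≤ 1 / 10000)
    (t1 : ∀ v, Tri (a v) (b v) 0 (e v)) (t2 : ∀ v, Tri (p v) (q v) 0 (e v))
    (t3 : ∀ v, Tri (s v) (p v) (a v) (e v)) (t4 : ∀ v, Tri (s v) (b v) (q v) (e v))
    (dp : ∀ v w x, Det0 (a v) (b v) (p v) (a w) (b w) (p w) (a x) (b x) (p x))
    (dq : ∀ v w x, Det0 (a v) (b v) (q v) (a w) (b w) (q w) (a x) (b x) (q x))
    (ds : ∀ v w x, Det0 (a v) (b v) (s v) (a w) (b w) (s w) (a x) (b x) (s x))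
    (v0 v1 v2 : ι) (h0 : 0 < -a v0) (h0' : e v0 ≤ ε * -a v0)
    (h1 : 0 < -b v1) (h1' : e v1 ≤ ε * -b v1) (h2 : 0 < a v2) (h2' : e v2 ≤ ε * a v2) :
    FiveTyp a b p q s (3000 * ε) := by
  -- normalised data
  have hk0 : e v0 / -a v0 ≤ ε := by rwa [div_le_iff₀ h0]
  have hk1 : e v1 / -b v1 ≤ ε := by rwa [div_le_iff₀ h1]
  have hk2 : e v2 / a v2 ≤ ε := by rwa [div_le_iff₀ h2]
  have hb0 : |b v0 / -a v0| ≤ ε := by
    have ht := t1 v0
    have h : |b v0| ≤ e v0 := by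
      unfold Tri at ht
      simp only [abs_le] at *
      rcases ht with ⟨⟨x1, x2⟩, x3, x4⟩ | ⟨⟨x1, x2⟩, x3, x4⟩ | ⟨⟨x1, x2⟩, x3, x4⟩
      · exfalso; nlinarith
      · exfalso; nlinarith
      · constructor <;> linarith
    rw [abs_div, abs_of_pos h0, div_le_iff₀ h0]
    linarith
  have ha1 : |a v1 / -b v1| ≤ ε := by
    have ht := t1 v1
    have h : |a v1| ≤ e v1 := by
      unfold Tri at ht
      simp only [abs_le] at *
      rcases ht with ⟨⟨x1, x2⟩, x3, x4⟩ | ⟨⟨x1, x2⟩, x3, x4⟩ | ⟨⟨x1, x2⟩, x3, x4⟩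
      · exfalso; nlinarith
      · constructor <;> linarith
      · exfalso; nlinarith
    rw [abs_div, abs_of_pos h1, div_le_iff₀ h1]
    linarith
  have hb2 : |b v2 / a v2 - 1| ≤ ε := by
    have ht := t1 v2
    have h : |b v2 - a v2| ≤ e v2 := by
      unfold Tri at ht
      simp only [abs_le] at *
      rcases ht with ⟨⟨x1, x2⟩, x3, x4⟩ | ⟨⟨x1, x2⟩, x3, x4⟩ | ⟨⟨x1, x2⟩, x3, x4⟩
      · constructor <;> linarith
      · exfalso; nlinarith
      · constructor <;> nlinarith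
    have e1 : b v2 / a v2 - 1 = (b v2 - a v2) / a v2 := by
      rw [sub_div, div_self h2.ne']
    rw [e1, abs_div, abs_of_pos h2, div_le_iff₀ h2]
    linarith
  have ea0 : a v0 / -a v0 = -1 := by
    rw [div_neg, div_self (by linarith : a v0 ≠ 0)]
  have eb1 : b v1 / -b v1 = -1 := by
    rw [div_neg, div_self (by linarith : b v1 ≠ 0)]
  have ea2 : a v2 / a v2 = 1 := div_self h2.ne'
  -- the trees
  obtain ⟨N, hN⟩ : ∃ N, T0 (p v0 / -a v0) (q v0 / -a v0) (s v0 / -a v0) (2 * (3 * ε)) N := by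
    apply tree0 (by linarith) (by linarith)
    · refine (t2 v0).scale h0 |>.pert (δ := 0) (by simp) (by simp) (by simp) (by linarith)
    · refine (t3 v0).scale h0 |>.pert (δ := 0) (by simp) (by simp) ?_ (by linarith)
      rw [ea0]; simp
    · refine (t4 v0).scale h0 |>.pert (δ := ε) (by simp [hε.le]) ?_ (by simp [hε.le]) (by linarith)
      rw [zero_sub, abs_neg]; exact hb0
  obtain ⟨N', hN'⟩ : ∃ N', T0 (q v1 / -b v1) (p v1 / -b v1) (s v1 / -b v1) (2 * (3 * ε)) N' := by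
    apply tree0 (by linarith) (by linarith)
    · refine ((t2 v1).scale h1 |>.pert (δ := 0) (by simp) (by simp) (by simp) (by linarith)).swap
    · refine (t4 v1).swap2.scale h1 |>.pert (δ := 0) (by simp) (by simp) ?_ (by linarith)
      rw [eb1]; simp
    · refine (t3 v1).swap2.scale h1 |>.pert (δ := ε) (by simp [hε.le]) ?_ (by simp [hε.le])
        (by linarith)
      rw [zero_sub, abs_neg]; exact ha1
  have hT2 : T2 (p v2 / a v2) (q v2 / a v2) (s v2 / a v2) (2 * (3 * ε)) := by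
    apply tree2 (by linarith) (by linarith)
    · refine (t2 v2).scale h2 |>.pert (δ := 0) (by simp) (by simp) (by simp) (by linarith)
    · refine (t3 v2).scale h2 |>.pert (δ := 0) (by simp) (by simp) ?_ (by linarith)
      rw [ea2]; simp
    · refine (t4 v2).scale h2 |>.pert (δ := ε) (by simp [hε.le]) ?_ (by simp [hε.le]) (by linarith)
      rw [abs_sub_comm]; exact hb2
  obtain ⟨bp, bq, bs⟩ := T0_bound (by linarith) hN
  obtain ⟨bq', bp', bs'⟩ := T0_bound (by linarith) hN'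
  have D : ∀ u : ι → ℝ, (∀ v w x, Det0 (a v) (b v) (u v) (a w) (b w) (u w) (a x) (b x) (u x)) →
      Det0 (-1) (b v0 / -a v0) (u v0 / -a v0) (a v1 / -b v1) (-1) (u v1 / -b v1) 1
        (b v2 / a v2) (u v2 / a v2) := by
    intro u hu
    have := (hu v0 v1 v2).scale (n := -a v0) (n' := -b v1) (m := a v2) h0.ne' h1.ne' h2.ne'
    rwa [ea0, eb1, ea2] at this
  have B1 := balance hε.le (by linarith) hb0 ha1 hb2 bp bp' (D p dp)
  have B2 := balance hε.le (by linarith) hb0 ha1 hb2 bq bq' (D q dq)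
  have B3 := balance hε.le (by linarith) hb0 ha1 hb2 bs bs' (D s ds)
  have hN0 : 0 ≤ N := (abs_nonneg _).trans bp
  have hN0' : 0 ≤ N' := (abs_nonneg _).trans bp'
  obtain ⟨hNN, hF⟩ := comb (θ := 3 * ε * (N + N')) (by linarith) (by linarith) (by positivity)
    (by nlinarith) hN hN' hT2 B1 B2 B3
  have hθ : 3 * ε * (N + N') ≤ 30 * ε := by nlinarith
  have D' : ∀ u : ι → ℝ, (∀ v w x, Det0 (a v) (b v) (u v) (a w) (b w) (u w) (a x) (b x) (u x)) →
      ∀ x, Det0 (-1) (b v0 / -a v0) (u v0 / -a v0) (a v1 / -b v1) (-1) (u v1 / -b v1) (a x)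
        (b x) (u x) := by
    intro u hu x
    have := (hu v0 v1 x).scale (n := -a v0) (n' := -b v1) (m := 1) h0.ne' h1.ne' one_ne_zero
    rwa [ea0, eb1, div_one, div_one, div_one] at this
  have key : ∀ u : ι → ℝ,
      (∀ v w x, Det0 (a v) (b v) (u v) (a w) (b w) (u w) (a x) (b x) (u x)) →
      ∀ z z' : ℝ, |z| ≤ 2 → |z'| ≤ 2 →
      (z - 10 * (2 * (3 * ε) + 3 * ε * (N + N')) ≤ u v0 / -a v0 ∧
        u v0 / -a v0 ≤ z + 10 * (2 * (3 * ε) + 3 * ε * (N + N'))) →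
      (z' - 10 * (2 * (3 * ε) + 3 * ε * (N + N')) ≤ u v1 / -b v1 ∧
        u v1 / -b v1 ≤ z' + 10 * (2 * (3 * ε) + 3 * ε * (N + N'))) →
      ∀ x, |z * a x + z' * b x + u x| ≤ 3000 * ε * (|a x| + |b x|) := by
    intro u hu z z' hz hz' c1 c2 x
    have := third (C := 360) hε.le (by linarith) hb0 ha1
      (abs_le.mpr ⟨by linarith [c1.1], by linarith [c1.2]⟩)
      (abs_le.mpr ⟨by linarith [c2.1], by linarith [c2.2]⟩) hz hz' (by linarith)
      (D' u hu x)
    have h3 : 0 ≤ ε * (|a x| + |b x|) := by positivity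
    nlinarith
  unfold Five Cl at hF
  rcases hF with ⟨c1, c2, c3, c4, c5, c6⟩ | ⟨c1, c2, c3, c4, c5, c6⟩ |
    ⟨c1, c2, c3, c4, c5, c6⟩ | ⟨c1, c2, c3, c4, c5, c6⟩ | ⟨c1, c2, c3, c4, c5, c6⟩
  · exact Or.inl fun x => ⟨key p dp _ _ (by norm_num) (by norm_num) c1 c4 x,
      key q dq _ _ (by norm_num) (by norm_num) c2 c5 x,
      key s ds _ _ (by norm_num) (by norm_num) c3 c6 x⟩
  · exact Or.inr <| Or.inl fun x => ⟨key p dp _ _ (by norm_num) (by norm_num) c1 c4 x,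
      key q dq _ _ (by norm_num) (by norm_num) c2 c5 x,
      key s ds _ _ (by norm_num) (by norm_num) c3 c6 x⟩
  · exact Or.inr <| Or.inr <| Or.inl fun x =>
      ⟨key p dp _ _ (by norm_num [abs_le]) (by norm_num) c1 c4 x,
      key q dq _ _ (by norm_num) (by norm_num [abs_le]) c2 c5 x,
      key s ds _ _ (by norm_num [abs_le]) (by norm_num [abs_le]) c3 c6 x⟩
  · exact Or.inr <| Or.inr <| Or.inr <| Or.inl fun x =>
      ⟨key p dp _ _ (by norm_num) (by norm_num) c1 c4 x,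
      key q dq _ _ (by norm_num) (by norm_num) c2 c5 x,
      key s ds _ _ (by norm_num) (by norm_num) c3 c6 x⟩
  · exact Or.inr <| Or.inr <| Or.inr <| Or.inr fun x =>
      ⟨key p dp _ _ (by norm_num) (by norm_num) c1 c4 x,
      key q dq _ _ (by norm_num) (by norm_num) c2 c5 x,
      key s ds _ _ (by norm_num) (by norm_num) c3 c6 x⟩

end Run7.h498
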