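import Pool.Agent.Run7.h498.Aux3
import Pool.Agent.Y740.Point

set_option autoImplicit false

/-!
# The plane of the logarithms
-/

namespace Run7.h498

open Module Pool.Agent.Y740

/-- the orthonormal bases -/
def orthoSet : Set (Fin 5 → ℝ × ℝ) :=
  {A | ∑ l, (A l).1 * (A l).1 = 1 ∧ ∑ l, (A l).2 * (A l).2 = 1 ∧ ∑ l, (A l).1 * (A l).2 = 0}

lemma orthoSet_compact : IsCompact orthoSet := by
  apply Metric.isCompact_of_isClosed_isBounded
  · unfold orthoSet
    apply IsClosed.inter
    · exact isClosed_eq (by fun_prop) continuous_const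
    · apply IsClosed.inter
      · exact isClosed_eq (by fun_prop) continuous_const
      · exact isClosed_eq (by fun_prop) continuous_const
  · rw [isBounded_iff_forall_norm_le]
    refine ⟨1, fun A hA => ?_⟩
    rw [pi_norm_le_iff_of_nonneg zero_le_one]
    intro l
    rw [Prod.norm_def, max_le_iff, Real.norm_eq_abs, Real.norm_eq_abs]
    have h1 : (A l).1 * (A l).1 ≤ 1 := by
      rw [← hA.1]
      exact Finset.single_le_sum (f := fun l => (A l).1 * (A l).1)
        (fun _ _ => mul_self_nonneg _) (Finset.mem_univ l)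
    have h2 : (A l).2 * (A l).2 ≤ 1 := by
      rw [← hA.2.1]
      exact Finset.single_le_sum (f := fun l => (A l).2 * (A l).2)
        (fun _ _ => mul_self_nonneg _) (Finset.mem_univ l)
    exact ⟨abs_le_one_iff_mul_self_le_one.mpr h1, abs_le_one_iff_mul_self_le_one.mpr h2⟩

lemma exists_basis (U : Fin 3 → Fin 5 → ℤ) (hU : LinearIndependent ℤ U) :
    ∃ A ∈ orthoSet, ∀ Λ : Fin 5 → ℝ, (∀ k, ∑ l, (U k l : ℝ) * Λ l = 0) →
      ∃ w : ℝ × ℝ, (∀ l, Λ l = dt (A l) w) ∧ |w.1| ≤ ∑ l, |Λ l| ∧ |w.2| ≤ ∑ l, |Λ l| := by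
  have hUR := real_indep U hU
  set E := EuclideanSpace ℝ (Fin 5) with hE
  set u : Fin 3 → E := fun k => WithLp.toLp 2 (fun l => (U k l : ℝ)) with hu
  have hui : LinearIndependent ℝ u := by
    have := hUR.map' (WithLp.linearEquiv 2 ℝ (Fin 5 → ℝ)).symm.toLinearMap
      (LinearMap.ker_eq_bot.mpr (WithLp.linearEquiv 2 ℝ (Fin 5 → ℝ)).symm.injective)
    exact this
  set S : Submodule ℝ E := Submodule.span ℝ (Set.range u) with hS
  have hSf : finrank ℝ S = 3 := by
    rw [hS, finrank_span_eq_card hui, Fintype.card_fin]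
  have hW : finrank ℝ Sᗮ = 2 := by
    have := S.finrank_add_finrank_orthogonal
    rw [hSf, finrank_euclideanSpace_fin] at this
    omega
  let b : OrthonormalBasis (Fin 2) ℝ Sᗮ := (stdOrthonormalBasis ℝ Sᗮ).reindex (finCongr hW)
  set A : Fin 5 → ℝ × ℝ := fun l => ((b 0 : E) l, (b 1 : E) l) with hA
  have hin : ∀ i j, ∑ l, (b i : E) l * (b j : E) l = if i = j then 1 else 0 := by
    intro i j
    have h1 := orthonormal_iff_ite.mp b.orthonormal i j
    rw [← h1, Submodule.coe_inner, PiLp.inner_apply]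
    apply Finset.sum_congr rfl
    intro l _
    simp [mul_comm]
  refine ⟨A, ⟨?_, ?_, ?_⟩, ?_⟩
  · have := hin 0 0; simpa [hA] using this
  · have := hin 1 1; simpa [hA] using this
  · have := hin 0 1; simpa [hA] using this
  · intro Λ hΛ
    set x : E := WithLp.toLp 2 Λ with hx
    have hxS : x ∈ Sᗮ := by
      rw [Submodule.mem_orthogonal]
      intro y hy
      rw [hS] at hy
      induction hy using Submodule.span_induction with
      | mem y hy =>
        obtain ⟨k, rfl⟩ := hy
        rw [PiLp.inner_apply, ← hΛ k]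
        apply Finset.sum_congr rfl
        intro l _
        simp [hu, hx, mul_comm]
      | zero => exact inner_zero_left _
      | add y z _ _ h1 h2 => rw [inner_add_left, h1, h2, add_zero]
      | smul c y _ h1 => rw [inner_smul_left, h1, mul_zero]
    have hrep := b.sum_repr ⟨x, hxS⟩
    set c := b.repr ⟨x, hxS⟩ with hc
    have hcoord : ∀ l, Λ l = c 0 * (b 0 : E) l + c 1 * (b 1 : E) l := by
      intro l
      have h1 := congrArg (fun z : Sᗮ => (z : E) l) hrep
      simp only [Fin.sum_univ_two] at h1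
      have h2 : ((c 0 • b 0 + c 1 • b 1 : Sᗮ) : E) l =
          c 0 * (b 0 : E) l + c 1 * (b 1 : E) l := by
        rw [Submodule.coe_add, Submodule.coe_smul, Submodule.coe_smul]
        rfl
      rw [← h2]
      exact h1.symm
    have hci : ∀ i, c i = ∑ l, (b i : E) l * Λ l := by
      intro i
      rw [hc, OrthonormalBasis.repr_apply_apply, Submodule.coe_inner, PiLp.inner_apply]
      apply Finset.sum_congr rfl
      intro l _
      simp [hx, mul_comm]
    have hbl : ∀ i l, |(b i : E) l| ≤ 1 := by
      intro i l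
      have h1 := hin i i
      rw [if_pos rfl] at h1
      have h2 : (b i : E) l * (b i : E) l ≤ 1 := by
        rw [← h1]
        exact Finset.single_le_sum (f := fun l => (b i : E) l * (b i : E) l)
          (fun _ _ => mul_self_nonneg _) (Finset.mem_univ l)
      exact abs_le_one_iff_mul_self_le_one.mpr h2
    have hcb : ∀ i, |c i| ≤ ∑ l, |Λ l| := by
      intro i
      rw [hci]
      refine (Finset.abs_sum_le_sum_abs _ _).trans (Finset.sum_le_sum fun l _ => ?_)
      rw [abs_mul]
      exact mul_le_of_le_one_left (abs_nonneg _) (hbl i l)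
    refine ⟨(c 0, c 1), fun l => ?_, hcb 0, hcb 1⟩
    rw [hcoord l, dt]
    ring

end Run7.h498
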