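import Mathlib

set_option autoImplicit false

/-!
# The tropical combinatorics of the moduli space of five points on a line
-/

namespace Run7.h498

/-- the maximum of three numbers is attained twice, up to `k` -/
def Tri (a b c k : ℝ) : Prop :=
  (|a - b| ≤ k ∧ c ≤ a + k ∧ c ≤ b + k) ∨ (|a - c| ≤ k ∧ b ≤ a + k ∧ b ≤ c + k) ∨
    (|b - c| ≤ k ∧ a ≤ b + k ∧ a ≤ c + k)

lemma Tri.of_max {a b c k : ℝ} (h1 : a ≤ max b c + k) (h2 : b ≤ max a c + k)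
    (h3 : c ≤ max a b + k) (hk : 0 ≤ k) : Tri a b c k := by
  unfold Tri
  simp only [abs_le]
  rcases le_total a b with h | h <;> rcases le_total b c with h' | h' <;>
    rcases le_total a c with h'' | h'' <;>
    simp only [h, h', h'', max_eq_left, max_eq_right] at h1 h2 h3 <;>
    first
    | (refine Or.inl ⟨⟨?_, ?_⟩, ?_, ?_⟩ <;> linarith)
    | (refine Or.inr (Or.inl ⟨⟨?_, ?_⟩, ?_, ?_⟩) <;> linarith)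
    | (refine Or.inr (Or.inr ⟨⟨?_, ?_⟩, ?_, ?_⟩) <;> linarith)

lemma Tri.swap {x y z k : ℝ} (h : Tri x y z k) : Tri y x z k := by
  unfold Tri at *
  simp only [abs_le] at *
  rcases h with ⟨⟨x1, x2⟩, x3, x4⟩ | ⟨⟨x1, x2⟩, x3, x4⟩ | ⟨⟨x1, x2⟩, x3, x4⟩
  · exact Or.inl ⟨⟨by linarith, by linarith⟩, by linarith, by linarith⟩
  · exact Or.inr (Or.inr ⟨⟨by linarith, by linarith⟩, by linarith, by linarith⟩)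
  · exact Or.inr (Or.inl ⟨⟨by linarith, by linarith⟩, by linarith, by linarith⟩)

lemma Tri.swap2 {x y z k : ℝ} (h : Tri x y z k) : Tri x z y k := by
  unfold Tri at *
  simp only [abs_le] at *
  rcases h with ⟨⟨x1, x2⟩, x3, x4⟩ | ⟨⟨x1, x2⟩, x3, x4⟩ | ⟨⟨x1, x2⟩, x3, x4⟩
  · exact Or.inr (Or.inl ⟨⟨by linarith, by linarith⟩, by linarith, by linarith⟩)
  · exact Or.inl ⟨⟨by linarith, by linarith⟩, by linarith, by linarith⟩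
  · exact Or.inr (Or.inr ⟨⟨by linarith, by linarith⟩, by linarith, by linarith⟩)

lemma Tri.scale {a b c k n : ℝ} (hn : 0 < n) (h : Tri a b c k) :
    Tri (a / n) (b / n) (c / n) (k / n) := by
  have e : ∀ u w : ℝ, |u - w| ≤ k → |u / n - w / n| ≤ k / n := by
    intro u w huw
    rw [← sub_div, abs_div, abs_of_pos hn]
    exact div_le_div_of_nonneg_right huw hn.le
  have f : ∀ u w : ℝ, u ≤ w + k → u / n ≤ w / n + k / n := by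
    intro u w huw
    rw [← add_div]
    exact div_le_div_of_nonneg_right huw hn.le
  rcases h with ⟨h1, h2, h3⟩ | ⟨h1, h2, h3⟩ | ⟨h1, h2, h3⟩
  · exact Or.inl ⟨e _ _ h1, f _ _ h2, f _ _ h3⟩
  · exact Or.inr (Or.inl ⟨e _ _ h1, f _ _ h2, f _ _ h3⟩)
  · exact Or.inr (Or.inr ⟨e _ _ h1, f _ _ h2, f _ _ h3⟩)

lemma Tri.pert {a b c k a' b' c' k' δ : ℝ} (h : Tri a b c k) (ha : |a' - a| ≤ δ)
    (hb : |b' - b| ≤ δ) (hc : |c' - c| ≤ δ) (hk : k + 2 * δ ≤ k') : Tri a' b' c' k' := by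
  rw [abs_le] at ha hb hc
  rcases h with ⟨h1, h2, h3⟩ | ⟨h1, h2, h3⟩ | ⟨h1, h2, h3⟩
  · rw [abs_le] at h1
    exact Or.inl ⟨abs_le.mpr ⟨by linarith, by linarith⟩, by linarith, by linarith⟩
  · rw [abs_le] at h1
    exact Or.inr (Or.inl ⟨abs_le.mpr ⟨by linarith, by linarith⟩, by linarith, by linarith⟩)
  · rw [abs_le] at h1
    exact Or.inr (Or.inr ⟨abs_le.mpr ⟨by linarith, by linarith⟩, by linarith, by linarith⟩)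

/-- the position of the second point, when the first is near `0` -/
def T0 (p q s d N : ℝ) : Prop :=
  (|q - p| ≤ d ∧ |s - p| ≤ d ∧ -d ≤ p ∧ N = p + 4 * d) ∨
  (|p| ≤ d ∧ |s| ≤ d ∧ q ≤ d ∧ N = -q + 2 * d) ∨
  (|q| ≤ d ∧ |s - p| ≤ d ∧ -1 - d ≤ p ∧ p ≤ d ∧ N = 1 + 2 * d) ∨
  (|q| ≤ d ∧ |s + 1| ≤ d ∧ p ≤ -1 + d ∧ N = -p + 2 * d) ∨
  (|q| ≤ d ∧ |p + 1| ≤ d ∧ s ≤ -1 + d ∧ N = -s + 2 * d)

/-- the position of the second point, when the first is near `1` -/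
def T1 (p q s d N : ℝ) : Prop := T0 q p s d N

/-- the position of the second point, when the first is near `∞` -/
def T2 (p q s d : ℝ) : Prop :=
  (|q| ≤ d ∧ |s - 1| ≤ d ∧ p ≤ d) ∨
  (|p| ≤ d ∧ |s - 1| ≤ d ∧ q ≤ d) ∨
  (|q - p| ≤ d ∧ |s - 1| ≤ d ∧ -d ≤ p ∧ p ≤ 1 + d) ∨
  (|p - 1| ≤ d ∧ |q - 1| ≤ d ∧ s ≤ 1 + d) ∨
  (|q - p| ≤ d ∧ |s - p| ≤ d ∧ 1 - d ≤ p)

lemma tree0 {p q s k : ℝ} (hk : 0 ≤ k) (hk1 : k ≤ 1 / 10) (h1 : Tri p q 0 k)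
    (h2 : Tri s p (-1) k) (h3 : Tri s 0 q k) : ∃ N, T0 p q s (2 * k) N := by
  unfold Tri at h1 h2 h3
  simp only [abs_le] at h1 h2 h3
  rcases h1 with ⟨⟨h1, h1'⟩, h1'', g1⟩ | ⟨⟨h1, h1'⟩, h1'', g1⟩ | ⟨⟨h1, h1'⟩, h1'', g1⟩ <;>
  rcases h2 with ⟨⟨h2, h2'⟩, h2'', g2⟩ | ⟨⟨h2, h2'⟩, h2'', g2⟩ | ⟨⟨h2, h2'⟩, h2'', g2⟩ <;>
  rcases h3 with ⟨⟨h3, h3'⟩, h3'', g3⟩ | ⟨⟨h3, h3'⟩, h3'', g3⟩ | ⟨⟨h3, h3'⟩, h3'', g3⟩ <;>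
  unfold T0 <;>
  simp only [abs_le] <;>
  first
  | (exfalso; linarith)
  | (refine ⟨_, Or.inl ⟨⟨?_, ?_⟩, ⟨?_, ?_⟩, ?_, rfl⟩⟩ <;> linarith)
  | (refine ⟨_, Or.inr (Or.inl ⟨⟨?_, ?_⟩, ⟨?_, ?_⟩, ?_, rfl⟩)⟩ <;> linarith)
  | (refine ⟨_, Or.inr (Or.inr (Or.inl ⟨⟨?_, ?_⟩, ⟨?_, ?_⟩, ?_, ?_, rfl⟩))⟩ <;> linarith)
  | (refine ⟨_, Or.inr (Or.inr (Or.inr (Or.inl ⟨⟨?_, ?_⟩, ⟨?_, ?_⟩, ?_, rfl⟩)))⟩ <;> linarith)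
  | (refine ⟨_, Or.inr (Or.inr (Or.inr (Or.inr ⟨⟨?_, ?_⟩, ⟨?_, ?_⟩, ?_, rfl⟩)))⟩ <;> linarith)

lemma tree2 {p q s k : ℝ} (hk : 0 ≤ k) (hk1 : k ≤ 1 / 10) (h1 : Tri p q 0 k)
    (h2 : Tri s p 1 k) (h3 : Tri s 1 q k) : T2 p q s (2 * k) := by
  unfold Tri at h1 h2 h3
  simp only [abs_le] at h1 h2 h3
  rcases h1 with ⟨⟨h1, h1'⟩, h1'', g1⟩ | ⟨⟨h1, h1'⟩, h1'', g1⟩ | ⟨⟨h1, h1'⟩, h1'', g1⟩ <;>
  rcases h2 with ⟨⟨h2, h2'⟩, h2'', g2⟩ | ⟨⟨h2, h2'⟩, h2'', g2⟩ | ⟨⟨h2, h2'⟩, h2'', g2⟩ <;>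
  rcases h3 with ⟨⟨h3, h3'⟩, h3'', g3⟩ | ⟨⟨h3, h3'⟩, h3'', g3⟩ | ⟨⟨h3, h3'⟩, h3'', g3⟩ <;>
  unfold T2 <;>
  simp only [abs_le] <;>
  first
  | (exfalso; linarith)
  | (refine Or.inl ⟨⟨?_, ?_⟩, ⟨?_, ?_⟩, ?_⟩ <;> linarith)
  | (refine Or.inr (Or.inl ⟨⟨?_, ?_⟩, ⟨?_, ?_⟩, ?_⟩) <;> linarith)
  | (refine Or.inr (Or.inr (Or.inl ⟨⟨?_, ?_⟩, ⟨?_, ?_⟩, ?_, ?_⟩)) <;> linarith)
  | (refine Or.inr (Or.inr (Or.inr (Or.inl ⟨⟨?_, ?_⟩, ⟨?_, ?_⟩, ?_⟩))) <;> linarith)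
  | (refine Or.inr (Or.inr (Or.inr (Or.inr ⟨⟨?_, ?_⟩, ⟨?_, ?_⟩, ?_⟩))) <;> linarith)

end Run7.h498
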