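import Mathlib

set_option autoImplicit false

/-!
# Reduction of power series in two variables modulo `v ^ k - G`
-/

namespace Run7.h498

section mat
variable {M N : Type} {K : N → M → ℝ} {c : ℝ} {f : M → ℝ}

lemma mat_prod (hK : ∀ m, Summable (fun n => |K n m|)) (hc : ∀ m, ∑' n, |K n m| ≤ c)
    (hf : Summable fun m => |f m|) : Summable (fun x : M × N => |K x.2 x.1 * f x.1|) := by
  rw [summable_prod_of_nonneg (fun x => abs_nonneg _)]
  constructor
  · intro m
    simp only [abs_mul]
    exact (hK m).mul_right _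
  · have e : (fun m => ∑' n, |K n m * f m|) = fun m => (∑' n, |K n m|) * |f m| := by
      funext m
      simp only [abs_mul]
      rw [tsum_mul_right]
    show Summable (fun m => ∑' n, |K n m * f m|)
    rw [e]
    refine Summable.of_nonneg_of_le (fun m => mul_nonneg (tsum_nonneg fun n => abs_nonneg _)
      (abs_nonneg _)) (fun m => ?_) (hf.mul_left c)
    exact mul_le_mul_of_nonneg_right (hc m) (abs_nonneg _)

lemma mat_prod' (hK : ∀ m, Summable (fun n => |K n m|)) (hc : ∀ m, ∑' n, |K n m| ≤ c)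
    (hf : Summable fun m => |f m|) : Summable (fun x : N × M => |K x.1 x.2 * f x.2|) := by
  have := (Equiv.prodComm N M).summable_iff.mpr (mat_prod hK hc hf)
  exact this

lemma mat_row (hK : ∀ m, Summable (fun n => |K n m|)) (hc : ∀ m, ∑' n, |K n m| ≤ c)
    (hf : Summable fun m => |f m|) (n : N) : Summable (fun m => |K n m * f m|) :=
  (mat_prod' hK hc hf).prod_factor n

lemma mat_summable (hK : ∀ m, Summable (fun n => |K n m|)) (hc : ∀ m, ∑' n, |K n m| ≤ c)
    (hf : Summable fun m => |f m|) : Summable (fun n => |∑' m, K n m * f m|) := by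
  have h := (mat_prod' hK hc hf)
  refine Summable.of_nonneg_of_le (fun n => abs_nonneg _) (fun n => ?_) h.prod
  have := norm_tsum_le_tsum_norm (f := fun m => K n m * f m) (mat_row hK hc hf n)
  simpa [Real.norm_eq_abs] using this

lemma mat_norm (hK : ∀ m, Summable (fun n => |K n m|)) (hc : ∀ m, ∑' n, |K n m| ≤ c)
    (hf : Summable fun m => |f m|) : ∑' n, |∑' m, K n m * f m| ≤ c * ∑' m, |f m| := by
  have h := mat_prod' hK hc hf
  have h1 : ∑' n, |∑' m, K n m * f m| ≤ ∑' n, ∑' m, |K n m * f m| := by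
    apply Summable.tsum_le_tsum _ (mat_summable hK hc hf) h.prod
    intro n
    have := norm_tsum_le_tsum_norm (f := fun m => K n m * f m) (mat_row hK hc hf n)
    simpa [Real.norm_eq_abs] using this
  have h2 : ∑' n, ∑' m, |K n m * f m| = ∑' m, ∑' n, |K n m * f m| :=
    Summable.tsum_comm' (f := fun m n => |K n m * f m|) (mat_prod hK hc hf)
      (fun m => (mat_prod hK hc hf).prod_factor m) (fun n => mat_row hK hc hf n)
  rw [h2] at h1
  refine h1.trans ?_
  rw [← tsum_mul_left]
  apply Summable.tsum_le_tsum _ (mat_prod hK hc hf).prod (hf.mul_left c)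
  intro m
  simp only [abs_mul]
  rw [tsum_mul_right]
  exact mul_le_mul_of_nonneg_right (hc m) (abs_nonneg _)

lemma mat_ev (hK : ∀ m, Summable (fun n => |K n m|)) (hc : ∀ m, ∑' n, |K n m| ≤ c)
    (hf : Summable fun m => |f m|) (φ : N → ℝ) (hφ : ∀ n, |φ n| ≤ 1) :
    ∑' n, φ n * ∑' m, K n m * f m = ∑' m, (∑' n, φ n * K n m) * f m := by
  have h := mat_prod hK hc hf
  have h' : Summable (fun x : M × N => φ x.2 * (K x.2 x.1 * f x.1)) := by
    apply Summable.of_norm_bounded h
    intro x
    rw [Real.norm_eq_abs, abs_mul]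
    exact mul_le_of_le_one_left (abs_nonneg _) (hφ _)
  have h'' : Summable (fun x : N × M => φ x.1 * (K x.1 x.2 * f x.2)) :=
    (Equiv.prodComm N M).summable_iff.mpr h'
  have e1 : ∀ n, φ n * ∑' m, K n m * f m = ∑' m, φ n * (K n m * f m) := fun n => by
    rw [tsum_mul_left]
  have e2 : ∀ m, (∑' n, φ n * K n m) * f m = ∑' n, φ n * (K n m * f m) := fun m => by
    rw [← tsum_mul_right]
    exact tsum_congr fun n => by ring
  simp only [e1, e2]
  exact Summable.tsum_comm' (f := fun m n => φ n * (K n m * f m)) h'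
    (fun m => h'.prod_factor m) (fun n => h''.prod_factor n)

end mat

/-- the monomial -/
def mon (u v : ℝ) (n : ℕ × ℕ) : ℝ := u ^ n.1 * v ^ n.2

lemma mon_le {u v : ℝ} (hu : |u| ≤ 1) (hv : |v| ≤ 1) (n : ℕ × ℕ) : |mon u v n| ≤ 1 := by
  rw [mon, abs_mul, abs_pow, abs_pow]
  have h1 : |u| ^ n.1 ≤ 1 := pow_le_one₀ (abs_nonneg _) hu
  have h2 : |v| ^ n.2 ≤ 1 := pow_le_one₀ (abs_nonneg _) hv
  exact mul_le_one₀ h1 (by positivity) h2

lemma mon_mul (u v : ℝ) (n m : ℕ × ℕ) : mon u v (n + m) = mon u v n * mon u v m := by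
  simp only [mon, Prod.fst_add, Prod.snd_add, pow_add]; ring

/-- the matrix of the operator that replaces `v ^ k` by `G` -/
noncomputable def KG (k : ℕ) (g : ℕ × ℕ → ℝ) (n m : ℕ × ℕ) : ℝ :=
  if k ≤ m.2 ∧ (m.1, m.2 - k) ≤ n then g (n - (m.1, m.2 - k)) else 0

lemma KG_hasSum {k : ℕ} {g : ℕ × ℕ → ℝ} (ψ : ℕ × ℕ → ℝ) (m : ℕ × ℕ) (hm : k ≤ m.2)
    {s : ℝ} (hs : HasSum (fun n => ψ (n + (m.1, m.2 - k)) * g n) s) :
    HasSum (fun n => ψ n * KG k g n m) s := by
  set t : ℕ × ℕ := (m.1, m.2 - k) with ht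
  have hinj : Function.Injective (fun n : ℕ × ℕ => n + t) := fun a b h => add_right_cancel h
  rw [← hinj.hasSum_iff]
  · have e : (fun n => ψ n * KG k g n m) ∘ (fun n => n + t) = fun n => ψ (n + t) * g n := by
      funext n
      simp only [Function.comp, KG]
      rw [← ht, if_pos ⟨hm, le_add_self⟩, add_tsub_cancel_right]
    rw [e]; exact hs
  · intro x hx
    rw [KG, ← ht]
    by_cases hle : t ≤ x
    · exfalso
      apply hx
      exact ⟨x - t, tsub_add_cancel_of_le hle⟩
    · rw [if_neg (fun h => hle h.2), mul_zero]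

lemma KG_zero {k : ℕ} {g : ℕ × ℕ → ℝ} (m : ℕ × ℕ) (hm : ¬ k ≤ m.2) (n : ℕ × ℕ) :
    KG k g n m = 0 := by
  rw [KG, if_neg (fun h => hm h.1)]

lemma KG_abs_summable {k : ℕ} {g : ℕ × ℕ → ℝ} (hg : Summable fun n => |g n|) (m : ℕ × ℕ) :
    Summable (fun n => |KG k g n m|) := by
  by_cases hm : k ≤ m.2
  · have h := KG_hasSum (k := k) (g := fun n => |g n|) (fun _ => 1) m hm
      (s := ∑' n, |g n|) (by simpa using hg.hasSum)
    refine h.summable.congr fun n => ?_
    rw [one_mul, KG, KG]
    split_ifs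
    · rfl
    · simp
  · simp only [KG_zero m hm, abs_zero]
    exact summable_zero

lemma KG_abs_sum {k : ℕ} {g : ℕ × ℕ → ℝ} {c : ℝ} (hc : 0 ≤ c) (hg : Summable fun n => |g n|)
    (hgc : ∑' n, |g n| ≤ c) (m : ℕ × ℕ) : ∑' n, |KG k g n m| ≤ c := by
  by_cases hm : k ≤ m.2
  · have h := KG_hasSum (k := k) (g := fun n => |g n|) (fun _ => 1) m hm
      (s := ∑' n, |g n|) (by simpa using hg.hasSum)
    have e : (fun n => |KG k g n m|) = fun n => 1 * KG k (fun n => |g n|) n m := by
      funext n
      rw [one_mul, KG, KG]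
      split_ifs
      · rfl
      · simp
    rw [e, h.tsum_eq]
    exact hgc
  · simp only [KG_zero m hm, abs_zero, tsum_zero]
    exact hc

/-- Reduction of a power series in two variables: on the set where `v ^ k = G(u, v)`, each
power series is equal to one of degree less than `k` in `v`. -/
theorem reduce (k : ℕ) (g : ℕ × ℕ → ℝ) (hg : Summable fun n => |g n|)
    (hg2 : ∑' n, |g n| ≤ 1 / 2) (f : ℕ × ℕ → ℝ) (hf : Summable fun n => |f n|) :
    ∃ c : ℕ × ℕ → ℝ, (Summable fun n => |c n|) ∧ ∑' n, |c n| ≤ 2 * ∑' n, |f n| ∧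
      (∀ n : ℕ × ℕ, k ≤ n.2 → c n = 0) ∧
      ∀ u v : ℝ, |u| ≤ 1 → |v| ≤ 1 → v ^ k = ∑' n, mon u v n * g n →
        ∑' n, mon u v n * f n = ∑' n, mon u v n * c n := by
  have hK : ∀ m, Summable (fun n => |KG k g n m|) := KG_abs_summable hg
  have hc : ∀ m, ∑' n, |KG k g n m| ≤ 1 / 2 := KG_abs_sum (by norm_num) hg hg2
  set F : ℕ → (ℕ × ℕ → ℝ) := fun i => Nat.rec f (fun _ h n => ∑' m, KG k g n m * h m) i with hF
  have hFs : ∀ i, F (i + 1) = fun n => ∑' m, KG k g n m * F i m := fun i => rfl
  have hsum : ∀ i, Summable (fun n => |F i n|) := by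
    intro i
    induction i with
    | zero => exact hf
    | succ i ih =>
      rw [hFs]
      exact mat_summable hK hc ih
  have hle : ∀ i, ∑' n, |F i n| ≤ (1 / 2) ^ i * ∑' n, |f n| := by
    intro i
    induction i with
    | zero => simp [hF]
    | succ i ih =>
      rw [hFs, pow_succ]
      refine (mat_norm hK hc (hsum i)).trans ?_
      calc 1 / 2 * ∑' m, |F i m| ≤ 1 / 2 * ((1 / 2) ^ i * ∑' n, |f n|) := by
            apply mul_le_mul_of_nonneg_left ih (by norm_num)
        _ = _ := by ring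
  have hf0 : 0 ≤ ∑' n, |f n| := tsum_nonneg fun n => abs_nonneg _
  set Q : ℕ → (ℕ × ℕ → ℝ) := fun i n => if n.2 < k then F i n else 0 with hQ
  have hQF : ∀ i n, |Q i n| ≤ |F i n| := by
    intro i n
    rw [hQ]; dsimp only
    split_ifs
    · exact le_refl _
    · rw [abs_zero]; exact abs_nonneg _
  have hQsum : ∀ i, Summable (fun n => |Q i n|) := fun i =>
    Summable.of_nonneg_of_le (fun n => abs_nonneg _) (hQF i) (hsum i)
  have hQle : ∀ i, ∑' n, |Q i n| ≤ (1 / 2) ^ i * ∑' n, |f n| := fun i =>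
    (Summable.tsum_le_tsum (hQF i) (hQsum i) (hsum i)).trans (hle i)
  have hgeo : Summable fun i : ℕ => (1 / 2 : ℝ) ^ i * ∑' n, |f n| :=
    (summable_geometric_of_lt_one (by norm_num) (by norm_num)).mul_right _
  have hgeo2 : ∑' i : ℕ, (1 / 2 : ℝ) ^ i * ∑' n, |f n| = 2 * ∑' n, |f n| := by
    rw [tsum_mul_right, tsum_geometric_of_lt_one (by norm_num) (by norm_num)]
    norm_num
  have hQQ : Summable (fun x : ℕ × (ℕ × ℕ) => |Q x.1 x.2|) := by
    rw [summable_prod_of_nonneg (fun x => abs_nonneg _)]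
    refine ⟨hQsum, ?_⟩
    exact Summable.of_nonneg_of_le (fun i => tsum_nonneg fun n => abs_nonneg _) hQle hgeo
  have hQQ' : Summable (fun x : (ℕ × ℕ) × ℕ => |Q x.2 x.1|) :=
    (Equiv.prodComm (ℕ × ℕ) ℕ).summable_iff.mpr hQQ
  have hcn : ∀ n, |∑' i, Q i n| ≤ ∑' i, |Q i n| := by
    intro n
    have := norm_tsum_le_tsum_norm (f := fun i => Q i n) (hQQ'.prod_factor n)
    simpa [Real.norm_eq_abs] using this
  have hcs : Summable fun n => |∑' i, Q i n| :=
    Summable.of_nonneg_of_le (fun n => abs_nonneg _) hcn hQQ'.prod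
  refine ⟨fun n => ∑' i, Q i n, hcs, ?_, ?_, ?_⟩
  · refine (Summable.tsum_le_tsum hcn hcs hQQ'.prod).trans ?_
    have h2 : ∑' n, ∑' i, |Q i n| = ∑' i, ∑' n, |Q i n| :=
      Summable.tsum_comm' (f := fun i n => |Q i n|) hQQ hQsum (fun n => hQQ'.prod_factor n)
    rw [h2, ← hgeo2]
    exact Summable.tsum_le_tsum hQle hQQ.prod hgeo
  · intro n hn
    have : ∀ i, Q i n = 0 := fun i => by
      rw [hQ]; dsimp only
      rw [if_neg (not_lt.mpr hn)]
    simp [this]
  · intro u v hu hv huv
    have hφ := mon_le hu hv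
    -- the values
    set a : ℕ → ℝ := fun i => ∑' n, mon u v n * F i n with ha
    have hmsum : ∀ h : ℕ × ℕ → ℝ, Summable (fun n => |h n|) →
        Summable (fun n => mon u v n * h n) := by
      intro h hh
      apply Summable.of_norm_bounded hh
      intro n
      rw [Real.norm_eq_abs, abs_mul]
      exact mul_le_of_le_one_left (abs_nonneg _) (hφ n)
    have hab : ∀ i, |a i| ≤ (1 / 2) ^ i * ∑' n, |f n| := by
      intro i
      refine le_trans ?_ (hle i)
      have h1 := norm_tsum_le_tsum_norm (f := fun n => mon u v n * F i n)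
        (hmsum (F i) (hsum i)).norm
      rw [Real.norm_eq_abs] at h1
      refine h1.trans (Summable.tsum_le_tsum (fun n => ?_) (hmsum (F i) (hsum i)).norm (hsum i))
      rw [Real.norm_eq_abs, abs_mul]
      exact mul_le_of_le_one_left (abs_nonneg _) (hφ n)
    have hcol : ∀ m, (∑' n, mon u v n * KG k g n m) = if k ≤ m.2 then mon u v m else 0 := by
      intro m
      split_ifs with hm
      · have h1 : HasSum (fun n => mon u v (n + (m.1, m.2 - k)) * g n)
            (mon u v (m.1, m.2 - k) * v ^ k) := by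
          rw [huv]
          have h2 := (hmsum g hg).hasSum.mul_left (mon u v (m.1, m.2 - k))
          have e : (fun n => mon u v (n + (m.1, m.2 - k)) * g n) =
              fun n => mon u v (m.1, m.2 - k) * (mon u v n * g n) := by
            funext n
            rw [mon_mul]; ring
          rw [e]; exact h2
        rw [(KG_hasSum (mon u v) m hm h1).tsum_eq, mon, mon, mul_assoc, ← pow_add]
        dsimp only
        rw [Nat.sub_add_cancel hm]
      · simp [KG_zero m hm]
    have hstep : ∀ i, ∑' n, mon u v n * Q i n = a i - a (i + 1) := by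
      intro i
      have h1 : a (i + 1) = ∑' m, (if k ≤ m.2 then mon u v m else 0) * F i m := by
        rw [ha]; dsimp only
        rw [hFs, mat_ev hK hc (hsum i) (mon u v) hφ]
        exact tsum_congr fun m => by rw [hcol]
      have h2 : Summable fun n => mon u v n * Q i n := hmsum _ (hQsum i)
      have h3 : Summable fun n => (if k ≤ n.2 then mon u v n else 0) * F i n := by
        apply Summable.of_norm_bounded (hsum i)
        intro n
        rw [Real.norm_eq_abs, abs_mul]
        apply mul_le_of_le_one_left (abs_nonneg _)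
        split_ifs
        · exact hφ n
        · simp
      have h4 : a i = ∑' n, (mon u v n * Q i n + (if k ≤ n.2 then mon u v n else 0) * F i n) := by
        rw [ha]; dsimp only
        apply tsum_congr
        intro n
        rw [hQ]; dsimp only
        by_cases hn : n.2 < k
        · rw [if_pos hn, if_neg (not_le.mpr hn), zero_mul, add_zero]
        · rw [if_neg hn, if_pos (not_lt.mp hn), mul_zero, zero_add]
      rw [h4, h2.tsum_add h3, h1]
      ring
    have hlim : Filter.Tendsto a Filter.atTop (nhds 0) := by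
      apply squeeze_zero_norm (a := fun i => (1 / 2 : ℝ) ^ i * ∑' n, |f n|) hab
      have := (tendsto_pow_atTop_nhds_zero_of_lt_one (r := (1 / 2 : ℝ)) (by norm_num)
        (by norm_num)).mul_const (∑' n, |f n|)
      simpa using this
    have hev : Summable (fun x : ℕ × (ℕ × ℕ) => mon u v x.2 * Q x.1 x.2) := by
      apply Summable.of_norm_bounded hQQ
      intro x
      rw [Real.norm_eq_abs, abs_mul]
      exact mul_le_of_le_one_left (abs_nonneg _) (hφ _)
    have hev' : Summable (fun x : (ℕ × ℕ) × ℕ => mon u v x.1 * Q x.2 x.1) :=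
      (Equiv.prodComm (ℕ × ℕ) ℕ).summable_iff.mpr hev
    have e1 : ∑' n, mon u v n * ∑' i, Q i n = ∑' i, ∑' n, mon u v n * Q i n := by
      have : ∀ n, mon u v n * ∑' i, Q i n = ∑' i, mon u v n * Q i n := fun n => by
        rw [tsum_mul_left]
      simp only [this]
      exact Summable.tsum_comm' (f := fun i n => mon u v n * Q i n) hev
        (fun i => hev.prod_factor i) (fun n => hev'.prod_factor n)
    rw [e1]
    have hs : Summable fun i => ∑' n, mon u v n * Q i n := hev.prod
    have ht := hs.hasSum.tendsto_sum_nat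
    have ht2 : Filter.Tendsto (fun n => ∑ i ∈ Finset.range n, ∑' m, mon u v m * Q i m)
        Filter.atTop (nhds (a 0)) := by
      have e2 : (fun n => ∑ i ∈ Finset.range n, ∑' m, mon u v m * Q i m) =
          fun n => a 0 - a n := by
        funext n
        simp only [hstep]
        exact Finset.sum_range_sub' a n
      rw [e2]
      simpa using hlim.const_sub (a 0)
    have := tendsto_nhds_unique ht ht2
    rw [this]
    rfl

end Run7.h498
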